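import Mathlib

/-!
Exponential sums over a cube of characters and kernels of integer matrices modulo powers of two.
-/

set_option linter.unusedSectionVars false

namespace Pool.Agent.Lib.MP_788af2_nt.G2

open Finset Complex Matrix

/-- The additive character `m ↦ exp (2 π i m / 2 ^ i)`. -/
noncomputable def ex (i : ℕ) (m : ℤ) : ℂ := ZMod.stdAddChar (m : ZMod (2 ^ i))

lemma ex_add (i : ℕ) (a b : ℤ) : ex i (a + b) = ex i a * ex i b := by
  simp [ex, AddChar.map_add_eq_mul]

lemma norm_ex (i : ℕ) (a : ℤ) : ‖ex i a‖ = 1 := by simp [ex, ZMod.stdAddChar_apply]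

lemma conj_ex (i : ℕ) (a : ℤ) : (starRingEnd ℂ) (ex i a) = ex i (-a) := by
  simp [ex, AddChar.map_neg_eq_conj]

lemma ex_two (i : ℕ) (a : ℤ) : ex (i + 1) (2 * a) = ex i a := by
  simp only [ex, ZMod.stdAddChar_coe]
  congr 1
  push_cast
  field_simp
  ring

lemma ex_of_dvd {i : ℕ} {a : ℤ} (h : (2 : ℤ) ^ i ∣ a) : ex i a = 1 := by
  rw [ex, (ZMod.intCast_zmod_eq_zero_iff_dvd a (2 ^ i)).2 (by exact_mod_cast h)]; simp

lemma z2' (a : ZMod 2) : a = 0 ∨ a = 1 := by revert a; decide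

lemma ex_one (a : ℤ) : ex 1 a = if (a : ZMod 2) = 0 then 1 else -1 := by
  rw [ex]
  change ZMod.stdAddChar (a : ZMod 2) = _
  rcases z2' (a : ZMod 2) with h | h <;> rw [h]
  · simp
  · have := ZMod.stdAddChar_coe (N := 2) 1
    rw [if_neg one_ne_zero, ← exp_pi_mul_I]
    rw [Int.cast_one] at this
    rw [this]; congr 1; push_cast; ring

lemma sum_dot {I : Type} [Fintype I] [DecidableEq I] (q : ℕ) [NeZero q] (w : I → ZMod q) :
    ∑ ξ : I → ZMod q, ZMod.stdAddChar (ξ ⬝ᵥ w) = if w = 0 then ((q : ℂ) ^ Fintype.card I) else 0 := by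
  classical
  let f : (I → ZMod q) →+ ZMod q := AddMonoidHom.mk' (· ⬝ᵥ w) fun a b => add_dotProduct a b w
  have := (ZMod.stdAddChar.compAddMonoidHom f).sum_eq_ite
  refine this.trans (if_congr ⟨fun h => funext fun i => ?_, fun h => ?_⟩ (by simp) rfl)
  · have h1 := DFunLike.congr_fun h (Pi.single i 1)
    simp only [AddChar.compAddMonoidHom_apply, f, AddMonoidHom.mk'_apply, single_dotProduct,
      one_mul, AddChar.zero_apply] at h1
    exact ZMod.injective_stdAddChar (h1.trans (AddChar.map_zero_eq_one _).symm)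
  · ext x; simp [f, h]

section Cube

variable {X Γ : Type} [AddCommGroup X] [Fintype X] [Fintype Γ]

lemma vdc (F : X → ℂ) (H : AddSubgroup X) [Fintype H] :
    Fintype.card H * ‖∑ x, F x‖ ^ 2 ≤
      Fintype.card X * ∑ h : H, (∑ x, F (x + h) * (starRingEnd ℂ) (F x)).re := by
  have hm : (0 : ℝ) < Fintype.card H := by exact_mod_cast Fintype.card_pos
  have h1 : (Fintype.card H : ℂ) * ∑ x, F x = ∑ x, ∑ h : H, F (x + h) := by
    have : ∀ h : H, ∑ x, F (x + h) = ∑ x, F x := fun h => Equiv.sum_comp (Equiv.addRight (h : X)) F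
    rw [sum_comm]; simp [this]
  have h2 : ‖∑ x, ∑ h : H, F (x + h)‖ ^ 2 ≤ Fintype.card X * ∑ x, ‖∑ h : H, F (x + h)‖ ^ 2 :=
    (pow_le_pow_left₀ (norm_nonneg _) (norm_sum_le _ _) 2).trans sq_sum_le_card_mul_sum_sq
  have h3 : ∑ x, ‖∑ h : H, F (x + h)‖ ^ 2 =
      Fintype.card H * ∑ h : H, (∑ x, F (x + h) * (starRingEnd ℂ) (F x)).re := by
    have : ∀ z : ℂ, ‖z‖ ^ 2 = (z * (starRingEnd ℂ) z).re := fun z => by
      rw [mul_conj, ofReal_re, Complex.sq_norm]
    simp only [this, map_sum, sum_mul_sum, ← re_sum]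
    rw [← re_ofReal_mul, ofReal_natCast, sum_comm]
    congr 1
    rw [sum_congr rfl fun (h : H) _ => sum_comm, sum_comm, ← nsmul_eq_mul, ← card_univ, ← sum_const]
    refine sum_congr rfl fun h' _ => ?_
    rw [← Equiv.sum_comp (Equiv.addRight h')]
    refine sum_congr rfl fun h _ => ?_
    rw [← Equiv.sum_comp (Equiv.addRight (h' : X)) fun x => F (x + h) * (starRingEnd ℂ) (F x)]
    simp only [Equiv.coe_addRight, AddSubgroup.coe_add, add_assoc, add_comm (h : X)]
  rw [← h1, h3, norm_mul, mul_pow, Complex.norm_natCast] at h2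
  exact le_of_mul_le_mul_left (by nlinarith) hm

variable (χ : X →+ Γ → ZMod 2)

/-- The sign of the character. -/
def sg (x : X) (γ : Γ) : ℤ := if χ x γ = 0 then 1 else -1

/-- The normalised exponential sum. -/
noncomputable def Av (i : ℕ) (a : Γ → ℤ) : ℝ :=
  ‖∑ x, ex i (∑ γ, a γ * sg χ x γ)‖ / Fintype.card X

lemma Av_le (i : ℕ) (a : Γ → ℤ) : Av χ i a ≤ 1 := by
  have : (0 : ℝ) < Fintype.card X := by exact_mod_cast Fintype.card_pos
  rw [Av, div_le_one this]
  exact (norm_sum_le _ _).trans (by simp [norm_ex])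

lemma Av_sq (i : ℕ) (a : Γ → ℤ) (H : AddSubgroup X) [Fintype H] :
    Fintype.card H * Av χ (i + 1) a ^ 2 ≤ ∑ h : H,
      (∑ x, ex i (∑ γ, -(a γ * (χ h γ).val) * sg χ x γ)).re / Fintype.card X := by
  have hn : (0 : ℝ) < Fintype.card X := by exact_mod_cast Fintype.card_pos
  have := vdc (fun x => ex (i + 1) (∑ γ, a γ * sg χ x γ)) H
  have e : ∀ (h : H) x, ex (i + 1) (∑ γ, a γ * sg χ (x + h) γ) * (starRingEnd ℂ)
      (ex (i + 1) (∑ γ, a γ * sg χ x γ)) = ex i (∑ γ, -(a γ * (χ h γ).val) * sg χ x γ) := by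
    intro h x
    rw [conj_ex, ← ex_add, ← ex_two i, mul_sum, ← sub_eq_add_neg, ← sum_sub_distrib]
    congr 1
    refine sum_congr rfl fun γ _ => ?_
    simp only [sg, map_add, Pi.add_apply]
    rcases z2' (χ x γ) with h1 | h1 <;> rcases z2' (χ h γ) with h2 | h2 <;>
      simp [h1, h2, ZMod.val_one, show (1 + 1 : ZMod 2) = 0 from rfl] <;> ring
  simp only [e] at this
  rw [Av, div_pow, ← sum_div, ← mul_div_assoc, div_le_div_iff₀ (by positivity) hn]
  nlinarith

/-- Non-degeneracy of the multilinear form with `j` generic blocks and one special block. -/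
def Nd (H : ℕ → AddSubgroup X) (Hs : AddSubgroup X) (j : ℕ) (a : Γ → ZMod 2) : Prop :=
  ∀ h : ℕ → X, (∀ l < j, h l ∈ H l ∧ h l ≠ 0) →
    ∃ x ∈ Hs, ∑ γ, a γ * (∏ l ∈ range j, χ (h l) γ) * χ x γ ≠ 0

/-- The recursive bound. -/
noncomputable def eta (δ : ℝ) : ℕ → ℝ
  | 0 => 0
  | j + 1 => √(δ + eta δ j)

lemma eta_nonneg (δ : ℝ) : ∀ j, 0 ≤ eta δ j
  | 0 => le_rfl
  | _ + 1 => Real.sqrt_nonneg _

lemma eta_tendsto (j : ℕ) : Filter.Tendsto (fun δ => eta δ j) (nhds 0) (nhds 0) := by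
  induction j with
  | zero => exact tendsto_const_nhds
  | succ j ih => simpa [eta] using (Filter.tendsto_id.add ih).sqrt

lemma Av_bound {H : ℕ → AddSubgroup X} {Hs : AddSubgroup X} {δ : ℝ} (j : ℕ)
    (hH : ∀ l < j, 1 ≤ δ * Nat.card (H l)) (a : Γ → ℤ) (ha : Nd χ H Hs j fun γ => a γ) :
    Av χ (j + 2) a ≤ eta δ j := by
  classical
  have hn : (0 : ℝ) < Fintype.card X := by exact_mod_cast Fintype.card_pos
  induction j generalizing a with
  | zero =>
    obtain ⟨x₀, hx, h0⟩ := ha 0 (by simp)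
    have h1 := Av_sq χ 1 a Hs
    let f : X → ℝ := fun h => if ∑ γ, (a γ : ZMod 2) * χ h γ = 0 then 1 else -1
    have h2 : ∀ h : Hs, (∑ x, ex 1 (∑ γ, -(a γ * (χ h γ).val) * sg χ x γ)).re / Fintype.card X =
        f h := fun h => by
      have : ∀ x, ((∑ γ, -(a γ * (χ h γ).val) * sg χ x γ : ℤ) : ZMod 2) =
          ∑ γ, (a γ : ZMod 2) * χ h γ := fun x => by
        push_cast
        exact sum_congr rfl fun γ _ => by simp only [sg]; split_ifs <;> simp [CharTwo.neg_eq]
      simp only [ex_one, this, f]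
      split_ifs <;> simp [hn.ne']
    have h3 : ∑ h : Hs, f h = -∑ h : Hs, f h := by
      rw [← sum_neg_distrib, ← Equiv.sum_comp (Equiv.addRight (⟨x₀, hx⟩ : Hs))]
      refine sum_congr rfl fun h _ => ?_
      simp only [range_zero, prod_empty, mul_one] at h0
      simp only [f, Equiv.coe_addRight, AddSubgroup.coe_add, map_add, Pi.add_apply, mul_add,
        sum_add_distrib, (z2' _).resolve_left h0]
      rcases z2' (∑ γ, (a γ : ZMod 2) * χ h γ) with h4 | h4 <;>
        simp [h4, show (1 + 1 : ZMod 2) = 0 from rfl]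
    simp only [h2] at h1
    have hm : (0 : ℝ) < Fintype.card Hs := by exact_mod_cast Fintype.card_pos
    have : Av χ 2 a ^ 2 ≤ 0 := by nlinarith
    exact (pow_eq_zero_iff two_ne_zero |>.1 (this.antisymm (sq_nonneg _))).le
  | succ j ih =>
    have h1 := Av_sq χ (j + 2) a (H j)
    have hm : (0 : ℝ) < Fintype.card (H j) := by exact_mod_cast Fintype.card_pos
    have h2 : ∀ h : H j, (∑ x, ex (j + 2) (∑ γ, -(a γ * (χ h γ).val) * sg χ x γ)).re /
        Fintype.card X ≤ (if h = 0 then 1 else 0) + eta δ j := fun h => by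
      refine (div_le_div_of_nonneg_right (re_le_norm _) hn.le).trans ?_
      split_ifs with h0
      · exact (Av_le χ _ _).trans (by linarith [eta_nonneg δ j])
      · rw [zero_add]
        refine ih (fun l hl => hH l (by omega)) _ fun g hg => ?_
        obtain ⟨x, hx, h3⟩ := ha (Function.update g j h) fun l hl => by
          rcases (Nat.lt_succ_iff.1 hl).eq_or_lt with rfl | hl
          · simpa using h0
          · rw [Function.update_of_ne hl.ne]; exact hg l hl
        refine ⟨x, hx, ?_⟩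
        convert h3 using 2 with γ
        rw [prod_range_succ, Function.update_self, prod_congr (g := fun l => χ (g l) γ)
          (f := fun l => χ (Function.update g j h l) γ) rfl
          fun l hl => by rw [Function.update_of_ne (mem_range.1 hl).ne]]
        simp only [Int.cast_neg, Int.cast_mul, Int.cast_natCast, ZMod.natCast_zmod_val,
          CharTwo.neg_eq]
        ring
    have h3 := h1.trans (sum_le_sum fun h _ => h2 h)
    simp only [sum_add_distrib, sum_ite_eq', mem_univ, if_true, sum_const, card_univ,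
      nsmul_eq_mul] at h3
    have h4 := hH j (by omega)
    rw [Nat.card_eq_fintype_card] at h4
    exact Real.le_sqrt_of_sq_le (le_of_mul_le_mul_left (by nlinarith) hm)

lemma fourier_atom {I : Type} [Fintype I] [DecidableEq I] (i : ℕ) (φ : X → I → ℤ)
    (c : I → ZMod (2 ^ i)) (F : X → ℂ) {b : ℝ}
    (h : ∀ ξ : I → ℤ, ‖∑ x, ex i (∑ j, ξ j * φ x j) * F x‖ ≤ b) :
    ‖∑ x with (fun j => (φ x j : ZMod (2 ^ i))) = c, F x‖ ≤ b := by
  have hq : (0 : ℝ) < ((2 ^ i : ℕ) : ℝ) ^ Fintype.card I := by positivity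
  have e : (((2 ^ i : ℕ) : ℂ) ^ Fintype.card I) * ∑ x with (fun j => (φ x j : ZMod (2 ^ i))) = c, F x =
      ∑ ξ : I → ZMod (2 ^ i), ZMod.stdAddChar (ξ ⬝ᵥ (-c)) *
        ∑ x, ex i (∑ j, ((ξ j).val : ℤ) * φ x j) * F x := by
    simp only [mul_sum, ← mul_assoc]
    rw [sum_comm, sum_filter]
    refine sum_congr rfl fun x _ => ?_
    have := sum_dot (2 ^ i) (-c + fun j => (φ x j : ZMod (2 ^ i)))
    rw [← sum_mul]
    simp only [dotProduct_add, AddChar.map_add_eq_mul, neg_add_eq_zero, eq_comm (a := c)] at this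
    simp only [ex, Int.cast_sum, Int.cast_mul, Int.cast_natCast, ZMod.natCast_zmod_val]
    erw [this]
    split_ifs <;> simp
  have e2 := congrArg norm e
  rw [norm_mul, norm_pow, Complex.norm_natCast] at e2
  refine le_of_mul_le_mul_left (e2.trans_le ((norm_sum_le _ _).trans ?_)) hq
  refine (sum_le_card_nsmul _ _ b fun ξ _ => ?_).trans (by simp)
  rw [norm_mul, ZMod.stdAddChar_apply, Circle.norm_coe, one_mul]
  exact h _

end Cube

section Ker

variable {J : Type} [Fintype J] [DecidableEq J]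

lemma card_ker_transpose (q : ℕ) [NeZero q] (C : Matrix J J (ZMod q)) :
    Nat.card (C.mulVecLin.toAddMonoidHom.ker) = Nat.card (Cᵀ.mulVecLin.toAddMonoidHom.ker) := by
  have key : ∀ C : Matrix J J (ZMod q), ∑ f, ∑ g, ZMod.stdAddChar (g ⬝ᵥ C *ᵥ f) =
      (Nat.card (C.mulVecLin.toAddMonoidHom.ker) : ℂ) * (q : ℂ) ^ Fintype.card J := fun C => by
    simp only [sum_dot, ← sum_filter, sum_const, nsmul_eq_mul]
    congr 2
    rw [← Nat.card_eq_finsetCard]
    exact Nat.card_congr (Equiv.subtypeEquivRight fun f => by simp)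
  have h1 := key C
  rw [sum_comm] at h1
  have h2 : ∀ g f : J → ZMod q, g ⬝ᵥ C *ᵥ f = f ⬝ᵥ Cᵀ *ᵥ g := fun g f => by
    rw [dotProduct_mulVec, ← mulVec_transpose, dotProduct_comm]
  rw [sum_congr rfl fun g _ => sum_congr rfl fun f _ => congrArg _ (h2 g f)] at h1
  have hq : (q : ℂ) ^ Fintype.card J ≠ 0 := pow_ne_zero _ (Nat.cast_ne_zero.2 (NeZero.ne q))
  exact_mod_cast mul_right_cancel₀ hq (h1.symm.trans (key Cᵀ))

lemma card_map_mul {G H : Type} [AddCommGroup G] [AddCommGroup H] (f : G →+ H) (K : AddSubgroup G) :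
    Nat.card (K.map f) * Nat.card (K ⊓ f.ker : AddSubgroup G) = Nat.card K := by
  rw [← AddSubgroup.relIndex_ker, ← AddSubgroup.inf_relIndex_right, inf_comm, mul_comm,
    AddSubgroup.relIndex, ← AddSubgroup.card_mul_index ((K ⊓ f.ker).addSubgroupOf K),
    Nat.card_congr (AddSubgroup.addSubgroupOfEquivOfLe inf_le_left).toEquiv]

/-- Reduction modulo two. -/
def rho (J : Type) (i : ℕ) : (J → ZMod (2 ^ (i + 1))) →+ J → ZMod 2 :=
  (ZMod.castHom (dvd_pow_self 2 i.succ_ne_zero) (ZMod 2)).toAddMonoidHom.compLeft J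

lemma card_img (i : ℕ) (C : Matrix J J (ZMod (2 ^ (i + 1)))) :
    Nat.card (C.mulVecLin.toAddMonoidHom.ker.map (rho J i)) *
      Nat.card ((2 • C).mulVecLin.toAddMonoidHom.ker) = Nat.card (C.mulVecLin.toAddMonoidHom.ker) *
      Nat.card (nsmulAddMonoidHom (α := J → ZMod (2 ^ (i + 1))) 2).ker := by
  have h0 : (nsmulAddMonoidHom (α := J → ZMod (2 ^ (i + 1))) 2).ker ≤
      (2 • C).mulVecLin.toAddMonoidHom.ker := fun f hf => by
    simp only [AddMonoidHom.mem_ker, LinearMap.toAddMonoidHom_coe, mulVecLin_apply,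
      nsmulAddMonoidHom_apply, smul_mulVec, ← mulVec_smul] at hf ⊢
    rw [hf, mulVec_zero]
  rw [← card_map_mul (rho J i) C.mulVecLin.toAddMonoidHom.ker,
    ← card_map_mul (nsmulAddMonoidHom 2) (2 • C).mulVecLin.toAddMonoidHom.ker, mul_assoc,
    inf_eq_right.2 h0]
  · congr 4
    ext f
    simp only [AddSubgroup.mem_map, AddMonoidHom.mem_ker, LinearMap.toAddMonoidHom_coe,
      mulVecLin_apply, nsmulAddMonoidHom_apply, AddSubgroup.mem_inf, smul_mulVec, ← mulVec_smul]
    constructor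
    · rintro ⟨g, hg, rfl⟩
      exact ⟨hg, by rw [map_nsmul, two_nsmul]; exact funext fun j => CharTwo.add_self_eq_zero _⟩
    · rintro ⟨h1, h2⟩
      have : ∀ j, ∃ g, 2 • g = f j := fun j => by
        obtain ⟨m, hm⟩ := ZMod.intCast_surjective (f j)
        have h3 := congrFun h2 j
        simp only [rho, AddMonoidHom.compLeft_apply, Function.comp, ← hm, RingHom.toAddMonoidHom_eq_coe,
          AddMonoidHom.coe_coe, map_intCast, Pi.zero_apply] at h3
        obtain ⟨m', rfl⟩ := (ZMod.intCast_zmod_eq_zero_iff_dvd m 2).1 h3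
        exact ⟨m', by simp [← hm]⟩
      choose g hg using this
      have hg' : 2 • g = f := funext hg
      exact ⟨g, hg' ▸ h1, hg'⟩

/-- Integer vectors modulo two. -/
def red (f : J → ℤ) : J → ZMod 2 := fun j => f j

/-- Two kernel vectors modulo `2 ^ i`, independent modulo two, the first reducing to `u`. -/
def Bk (u : J → ZMod 2) (i : ℕ) (C : Matrix J J ℤ) : Prop :=
  ∃ f f' : J → ℤ, (∀ j, 2 ^ i ∣ (C *ᵥ f) j) ∧ (∀ j, 2 ^ i ∣ (C *ᵥ f') j) ∧ red f = u ∧
    red f' ≠ 0 ∧ red f' ≠ u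

lemma left_kernel {u : J → ZMod 2} (hu : u ≠ 0) {i : ℕ} {C : Matrix J J ℤ} (h : Bk u (i + 1) C) :
    ∃ K : AddSubgroup (J → ZMod 2), 4 ≤ Nat.card K ∧
      ∀ v ∈ K, ∃ g : J → ℤ, red g = v ∧ ∀ j, 2 ^ (i + 1) ∣ (g ᵥ* C) j := by
  let π := Int.castRingHom (ZMod (2 ^ (i + 1)))
  have hπ : ∀ m : ℤ, π m = 0 ↔ 2 ^ (i + 1) ∣ m := fun m => by
    simpa using ZMod.intCast_zmod_eq_zero_iff_dvd m (2 ^ (i + 1))
  have hρ : ∀ f : J → ℤ, rho J i (π ∘ f) = red f := fun f => by ext j; simp [rho, red, π]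
  obtain ⟨f, f', h1, h2, rfl, h3, h4⟩ := h
  have hk : ∀ f : J → ℤ, (∀ j, 2 ^ (i + 1) ∣ (C *ᵥ f) j) →
      red f ∈ (C.map π).mulVecLin.toAddMonoidHom.ker.map (rho J i) := fun f h =>
    ⟨π ∘ f, funext fun j => (RingHom.map_mulVec π C f j).symm.trans ((hπ _).2 (h j)), hρ f⟩
  refine ⟨(C.map π)ᵀ.mulVecLin.toAddMonoidHom.ker.map (rho J i), ?_, ?_⟩
  · have e1 := card_img i (C.map π)
    have e2 := card_img i (C.map π)ᵀ
    rw [← transpose_smul, ← card_ker_transpose, ← card_ker_transpose, ← e1] at e2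
    rw [mul_right_cancel₀ Nat.card_pos.ne' e2]
    have hc : ({0, red f, red f', red f + red f'} : Finset (J → ZMod 2)).card = 4 := by
      have h5 : red f + red f' ≠ 0 := fun h => h4 (by
        rw [add_eq_zero_iff_neg_eq] at h; rw [← h]; ext j; simp [CharTwo.neg_eq])
      rw [card_insert_of_notMem, card_insert_of_notMem, card_pair] <;> simp [*, eq_comm, h4.symm]
    rw [← hc, ← Nat.card_eq_finsetCard]
    refine Nat.card_le_card_of_injective (Set.inclusion fun v hv => ?_) (Set.inclusion_injective _)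
    have hv' : v = 0 ∨ v = red f ∨ v = red f' ∨ v = red f + red f' := by
      simpa only [mem_insert, mem_singleton] using (show v ∈ ({0, red f, red f', red f + red f'} :
        Finset (J → ZMod 2)) from hv)
    rcases hv' with rfl | rfl | rfl | rfl
    exacts [zero_mem _, hk f h1, hk f' h2, add_mem (hk f h1) (hk f' h2)]
  · rintro _ ⟨g, hg, rfl⟩
    choose g' hg' using fun j => ZMod.intCast_surjective (g j)
    obtain rfl : g = π ∘ g' := (funext hg').symm
    refine ⟨g', (hρ g').symm, fun j => (hπ _).1 ?_⟩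
    rw [RingHom.map_vecMul, ← mulVec_transpose]
    exact congrFun hg j

end Ker

end Pool.Agent.Lib.MP_788af2_nt.G2
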