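import Pool.Agent.Lib.MP_788af2_nt.G2.Adv1

/-!
Few characters of a cube have an eigenspace of rank two in a module with an isotropic presentation.
-/

set_option linter.unusedSectionVars false

namespace Pool.Agent.Lib.MP_788af2_nt.G2

open Finset Complex Matrix

section Count

variable {X Γ J : Type} [AddCommGroup X] [Fintype X] [Fintype Γ] [Fintype J] [DecidableEq J]
  (χ : X →+ Γ → ZMod 2) (A : Γ → Matrix J J ℤ)

/-- The matrix of relations specialised at a character. -/
def Ax (x : X) : Matrix J J ℤ := ∑ γ, sg χ x γ • A γ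

lemma sg_cast (x : X) (γ : Γ) : (sg χ x γ : ZMod 2) = 1 := by
  simp only [sg]; split_ifs <;> simp [CharTwo.neg_eq]

lemma dvd_sub_of_cl {q : ℕ} {C C' : Matrix J J ℤ} (h : ∀ i j, (C i j : ZMod q) = C' i j)
    (g f : J → ℤ) : (q : ℤ) ∣ g ⬝ᵥ C *ᵥ f - g ⬝ᵥ C' *ᵥ f := by
  rw [← ZMod.intCast_eq_intCast_iff_dvd_sub]
  simp [dotProduct, mulVec, h]

open Classical in
lemma step {u : J → ZMod 2} (hu : u ≠ 0) (i : ℕ) {η : ℝ} (hη0 : 0 ≤ η)
    (hη : ∀ K : AddSubgroup (J → ZMod 2), 4 ≤ Nat.card K →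
      (∀ v ∈ K, v ᵥ* (∑ γ, (A γ).map (Int.castRingHom (ZMod 2))) = 0) → ∃ v ∈ K, ∀ a : Γ → ℤ,
        (∀ γ, (a γ : ZMod 2) = v ⬝ᵥ (A γ).map (Int.castRingHom (ZMod 2)) *ᵥ u) → Av χ (i + 2) a ≤ η) :
    (#{x | Bk u (i + 2) (Ax χ A x)} : ℝ) ≤ #{x | Bk u (i + 1) (Ax χ A x)} / 2 +
      (2 ^ (i + 1)) ^ Fintype.card (J × J) * (η * Fintype.card X) := by
  let cl : X → J × J → ZMod (2 ^ (i + 1)) := fun x p => (Ax χ A x p.1 p.2 : ℤ)
  have hn : (0 : ℝ) < Fintype.card X := by exact_mod_cast Fintype.card_pos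
  have key : ∀ c, (#{x ∈ ({x | Bk u (i + 2) (Ax χ A x)} : Finset X) | cl x = c} : ℝ) ≤
      #{x ∈ ({x | Bk u (i + 1) (Ax χ A x)} : Finset X) | cl x = c} / 2 + η * Fintype.card X := by
    intro c
    rcases ({x ∈ ({x | Bk u (i + 2) (Ax χ A x)} : Finset X) | cl x = c}).eq_empty_or_nonempty
      with h | ⟨x₀, h⟩
    · rw [h]; simp; positivity
    simp only [mem_filter, mem_univ, true_and] at h
    obtain ⟨⟨f, f', h1, h2, h3, h4⟩, rfl⟩ := h
    have tr : ∀ x, cl x = cl x₀ → ∀ g f, (2 : ℤ) ^ (i + 1) ∣ g ⬝ᵥ Ax χ A x *ᵥ f - g ⬝ᵥ Ax χ A x₀ *ᵥ f :=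
      fun x hx g f => by exact_mod_cast dvd_sub_of_cl (fun a b => congrFun hx (a, b)) g f
    have hb : ∀ x, cl x = cl x₀ → Bk u (i + 1) (Ax χ A x) := fun x hx => by
      have : ∀ f : J → ℤ, (∀ j, 2 ^ (i + 2) ∣ (Ax χ A x₀ *ᵥ f) j) → ∀ j, 2 ^ (i + 1) ∣ (Ax χ A x *ᵥ f) j :=
        fun f h j => by
          have := tr x hx (Pi.single j 1) f
          simp only [single_dotProduct, one_mul] at this
          simpa using this.add ((pow_dvd_pow 2 (by omega)).trans (h j))
      exact ⟨f, f', this f h1, this f' h2, h3, h4⟩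
    obtain ⟨K, hK, hK'⟩ := left_kernel hu (hb x₀ rfl)
    obtain ⟨v, hv, hv'⟩ := hη K hK fun v hv => by
      obtain ⟨g, rfl, hg⟩ := hK' v hv
      ext j
      have := (ZMod.intCast_zmod_eq_zero_iff_dvd _ 2).2 ((dvd_pow_self 2 i.succ_ne_zero).trans (hg j))
      simpa [Ax, vecMul, dotProduct, Matrix.sum_apply, sg_cast, red, -zsmul_eq_mul] using this
    obtain ⟨g, rfl, hg⟩ := hK' v hv
    have hF := fourier_atom (i + 1) (fun x (p : J × J) => Ax χ A x p.1 p.2) (cl x₀)
      (fun x => ex (i + 2) (g ⬝ᵥ Ax χ A x *ᵥ f)) (b := η * Fintype.card X) fun ξ => by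
        rw [← div_le_iff₀ hn]
        refine le_of_eq_of_le ?_ (hv' (fun γ => 2 * ∑ p : J × J, ξ p * A γ p.1 p.2 + g ⬝ᵥ A γ *ᵥ f)
          fun γ => by simp [← h3, dotProduct, mulVec, red, CharTwo.two_eq_zero])
        rw [Av]
        congr 2
        refine sum_congr rfl fun x _ => ?_
        rw [← ex_two (i + 1), ← ex_add]
        congr 1
        simp only [Ax, Matrix.sum_apply, Matrix.smul_apply, smul_eq_mul, sum_mulVec, smul_mulVec,
          dotProduct_sum, dotProduct_smul, add_mul, sum_add_distrib, mul_sum, sum_mul]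
        rw [sum_comm]
        congr 1 <;> refine sum_congr rfl fun _ _ => ?_
        · exact sum_congr rfl fun _ _ => by ring
        · ring
    have h5 : ∀ x, cl x = cl x₀ → Bk u (i + 2) (Ax χ A x) → ex (i + 2) (g ⬝ᵥ Ax χ A x *ᵥ f) = 1 := by
      rintro x hx ⟨f₁, -, k1, -, k2, -⟩
      choose f₂ hf₂ using fun j => (ZMod.intCast_eq_intCast_iff_dvd_sub (f₁ j) (f j) 2).1
        (congrFun (k2.trans h3.symm) j)
      have : f = f₁ + 2 • f₂ := funext fun j => by have := hf₂ j; simp at this ⊢; omega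
      refine ex_of_dvd ?_
      rw [this, mulVec_add, dotProduct_add, mulVec_smul, dotProduct_smul, nsmul_eq_mul, pow_succ' _ (i + 1)]
      refine dvd_add (dvd_sum fun j _ => (pow_succ' (2 : ℤ) (i + 1) ▸ k1 j).mul_left _)
        (mul_dvd_mul_left _ ?_)
      have k3 : (2 : ℤ) ^ (i + 1) ∣ g ⬝ᵥ Ax χ A x₀ *ᵥ f₂ := by
        rw [dotProduct_mulVec]; exact dvd_sum fun j _ => (hg j).mul_right _
      simpa using (tr x hx g f₂).add k3
    have h6 : ({x ∈ ({x | Bk u (i + 1) (Ax χ A x)} : Finset X) | cl x = cl x₀}) =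
        ({x | cl x = cl x₀} : Finset X) := by
      ext x; simpa using hb x
    have h7 : ∑ x ∈ ({x ∈ ({x | Bk u (i + 2) (Ax χ A x)} : Finset X) | cl x = cl x₀}), (2 : ℝ) ≤
        ∑ x with cl x = cl x₀, (1 + (ex (i + 2) (g ⬝ᵥ Ax χ A x *ᵥ f)).re) := by
      refine (sum_le_sum fun x hx => ?_).trans (sum_le_sum_of_subset_of_nonneg
        (fun x hx => by simp only [mem_filter, mem_univ, true_and] at hx ⊢; exact hx.2) fun x _ _ => ?_)
      · simp only [mem_filter, mem_univ, true_and] at hx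
        rw [h5 x hx.2 hx.1]; norm_num
      · linarith [abs_le.1 ((abs_re_le_norm _).trans_eq (norm_ex (i + 2) (g ⬝ᵥ Ax χ A x *ᵥ f)))]
    rw [sum_add_distrib, ← re_sum] at h7
    simp only [sum_const, nsmul_eq_mul, mul_one] at h7
    rw [h6]
    have := (re_le_norm _).trans hF
    nlinarith
  rw [card_eq_sum_card_fiberwise (f := cl) (t := univ) fun _ _ => mem_univ _,
    card_eq_sum_card_fiberwise (s := {x | Bk u (i + 1) (Ax χ A x)}) (f := cl) (t := univ)
    fun _ _ => mem_univ _]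
  push_cast
  refine (sum_le_sum fun c _ => key c).trans_eq ?_
  simp [sum_add_distrib, sum_div]

end Count

lemma factor {M V W : Type} [AddCommGroup M] [AddCommGroup V] [Module (ZMod 2) V] [AddCommGroup W]
    [Module (ZMod 2) W] (f : M →+ V) (g : M →+ W) (h : ∀ P, f P = 0 → g P = 0) :
    ∃ T : V →ₗ[ZMod 2] W, ∀ P, T (f P) = g P := by
  let U := AddSubgroup.toZModSubmodule 2 f.range
  let f' : M →+ U := f.codRestrict U fun P => ⟨P, rfl⟩
  have hf : Function.Surjective f' := by rintro ⟨_, P, rfl⟩; exact ⟨P, rfl⟩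
  let T := f'.liftOfSurjective hf ⟨g, fun P hP => h P (congrArg Subtype.val hP)⟩
  obtain ⟨T', hT⟩ := (T.toZModLinearMap 2).exists_extend
  exact ⟨T', fun P => (LinearMap.congr_fun hT (f' P)).trans
    (AddMonoidHom.liftOfRightInverse_comp_apply _ _ (Function.rightInverse_surjInv hf) _ P)⟩

lemma mem_range_circle {q : ℕ} [NeZero q] {x : UnitAddCircle} (h : q • x = 0) :
    ∃ m : ℤ, ZMod.toAddCircle (m : ZMod q) = x := by
  obtain ⟨r, rfl⟩ := QuotientAddGroup.mk_surjective x
  obtain ⟨m, hm⟩ := (AddCircle.coe_eq_zero_iff (1 : ℝ)).1 h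
  refine ⟨m, ?_⟩
  have hq : (q : ℝ) ≠ 0 := Nat.cast_ne_zero.2 (NeZero.ne q)
  rw [ZMod.toAddCircle_intCast, show (m / q : ℝ) = r by field_simp; simpa [mul_comm] using hm]

lemma pow_smul_circle (n : ℕ) (m : ℤ) : 2 ^ n • ZMod.toAddCircle (m : ZMod (2 ^ (n + 1))) =
    ZMod.toAddCircle (m : ZMod 2) := by
  rw [ZMod.toAddCircle_intCast, ZMod.toAddCircle_intCast, ← AddCircle.coe_nsmul]
  congr 1
  simp only [nsmul_eq_mul]; push_cast; field_simp; ring

lemma exists_lift {M I R : Type} [AddCommGroup M] [Fintype I] (h2 : ∀ P : M, P + P = 0 → P = 0)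
    {J : Type} (c : J → M →+ ZMod 2) (s : I → M →+ M) (col : I → J)
    (hk : ∀ P, (∀ i, c (col i) (s i P) = 0) → ∃ Q, P = Q + Q) (A : R → I → ZMod 2)
    (hA : ∀ r P, ∑ i, A r i * c (col i) (s i P) = 0) (n : ℕ) :
    ∃ (c' : J → M →+ UnitAddCircle) (A' : R → I → ℤ), (∀ r i, (A' r i : ZMod 2) = A r i) ∧
      (∀ r P, ∑ i, A' r i • c' (col i) (s i P) = 0) ∧
      ∀ j P, ∃ m : ℤ, ZMod.toAddCircle (m : ZMod (2 ^ (n + 1))) = c' j P ∧ (m : ZMod 2) = c j P := by
  classical
  have hinj : ∀ n, Function.Injective (nsmulAddMonoidHom (α := M) (2 ^ n)) := fun n =>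
    (injective_iff_map_eq_zero _).2 fun P hP => by
      induction n with
      | zero => simpa using hP
      | succ n ih => exact ih (h2 _ (by simpa [pow_succ', mul_smul, two_nsmul] using hP))
  choose c' hc' using fun j => (Module.Baer.of_divisible UnitAddCircle).extension_property_addMonoidHom
    _ (hinj n) (ZMod.toAddCircle.comp (c j))
  have hc : ∀ j P, 2 ^ n • c' j P = ZMod.toAddCircle (c j P) := fun j P => by
    rw [← map_nsmul]; exact DFunLike.congr_fun (hc' j) P
  have h0 : ∀ z : ZMod 2, 2 • ZMod.toAddCircle z = 0 := fun z => by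
    rw [← map_nsmul, two_nsmul, CharTwo.add_self_eq_zero, map_zero]
  have hz : ∀ (a : ℤ) (z : ZMod 2), a • ZMod.toAddCircle z = ZMod.toAddCircle ((a : ZMod 2) * z) :=
    fun a z => by rw [← map_zsmul, zsmul_eq_mul]
  have gen : ∀ i ≤ n + 1, ∀ φ : M →+ UnitAddCircle, (∀ P, 2 ^ i • φ P = 0) →
      ∃ a : I → ℤ, ∀ P, φ P = 2 ^ (n + 1 - i) • ∑ l, a l • c' (col l) (s l P) := by
    intro i
    induction i with
    | zero => exact fun _ φ h => ⟨0, fun P => by simpa using h P⟩
    | succ i ih =>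
      intro hi φ h
      have hr : ∀ P, (2 ^ i • φ) P ∈ (ZMod.toAddCircle (N := 2)).range := fun P => by
        obtain ⟨m, hm⟩ := mem_range_circle (q := 2) (x := 2 ^ i • φ P) (by
          rw [← mul_smul, ← pow_succ', h])
        exact ⟨m, hm⟩
      let ψ : M →+ ZMod 2 := (AddMonoidHom.ofInjective (ZMod.toAddCircle_injective 2)).symm.toAddMonoidHom.comp
        ((2 ^ i • φ).codRestrict _ hr)
      have hψ : ∀ P, ZMod.toAddCircle (ψ P) = 2 ^ i • φ P := fun P =>
        AddMonoidHom.apply_ofInjective_symm (ZMod.toAddCircle_injective 2) _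
      obtain ⟨T, hT⟩ := factor (AddMonoidHom.pi fun l => (c (col l)).comp (s l)) ψ fun P hP => by
        obtain ⟨Q, rfl⟩ := hk P fun l => congrFun hP l
        rw [map_add, CharTwo.add_self_eq_zero]
      have hT' : ∀ P, ψ P = ∑ l, T (Pi.single l 1) * c (col l) (s l P) := fun P => by
        rw [← hT, ← univ_sum_single (AddMonoidHom.pi _ P), map_sum]
        exact sum_congr rfl fun l _ => by
          rw [mul_comm, ← smul_eq_mul, ← map_smul, ← Pi.single_smul, smul_eq_mul, mul_one]; rfl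
      obtain ⟨b, hb⟩ := ih (by omega) (φ - 2 ^ (n - i) •
        ∑ l, ((T (Pi.single l 1)).val : ℤ) • (c' (col l)).comp (s l)) fun P => by
          simp only [AddMonoidHom.sub_apply, AddMonoidHom.finsetSum_apply,
            AddMonoidHom.smul_apply, AddMonoidHom.comp_apply, smul_sub, ← mul_smul, ← pow_add,
            show i + (n - i) = n by omega, ← hψ, hT', map_sum, smul_sum, smul_comm (2 ^ n), hc, hz]
          simp
      refine ⟨fun l => (T (Pi.single l 1)).val + 2 * b l, fun P => ?_⟩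
      have := hb P
      simp only [AddMonoidHom.sub_apply, AddMonoidHom.finsetSum_apply,
        AddMonoidHom.smul_apply, AddMonoidHom.comp_apply, sub_eq_iff_eq_add] at this
      rw [this, show n + 1 - i = n - i + 1 by omega, show n + 1 - (i + 1) = n - i by omega, pow_succ,
        mul_smul, ← smul_add, smul_sum (r := 2), ← sum_add_distrib]
      congr 1
      exact sum_congr rfl fun l _ => by rw [add_smul, add_comm, mul_smul, two_smul, two_smul]
  choose b hb using fun r => gen n (by omega) (∑ l, ((A r l).val : ℤ) • (c' (col l)).comp (s l))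
    fun P => by
      simp only [AddMonoidHom.finsetSum_apply, AddMonoidHom.smul_apply, AddMonoidHom.comp_apply,
        smul_sum, smul_comm (2 ^ n), hc, hz, ← map_sum]
      simp [hA]
  refine ⟨c', fun r l => (A r l).val - 2 * b r l, fun r l => by simp [CharTwo.two_eq_zero],
    fun r P => ?_, fun j P => ?_⟩
  · have := hb r P
    simp only [AddMonoidHom.finsetSum_apply, AddMonoidHom.smul_apply, AddMonoidHom.comp_apply,
      show n + 1 - n = 1 by omega, pow_one] at this
    simp only [sub_smul, sum_sub_distrib, this, mul_smul, two_smul, sum_add_distrib, sub_self]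
  · obtain ⟨m, hm⟩ := mem_range_circle (q := 2 ^ (n + 1)) (x := c' j P) (by
      rw [pow_succ', mul_smul, hc, h0])
    exact ⟨m, hm, ZMod.toAddCircle_injective 2 (by rw [← pow_smul_circle n, hm, hc])⟩

lemma exists_relations {M V : Type} [AddCommGroup M] [AddCommGroup V] [Module (ZMod 2) V] [Finite V]
    (c : M →+ V) (ψ : M →+ V →+ ZMod 2) (h : ∀ P Q, c P = 0 → ψ P (c Q) = 0) :
    ∃ (l₁ : (Fin (Module.finrank (ZMod 2) V) → ZMod 2) →ₗ[ZMod 2] V)
      (l₂ : (Fin (Module.finrank (ZMod 2) V) → ZMod 2) →ₗ[ZMod 2] Module.Dual (ZMod 2) V),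
      (∀ g P, l₂ g (c P) + ψ P (l₁ g) = 0) ∧ ∀ g, l₁ g = 0 → l₂ g = 0 → g = 0 := by
  let W := AddSubgroup.toZModSubmodule 2 c.range
  let ψ' : M →+ Module.Dual (ZMod 2) W := AddMonoidHom.mk'
    (fun P => ((ψ P).toZModLinearMap 2).comp W.subtype) fun P Q => by ext; simp
  obtain ⟨T, hT⟩ := factor c ψ' fun P hP => by
    ext ⟨_, Q, rfl⟩; exact h P Q hP
  let e : (Fin (Module.finrank (ZMod 2) V) → ZMod 2) ≃ₗ[ZMod 2] W × W.dualAnnihilator :=
    LinearEquiv.ofFinrankEq _ _ (by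
      rw [Module.finrank_prod, Subspace.finrank_add_finrank_dualAnnihilator_eq]; simp)
  refine ⟨W.subtype ∘ₗ LinearMap.fst _ _ _ ∘ₗ e.toLinearMap,
    (T.flip.coprod W.dualAnnihilator.subtype) ∘ₗ e.toLinearMap,
    fun g P => ?_, fun g h1 h2 => ?_⟩
  · have h1 : (e g).2.1 (c P) = 0 := (Submodule.mem_dualAnnihilator _).1 (e g).2.2 _ ⟨P, rfl⟩
    have h2 : T (c P) (e g).1 = ψ P (e g).1 := by rw [hT]; rfl
    simp [h1, h2, CharTwo.add_self_eq_zero]
  · have h3 : (e g).1 = 0 := by simpa using h1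
    have h4 : (e g).2 = 0 := by simpa [h3] using h2
    exact e.map_eq_zero_iff.1 (Prod.ext h3 h4)

open Classical in
/-- The adversarial bound. -/
theorem adv (V : Type) [AddCommGroup V] [Module (ZMod 2) V] [Finite V] {ε : ℝ} (hε : 0 < ε) :
    ∃ N : ℕ, ∀ (X Γ M : Type) [AddCommGroup X] [Fintype X] [Fintype Γ] [AddCommGroup M]
      (χ : X →+ Γ → ZMod 2) (H : ℕ → AddSubgroup X) (Hs : AddSubgroup X) (σ : Γ → M →+ M) (γ₀ : Γ)
      (c : M →+ V) (G : Γ → V →+ V →+ ZMod 2) (u : V) (Good : V → Prop),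
      (∀ x, χ x γ₀ = 0) → (∀ P, σ γ₀ P = P) → (∀ P : M, P + P = 0 → P = 0) →
      (∀ P, (∀ γ, c (σ γ P) = 0) → ∃ Q, P = Q + Q) →
      (∀ P Q, c P = 0 → ∑ γ, G γ (c (σ γ P)) (c Q) = 0) → u ≠ 0 →
      (∀ K : AddSubgroup V, 4 ≤ Nat.card K → ∃ v ∈ K, Good v) → (∀ l < N, N ≤ Nat.card (H l)) →
      (∀ v, Good v → ∀ j < N, Nd χ H Hs j fun γ => G γ u v) →
      (#{x | ∃ P P', (∀ γ, σ γ P = sg χ x γ • P) ∧ (∀ γ, σ γ P' = sg χ x γ • P') ∧ c P = u ∧
        c P' ≠ 0 ∧ c P' ≠ u} : ℝ) ≤ ε * Fintype.card X := by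
  let J := Fin (Module.finrank (ZMod 2) V)
  obtain ⟨n, hn⟩ := exists_pow_lt_of_lt_one (half_pos hε) (by norm_num : (1 / 2 : ℝ) < 1)
  set Q : ℝ := (2 ^ n) ^ Fintype.card (J × J)
  have hQ : 0 < Q := by positivity
  obtain ⟨d, hd0, hd⟩ : ∃ d : ℕ, 0 < d ∧ ∀ j ∈ range n, eta (d : ℝ)⁻¹ j < ε / (4 * Q) :=
    ((Filter.eventually_gt_atTop 0).and ((Finset.eventually_all _).2 fun j _ =>
      ((eta_tendsto j).comp tendsto_inv_atTop_nhds_zero_nat).eventually
        (gt_mem_nhds (by positivity)))).exists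
  refine ⟨max n d, fun X Γ M _ _ _ _ χ H Hs σ γ₀ c G u Good h0 hσ h2 hk hiso hu hG hH hN => ?_⟩
  let b := Module.finBasis (ZMod 2) V
  obtain ⟨l₁, l₂, hl, hl'⟩ := exists_relations c (∑ γ, (G γ).comp (c.comp (σ γ))) fun P Q h => by
    simpa using hiso P Q h
  let L : Γ → (J → ZMod 2) →ₗ[ZMod 2] Module.Dual (ZMod 2) V := fun γ =>
    (if γ = γ₀ then l₂ else 0) + (((AddMonoidHom.mk' (AddMonoidHom.toZModLinearMap 2)
      fun _ _ => rfl).comp (G γ).flip).toZModLinearMap 2) ∘ₗ l₁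
  have hL : ∀ γ g v, L γ g v = (if γ = γ₀ then l₂ g v else 0) + G γ v (l₁ g) := fun γ g v => by
    simp only [L]; split_ifs <;> rfl
  have hLm : ∀ γ g v, g ⬝ᵥ (of fun r j => L γ (Pi.single r 1) (b j)) *ᵥ b.repr v = L γ g v := by
    intro γ g v
    conv_rhs => rw [← univ_sum_single g, ← b.sum_repr v]
    simp only [dotProduct, mulVec, of_apply, map_sum, LinearMap.sum_apply, map_smul, smul_eq_mul,
      mul_sum]
    rw [sum_comm]
    refine sum_congr rfl fun j _ => sum_congr rfl fun r _ => ?_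
    rw [show Pi.single r (g r) = g r • (Pi.single r 1 : J → ZMod 2) by simp [← Pi.single_smul]]
    simp only [map_smul, LinearMap.smul_apply, smul_eq_mul]; ring
  obtain ⟨c', A', hA1, hA2, hc'⟩ := exists_lift (I := Γ × J) h2
    (fun j => (b.coord j).toAddMonoidHom.comp c) (fun i => σ i.1) Prod.snd
    (fun P h => hk P fun γ => b.ext_elem fun j => by simpa using h (γ, j))
    (fun r i => L i.1 (Pi.single r 1) (b i.2)) (fun r P => by
      have := hl (Pi.single r 1) P
      rw [Fintype.sum_prod_type, ← this, sum_congr rfl fun γ _ => (show _ = L γ (Pi.single r 1)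
        (c (σ γ P)) by rw [← hLm γ _ (c _), single_dotProduct]; simp [mulVec, dotProduct]; rfl)]
      simp [hL, sum_add_distrib, hσ]) n
  let A : Γ → Matrix J J ℤ := fun γ => of fun r j => A' r (γ, j)
  have hA : ∀ γ, (A γ).map (Int.castRingHom (ZMod 2)) = of fun r j => L γ (Pi.single r 1) (b j) :=
    fun γ => by ext r j; exact hA1 r (γ, j)
  have hub : (b.repr u : J → ZMod 2) ≠ 0 := fun h => hu (b.ext_elem fun j => by
    simpa using congrFun h j)
  have hX : (0 : ℝ) ≤ Fintype.card X := by positivity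
  have main : ∀ m ≤ n, (#{x | Bk (b.repr u) (m + 1) (Ax χ A x)} : ℝ) ≤
      ((1 / 2) ^ m + ε / 2) * Fintype.card X := by
    intro m
    induction m with
    | zero => exact fun _ => (Nat.cast_le.2 (card_le_univ _)).trans (by nlinarith)
    | succ m ih =>
      intro hm
      refine (step χ A hub m (η := ε / (4 * Q)) (by positivity) fun K hK hK' => ?_).trans ?_
      · have inj : ∀ v ∈ K, l₁ v = 0 → v = 0 := fun v hv h => hl' v h (b.ext fun j => by
          have := congrArg (· ⬝ᵥ b.repr (b j)) (hK' v hv)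
          simp only [← dotProduct_mulVec, sum_mulVec, dotProduct_sum, hA, hLm] at this
          simpa [hL, h] using this)
        obtain ⟨_, ⟨v, hv, rfl⟩, hg⟩ := hG (K.map l₁.toAddMonoidHom) (by
          have := card_map_mul l₁.toAddMonoidHom K
          rw [eq_bot_iff.2 (show K ⊓ l₁.toAddMonoidHom.ker ≤ ⊥ from fun v hv => inj v hv.1 hv.2),
            AddSubgroup.card_bot, mul_one] at this
          exact this ▸ hK)
        refine ⟨v, hv, fun a ha => (Av_bound χ (δ := (d : ℝ)⁻¹) (H := H) (Hs := Hs) m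
          (fun l hl => ?_) a fun h hh => ?_).trans (hd m (mem_range.2 hm)).le⟩
        · rw [inv_mul_eq_div, one_le_div (by exact_mod_cast hd0)]
          exact_mod_cast (le_max_right n d).trans (hH l (by omega))
        · obtain ⟨x, hx, h1⟩ := hN _ hg m (by omega) h hh
          refine ⟨x, hx, ?_⟩
          convert h1 using 2 with γ
          simp only [ha, hA, hLm]
          rw [hL]
          split_ifs with h3
          · simp [h3, h0]
          · simp
      · have h1 : (2 ^ (m + 1) : ℝ) ^ Fintype.card (J × J) ≤ Q :=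
          pow_le_pow_left₀ (by positivity) (pow_le_pow_right₀ one_le_two hm) _
        have h3 := ih (by omega)
        have h4 : Q * (ε / (4 * Q) * Fintype.card X) = ε / 4 * Fintype.card X := by field_simp
        have h5 := mul_le_mul_of_nonneg_right h1 (show 0 ≤ ε / (4 * Q) * Fintype.card X by positivity)
        rw [pow_succ (1 / 2 : ℝ)]
        linarith
  refine le_trans (Nat.cast_le.2 (card_le_card fun x hx => ?_)) ((main n le_rfl).trans (by nlinarith))
  simp only [mem_filter, mem_univ, true_and] at hx ⊢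
  obtain ⟨P, P', h1, h3, h4, h5, h6⟩ := hx
  choose f hf hf' using hc'
  have key : ∀ P, (∀ γ, σ γ P = sg χ x γ • P) → ∀ r, 2 ^ (n + 1) ∣ (Ax χ A x *ᵥ fun j => f j P) r :=
    fun P h r => by
      have := hA2 r P
      simp only [h, map_zsmul] at this
      simp only [← hf, ← map_zsmul (ZMod.toAddCircle (N := 2 ^ (n + 1))), ← map_sum,
        ZMod.toAddCircle_eq_zero, zsmul_eq_mul, Fintype.sum_prod_type] at this
      have h7 := (ZMod.intCast_zmod_eq_zero_iff_dvd ((Ax χ A x *ᵥ fun j => f j P) r) (2 ^ (n + 1))).1 (by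
        rw [← this, sum_comm]
        simp only [Ax, mulVec, dotProduct, Matrix.sum_apply, Matrix.smul_apply, smul_eq_mul, A, of_apply, sum_mul]
        push_cast
        exact sum_congr rfl fun _ _ => sum_congr rfl fun _ _ => by ring)
      exact_mod_cast h7
  have hr : ∀ P, red (fun j => f j P) = b.repr (c P) := fun P => funext fun j => hf' j P
  have hi : ∀ {v w : V}, (b.repr v : J → ZMod 2) = b.repr w → v = w := fun h =>
    b.ext_elem fun j => congrFun h j
  exact ⟨_, _, key P h1, key P' h3, by rw [hr, h4], by rw [hr]; exact fun h => h5 (hi (by simpa using h)),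
    by rw [hr]; exact fun h => h6 (hi h)⟩

end Pool.Agent.Lib.MP_788af2_nt.G2
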