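import Pool.Agent.Lib.MP_788af2_nt.G2.Final
import Pool.Agent.Lib.MP_788af2_nt.AS.Final

/-!
The case of a polynomial pair `(a, b)` joined with the case of a finite pole of `b`.
-/

namespace Pool.Agent.Lib.MP_788af2_nt.G2

open Polynomial Finset Filter Topology

variable {k : Type} [Field k] [Fintype k] [CharP k 2] [DecidableEq (RatFunc k)]

lemma main_poly (a b : k[X]) (hb : 0 < b.natDegree) :
    Tendsto (fun e : ℕ => (Set.ncard {f : k[X] | f.natDegree ≤ e ∧ 2 ≤ Module.rank ℤ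
      (wc (algebraMap _ (RatFunc k) a + algebraMap _ _ f) (algebraMap _ _ b)).Point} : ℝ) /
        Set.ncard {f : k[X] | f.natDegree ≤ e}) atTop (𝓝 0) := by
  classical
  refine tendsto_order.2 ⟨fun ε hε => .of_forall fun e => hε.trans_le (by positivity),
    fun ε hε => ?_⟩
  obtain ⟨m, hm⟩ := pow_unbounded_of_one_lt ε⁻¹ (one_lt_two (α := ℝ))
  obtain ⟨N₀, h⟩ := AS.final hb (m + 1) (by omega) (1 / 2) (by norm_num)
  filter_upwards [eventually_ge_atTop N₀, eventually_ge_atTop a.natDegree] with e he ha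
  obtain ⟨A, hA0, hA, hFG, hs⟩ := h e he
  have e1 : {f : k[X] | f.natDegree ≤ e} = ↑A := by ext f; simp [hA]
  have hc : (0 : ℝ) < A.card := Nat.cast_pos.2 hA0.card_pos
  let Bd := A.filter fun g => 2 ≤ AS.rk b g
  have e2 : Set.ncard {f : k[X] | f.natDegree ≤ e ∧ 2 ≤ Module.rank ℤ
      (wc (algebraMap _ (RatFunc k) a + algebraMap _ _ f) (algebraMap _ _ b)).Point} ≤ Bd.card := by
    rw [← Set.ncard_coe_finset]
    refine Set.ncard_le_ncard_of_injOn (fun f => a + f) (fun f hf => ?_)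
      (add_right_injective a).injOn (Finset.finite_toSet _)
    have h1 : a + f ∈ A := (hA _).2 ((natDegree_add_le _ _).trans (max_le ha hf.1))
    refine mem_coe.2 (mem_filter.2 ⟨h1, ?_⟩)
    have h2 := hf.2
    rw [← map_add] at h2
    have := Module.Finite.iff_addGroup_fg.2 (hFG _ h1)
    have h3 : (2 : Cardinal) ≤ (AS.rk b (a + f) : ℕ) := by
      rw [AS.rk, Module.finrank_eq_rank]; exact h2
    exact_mod_cast h3
  have e3 : (Bd.card : ℝ) * 2 ^ (m + 1) ≤ A.card := by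
    calc (Bd.card : ℝ) * 2 ^ (m + 1) = ∑ _g ∈ Bd, (2 : ℝ) ^ (m + 1) := by
          rw [sum_const, nsmul_eq_mul]
      _ ≤ ∑ g ∈ Bd, (AS.rk b g : ℝ) ^ (m + 1) := sum_le_sum fun g hg => by
          gcongr; exact_mod_cast (mem_filter.1 hg).2
      _ ≤ ∑ g ∈ A, (AS.rk b g : ℝ) ^ (m + 1) :=
          sum_le_sum_of_subset_of_nonneg (filter_subset _ _) fun _ _ _ => by positivity
      _ ≤ _ := hs.trans_eq (by ring)
  rw [e1, Set.ncard_coe_finset, div_lt_iff₀ hc]
  have e4 : (Bd.card : ℝ) < ε * A.card := by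
    rw [inv_lt_iff_one_lt_mul₀' hε] at hm
    have h0 : (0 : ℝ) ≤ Bd.card := Nat.cast_nonneg _
    have h1 : (0 : ℝ) < 2 ^ m := by positivity
    rw [pow_succ] at e3
    nlinarith [mul_le_mul_of_nonneg_left e3 hε.le, mul_pos hε hc]
  exact lt_of_le_of_lt (by exact_mod_cast e2) e4

theorem main_all (a b : RatFunc k) (hb : ∀ c, b ≠ RatFunc.C c)
    (hab : (∃ g : k[X], b = algebraMap _ _ g) → ∃ g : k[X], a = algebraMap _ _ g) :
    Tendsto (fun e : ℕ => (Set.ncard {f : k[X] | f.natDegree ≤ e ∧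
      2 ≤ Module.rank ℤ (wc (a + algebraMap _ _ f) b).Point} : ℝ) /
        Set.ncard {f : k[X] | f.natDegree ≤ e}) atTop (𝓝 0) := by
  by_cases h : ∃ g : k[X], b = algebraMap _ _ g
  · obtain ⟨a, rfl⟩ := hab h
    obtain ⟨b, rfl⟩ := h
    refine main_poly a b (Nat.pos_of_ne_zero fun h0 => hb (b.coeff 0) ?_)
    rw [eq_C_of_natDegree_eq_zero h0, coeff_C_zero, RatFunc.algebraMap_C]
  · exact main a b fun g e => h ⟨g, e⟩

end Pool.Agent.Lib.MP_788af2_nt.G2
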