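import Pool.Agent.Lib.MP_788af2_nt.G2.Norm

/-!
The ambient space of descent data and its coordinates.
-/

set_option linter.unusedSectionVars false

namespace Pool.Agent.Lib.MP_788af2_nt.G2

open Polynomial

variable {k : Type} [Field k] [Fintype k] [CharP k 2] {S : Type} [NormedField S]
  [IsUltrametricDist S] [Algebra (RatFunc k) S] [IsSepClosure (RatFunc k) S] [CharP S 2]
  [DecidableEq S] {p : Pl k S}

namespace Fam

variable {ι : Type} [Fintype ι] [DecidableEq ι] (F : Fam p ι)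

/-- All coordinates are small. -/
def Sm (u : S) : Prop := ∀ γ, ‖F.co γ u‖ < 1

lemma Sm.add {F : Fam p ι} {u v : S} (h : F.Sm u) (h' : F.Sm v) : F.Sm (u + v) := fun γ => by
  rw [map_add]; exact nadd_lt (h γ) (h' γ)

lemma Sm.σ {F : Fam p ι} {u : S} (h : F.Sm u) (hu : u ∈ F.Lh) (δ) : F.Sm (F.σ δ u) := fun γ => by
  rw [F.co_σ _ _ hu]; exact h _

lemma Sm.eq_zero {F : Fam p ι} {u : S} (h : F.Sm u) (hu : u ∈ F.R) : u = 0 :=
  F.ext_co (F.R_Lh hu) (zero_mem _) fun γ => by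
    rw [p.eq_zero_of_small (F.co_A γ hu) (h γ), map_zero]

lemma exists_sm {u : S} (hu : u ∈ F.Lh) : ∃ r ∈ F.R, F.Sm (u + r) := by
  choose a ha h using fun γ => p.exists_pol (F.co_Kh γ hu)
  refine ⟨∑ γ, a γ * F.e γ, sum_mem fun γ _ => mul_mem (F.A_le_R (ha γ)) (F.e_R γ), fun γ => ?_⟩
  rw [map_add, F.co_sum γ fun δ => p.A_le_Kh (ha δ)]
  exact h γ

lemma R_of_fr {u v : S} (hu : u ∈ F.Lh) (hv : v ∈ F.Lh)
    (h : ∀ γ, p.fr (F.co γ u) = p.fr (F.co γ v)) : u + v ∈ F.R :=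
  F.mem_R.2 ⟨add_mem hu hv, fun γ => by
    rw [map_add]; exact p.mem_A_of_fr (F.co_Kh γ hu) (F.co_Kh γ hv) (h γ)⟩

lemma fr_of_R {u v : S} (h : u + v ∈ F.R) (γ) : p.fr (F.co γ u) = p.fr (F.co γ v) :=
  p.fr_congr (by rw [← map_add]; exact F.co_A γ h)

lemma exists_z {η : S} (hη : η ∈ F.Lh) : ∃ z ∈ F.Lh, F.Sm z ∧ z ^ 2 + z + η ∈ F.R := by
  obtain ⟨z, hz, h⟩ := F.wp_bij.2 η hη
  obtain ⟨r, hr, h'⟩ := F.exists_sm hz
  refine ⟨z + r, add_mem hz (F.R_Lh hr), h', ?_⟩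
  convert add_mem h (add_mem (pow_mem hr 2) hr) using 1
  grind

lemma den_sum {d : k[X]} {a : (ι → ZMod 2) → S} (ha : ∀ γ, p.φ d * a γ ∈ p.A) :
    p.φ d * ∑ γ, a γ * F.e γ ∈ F.R := by
  rw [Finset.mul_sum]
  exact sum_mem fun γ _ => by rw [← mul_assoc]; exact mul_mem (F.A_le_R (ha γ)) (F.e_R γ)

lemma res_Tr_sm {u v : S} (hu : u ∈ F.Lh) (h : F.Sm u) (h' : F.Sm v) : p.res (F.Tr (u * v)) = 0 := by
  rw [F.Tr_mul_eq hu, map_sum]
  exact Finset.sum_eq_zero fun γ _ => p.res_mul (F.co_Kh γ hu) (h γ) (h' γ)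

lemma res_Tr_O {u : S} (hu : u ∈ F.Lh) : p.res (F.Tr (p.O u)) = p.res (F.Tr u) := by
  rw [F.Tr_O, p.res_O (F.Tr_Kh hu)]

lemma res_Tr_R {u : S} (hu : u ∈ F.R) : p.res (F.Tr u) = 0 := p.res_A (F.Tr_A hu)

end Fam

namespace Lv

variable (V : Lv p)

/-- The invariant `α + z β`. -/
noncomputable def ah (u : S × S) : S := u.2 + u.1 * V.β

/-- The defect. -/
noncomputable def df (u : S × S) : S := V.ah u + p.O (V.ah u)

lemma df_eq (u : S × S) : V.df u = u.2 + p.O u.2 + p.O ((u.1 ^ 2 + u.1) * V.β) := by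
  simp only [df, ah, add_mul, p.O_add, p.O_sq_mul, V.O_β]; ring

lemma ah_add (u v : S × S) : V.ah (u + v) = V.ah u + V.ah v := by simp [ah]; ring

lemma df_add (u v : S × S) : V.df (u + v) = V.df u + V.df v := by
  simp only [df, ah_add, p.O_add]; ring

variable {ι : Type} [Fintype ι] [DecidableEq ι] (F : Fam p ι)

/-- The ambient space. -/
def Amb : AddSubgroup (S × S) where
  carrier := {u | u.1 ∈ F.Lh ∧ F.Sm u.1 ∧ p.φ V.ν ^ 2 * (u.1 ^ 2 + u.1) ∈ F.R ∧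
    p.φ V.ν ^ 7 * u.2 ∈ F.R ∧ F.Sm (V.df u)}
  add_mem' := by
    rintro u v ⟨h1, h2, h3, h4, h5⟩ ⟨g1, g2, g3, g4, g5⟩
    refine ⟨add_mem h1 g1, h2.add g2, ?_, ?_, V.df_add u v ▸ h5.add g5⟩
    · convert add_mem h3 g3 using 1; simp only [Prod.fst_add]; grind
    · convert add_mem h4 g4 using 1; simp only [Prod.snd_add]; ring
  zero_mem' := by simp [Fam.Sm, df, ah]
  neg_mem' {u} h := by rwa [show -u = u by ext <;> simp [CharTwo.neg_eq]]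

variable {V F}

lemma L_pow {n : ℕ} {u : S} (h : p.φ V.ν ^ n * u ∈ F.R) : u ∈ F.L :=
  F.L_of_den (pow_ne_zero n V.ν_ne) (by rwa [map_pow])

lemma Amb.hL {u : S × S} (h : u ∈ V.Amb F) : u.1 ^ 2 + u.1 ∈ F.L := L_pow h.2.2.1

lemma Amb.aL {u : S × S} (h : u ∈ V.Amb F) : u.2 ∈ F.L := L_pow h.2.2.2.1

lemma β_L : V.β ∈ F.L := F.K_L V.β_K

lemma Amb.ah_Lh {u : S × S} (h : u ∈ V.Amb F) : V.ah u ∈ F.Lh :=
  add_mem (F.L_Lh (Amb.aL h)) (mul_mem h.1 (F.L_Lh β_L))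

/-- The action on pairs. -/
noncomputable def σ2 (F : Fam p ι) (γ : ι → ZMod 2) (u : S × S) : S × S := (F.σ γ u.1, F.σ γ u.2)

lemma ah_σ (γ) (u : S × S) : V.ah (σ2 F γ u) = F.σ γ (V.ah u) := by
  simp [ah, σ2, p.aut_K _ V.β_K]

lemma Amb.σ {u : S × S} (h : u ∈ V.Amb F) (γ) : σ2 F γ u ∈ V.Amb F := by
  refine ⟨F.σ_Lh γ h.1, h.2.1.σ h.1 γ, ?_, ?_, ?_⟩
  · simpa [p.aut_φ, σ2] using F.σ_R γ h.2.2.1
  · simpa [p.aut_φ, σ2] using F.σ_R γ h.2.2.2.1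
  · have := h.2.2.2.2.σ (add_mem (Amb.ah_Lh h) (F.O_Lh (Amb.ah_Lh h))) γ
    rwa [df, map_add, p.aut_O, ← ah_σ] at this

lemma exists_alpha {z α : S} (hz : z ^ 2 + z ∈ F.L) (hα : α ∈ F.L) :
    ∃ α', α' + α ∈ F.R ∧ F.Sm (V.df (z, α')) := by
  obtain ⟨r, hr, h⟩ := F.exists_sm (u := V.df (z, α)) (by
    rw [df_eq]
    exact F.L_Lh (add_mem (add_mem hα (F.O_L hα)) (F.O_L (mul_mem hz β_L))))
  obtain ⟨s, hs, e⟩ := F.oneO_bij.2 r hr
  refine ⟨α + s, by rwa [show α + s + α = s by grind], ?_⟩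
  convert h using 1
  simp only [df_eq, p.O_add]
  grind

variable (V F)

/-- The data of an element of the ambient space. -/
noncomputable def dat (γ : ι → ZMod 2) : S × S →+ S × S where
  toFun u := (p.fr (F.co γ (u.1 ^ 2 + u.1)), p.fr (F.co γ u.2))
  map_zero' := by simp
  map_add' u v := by
    simp only [Prod.fst_add, Prod.snd_add, Prod.mk_add_mk, ← map_add]
    congr 3
    grind

variable {V F}

lemma dat_σ {u : S × S} (h : u ∈ V.Amb F) (γ δ) : dat F γ (σ2 F δ u) = dat F (γ + δ) u := by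
  have h1 := F.co_σ γ δ (F.L_Lh (Amb.hL h))
  have h2 := F.co_σ γ δ (F.L_Lh (Amb.aL h))
  rw [map_add, map_pow] at h1
  simp only [dat, σ2, AddMonoidHom.coe_mk, ZeroHom.coe_mk, h1, h2]

lemma Amb.ext {u v : S × S} (hu : u ∈ V.Amb F) (hv : v ∈ V.Amb F)
    (h : ∀ γ, dat F γ u = dat F γ v) : u = v := by
  have hw := add_mem hu hv
  have h1 : (u + v).1 = 0 := hw.2.1.eq_zero (F.wp_bij.1 _ hw.1 (by
    convert F.R_of_fr (F.L_Lh (Amb.hL hu)) (F.L_Lh (Amb.hL hv)) fun γ => congrArg Prod.fst (h γ)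
      using 1
    simp only [Prod.fst_add]; grind))
  have h2 : (u + v).2 ∈ F.R :=
    F.R_of_fr (F.L_Lh (Amb.aL hu)) (F.L_Lh (Amb.aL hv)) fun γ => congrArg Prod.snd (h γ)
  have h3 : V.df (u + v) = (u + v).2 + p.O (u + v).2 := by simp only [df, ah, h1]; simp
  have h4 := F.oneO_bij.1 _ h2 ((h3 ▸ hw.2.2.2.2).eq_zero (add_mem h2 (F.O_R h2)))
  simp only [Prod.fst_add, Prod.snd_add] at h1 h4
  ext <;> grind

lemma exists_amb {c : (ι → ZMod 2) → S × S} (h1 : ∀ γ, (c γ).1 ∈ p.Pf (V.ν ^ 2))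
    (h2 : ∀ γ, (c γ).2 ∈ p.Pf (V.ν ^ 7)) : ∃ u ∈ V.Amb F, ∀ γ, dat F γ u = c γ := by
  have k1 := fun γ => p.K_le_Kh (p.mem_K_of_mul (pow_ne_zero 2 V.ν_ne) (h1 γ).1)
  have k2 := fun γ => p.K_le_Kh (p.mem_K_of_mul (pow_ne_zero 7 V.ν_ne) (h2 γ).1)
  have d1 := F.den_sum fun γ => (h1 γ).1
  have d2 := F.den_sum fun γ => (h2 γ).1
  rw [map_pow] at d1 d2
  obtain ⟨z, hz, hs, hr⟩ := F.exists_z (F.sum_Lh k1)
  have e1 : p.φ V.ν ^ 2 * (z ^ 2 + z) ∈ F.R := by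
    convert add_mem (mul_mem (pow_mem (F.φ_R V.ν) 2) hr) d1 using 1; grind
  obtain ⟨α, hα, hd⟩ := exists_alpha (V := V) (L_pow e1) (L_pow d2)
  refine ⟨(z, α), ⟨hz, hs, e1, ?_, hd⟩, fun γ => Prod.ext ?_ ?_⟩
  · convert add_mem (mul_mem (pow_mem (F.φ_R V.ν) 7) hα) d2 using 1; grind
  · exact (F.fr_of_R hr γ).trans (by rw [F.co_sum γ k1, p.fr_small (h1 γ).2])
  · exact (F.fr_of_R hα γ).trans (by rw [F.co_sum γ k2, p.fr_small (h2 γ).2])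

lemma Amb.dat_mem {u : S × S} (h : u ∈ V.Amb F) (γ) :
    (dat F γ u).1 ∈ p.Pf (V.ν ^ 2) ∧ (dat F γ u).2 ∈ p.Pf (V.ν ^ 7) :=
  ⟨p.fr_Pf (pow_ne_zero 2 V.ν_ne) (F.co_den γ (by rw [map_pow]; exact h.2.2.1)),
    p.fr_Pf (pow_ne_zero 7 V.ν_ne) (F.co_den γ (by rw [map_pow]; exact h.2.2.2.1))⟩

variable (V) in
lemma exists_ell : ∃ l : S →+ S, (∀ u, l u ∈ p.Pf V.ν) ∧ ∀ ζ ∈ p.Pf V.ν, l (ζ ^ 2 + ζ) = ζ := by
  let _ := ZMod.algebra S 2
  let W := AddSubgroup.toZModSubmodule 2 (p.Pf V.ν)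
  let f : S →+ S := ⟨⟨fun z => z ^ 2 + z, by simp⟩, fun a b => by grind⟩
  obtain ⟨g, hg⟩ := ((f.toZModLinearMap 2).comp W.subtype).exists_leftInverse_of_injective
    (LinearMap.ker_eq_bot'.2 fun u hu => Subtype.ext
      (small_unique (w := 0) (by simpa [f] using hu) u.2.2 (by simp)))
  exact ⟨(W.subtype.comp g).toAddMonoidHom, fun u => (g u).2, fun u hu =>
    congrArg Subtype.val (LinearMap.congr_fun hg ⟨u, hu⟩)⟩

variable (V) in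
/-- A left inverse of the Artin-Schreier map on proper fractions. -/
noncomputable def ell : S →+ S := V.exists_ell.choose

lemma ell_mem (u : S) : V.ell u ∈ p.Pf V.ν := V.exists_ell.choose_spec.1 u

lemma ell_wp {ζ : S} (h : ζ ∈ p.Pf V.ν) : V.ell (ζ ^ 2 + ζ) = ζ := V.exists_ell.choose_spec.2 ζ h

variable (V) in
/-- The finite space of normalised data. -/
noncomputable def Vs : AddSubgroup (S × S) := (p.Pf (V.ν ^ 2) ⊓ V.ell.ker).prod (p.Pf (V.ν ^ 7))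

instance : Finite V.Vs := by
  have h1 : (p.Pf (V.ν ^ 2) : Set S).Finite := p.finite_Pf (pow_ne_zero 2 V.ν_ne)
  have h2 : (p.Pf (V.ν ^ 7) : Set S).Finite := p.finite_Pf (pow_ne_zero 7 V.ν_ne)
  exact (h1.prod h2).subset fun u hu => ⟨hu.1.1, hu.2⟩

lemma ell_dat (hD : F.Dv (V.ν ^ 9)) {ζ : S} (h : p.φ V.ν * ζ ∈ F.R) (hs : F.Sm ζ) (γ) :
    V.ell (p.fr (F.co γ (ζ ^ 2 + ζ))) = F.co γ ζ := by
  have hζ := F.L_Lh (F.L_of_den V.ν_ne h)
  have h1 := F.mul_congr (hD.mono ⟨V.ν ^ 7, by ring⟩) hζ hζ h h γ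
  rw [p.fr_congr (v := F.co γ ζ ^ 2 + F.co γ ζ) (by convert h1 using 1; rw [map_add, sq ζ]; grind),
    p.fr_small (nadd_lt (by rw [sq]; exact nmul_lt (hs γ) (hs γ).le) (hs γ)),
    ell_wp ⟨F.co_den γ h, hs γ⟩]

lemma normalise (hD : F.Dv (V.ν ^ 9)) {u : S × S} (hu : u ∈ V.Amb F) :
    ∃ v ∈ V.Amb F, (∀ γ, dat F γ v ∈ V.Vs) ∧ v.1 + u.1 ∈ F.L ∧ V.ah v = V.ah u := by
  let ζ := ∑ γ, V.ell (dat F γ u).1 * F.e γ
  have k1 := fun γ => p.K_le_Kh (p.mem_K_of_mul V.ν_ne (V.ell_mem (dat F γ u).1).1)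
  have h1 : p.φ V.ν * ζ ∈ F.R := F.den_sum fun γ => (V.ell_mem _).1
  have h2 : F.Sm ζ := fun γ => by rw [F.co_sum γ k1]; exact (V.ell_mem _).2
  have hζ := F.L_of_den V.ν_ne h1
  have h0 : V.ah (ζ, ζ * V.β) = 0 := CharTwo.add_self_eq_zero _
  have h3 : (ζ, ζ * V.β) ∈ V.Amb F := ⟨F.L_Lh hζ, h2, by
    convert add_mem (pow_mem h1 2) (mul_mem (F.φ_R V.ν) h1) using 1; ring, by
    convert mul_mem (pow_mem (F.φ_R V.ν) 5) (mul_mem h1 (F.A_le_R V.νβ)) using 1; ring, by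
    simp [df, h0, Fam.Sm]⟩
  have h4 := add_mem hu h3
  refine ⟨_, h4, fun γ => ⟨⟨(Amb.dat_mem h4 γ).1, ?_⟩, (Amb.dat_mem h4 γ).2⟩, ?_, ?_⟩
  · have := ell_dat hD h1 h2 γ
    rw [F.co_sum γ k1] at this
    change V.ell _ = 0
    rw [map_add, Prod.fst_add, map_add, ← this]
    exact CharTwo.add_self_eq_zero _
  · rwa [show (u + (ζ, ζ * V.β)).1 + u.1 = ζ by simp only [Prod.fst_add]; grind]
  · rw [ah_add, h0, add_zero]

lemma fst_eq (hD : F.Dv (V.ν ^ 9)) {u : S × S} (hu : u ∈ V.Amb F)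
    (h : ∀ γ, dat F γ u ∈ V.Vs) (hL : u.1 ∈ F.L) : u.1 = 0 := by
  have h1 : p.φ V.ν * u.1 ∈ F.R :=
    F.R_of_quad (mul_mem (F.R_L (F.φ_R _)) hL) (F.φ_R V.ν) hu.2.2.1 (by ring)
  exact F.ext_co hu.1 (zero_mem _) fun γ => by
    rw [← ell_dat hD h1 hu.2.1 γ, map_zero]; exact (h γ).1.2

lemma exists_lf (c : (ι → ZMod 2) → V.Vs) : ∃ u ∈ V.Amb F, ∀ γ, dat F γ u = c γ :=
  exists_amb (fun γ => (c γ).2.1.1) fun γ => (c γ).2.2

variable (V F) in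
/-- The element of the ambient space with prescribed data. -/
noncomputable def lf : ((ι → ZMod 2) → V.Vs) →+ S × S :=
  AddMonoidHom.mk' (fun c => (exists_lf (F := F) c).choose) fun c d =>
    Amb.ext (exists_lf _).choose_spec.1
      (add_mem (exists_lf _).choose_spec.1 (exists_lf _).choose_spec.1) fun γ => by
        rw [map_add, (exists_lf _).choose_spec.2, (exists_lf _).choose_spec.2,
          (exists_lf _).choose_spec.2]; rfl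

lemma lf_mem (c : (ι → ZMod 2) → V.Vs) : V.lf F c ∈ V.Amb F := (exists_lf c).choose_spec.1

lemma dat_lf (c : (ι → ZMod 2) → V.Vs) (γ) : dat F γ (V.lf F c) = c γ :=
  (exists_lf c).choose_spec.2 γ

lemma eq_lf {u : S × S} (hu : u ∈ V.Amb F) {c : (ι → ZMod 2) → V.Vs} (h : ∀ γ, dat F γ u = c γ) :
    u = V.lf F c := Amb.ext hu (lf_mem c) fun γ => by rw [h, dat_lf]

lemma σ_lf (c : (ι → ZMod 2) → V.Vs) (δ) : σ2 F δ (V.lf F c) = V.lf F fun γ => c (γ + δ) :=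
  eq_lf (Amb.σ (lf_mem c) δ) fun γ => by rw [dat_σ (lf_mem c), dat_lf]

variable (V) in
/-- The rational pairing. -/
noncomputable def Ψ : S × S →+ S × S →+ S :=
  AddMonoidHom.mk' (fun u => AddMonoidHom.mk' (fun v => (v.1 ^ 2 + v.1) * u.2 +
    (u.1 ^ 2 + u.1) * v.2 + (u.1 ^ 2 + u.1) * ((v.1 ^ 2 + v.1) * V.β))
    fun v w => by simp only [Prod.fst_add, Prod.snd_add]; grind) fun u w => by
      ext1 v
      simp only [Prod.fst_add, Prod.snd_add, AddMonoidHom.mk'_apply, AddMonoidHom.add_apply]; grind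

lemma Ψ_apply (u v : S × S) : V.Ψ u v = (v.1 ^ 2 + v.1) * u.2 +
    (u.1 ^ 2 + u.1) * v.2 + (u.1 ^ 2 + u.1) * ((v.1 ^ 2 + v.1) * V.β) := rfl

variable (V) in
/-- The primitive of the pairing. -/
noncomputable def Φ (u v : S × S) : S := v.1 ^ 2 * V.ah u + u.1 ^ 2 * V.ah v + u.1 ^ 2 * v.1 ^ 2 * V.β

lemma Ψ_eq (u v : S × S) :
    V.Ψ u v = V.Φ u v + p.O (V.Φ u v) + v.1 * V.df u + u.1 * V.df v := by
  simp only [Ψ_apply, Φ, df, p.O_add, p.O_sq_mul, ← mul_pow, V.O_β]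
  simp only [ah]
  grind

lemma Ψ_den {u v : S × S} (hu : u ∈ V.Amb F) (hv : v ∈ V.Amb F) : p.φ V.ν ^ 9 * V.Ψ u v ∈ F.R := by
  convert add_mem (add_mem (mul_mem hv.2.2.1 hu.2.2.2.1) (mul_mem hu.2.2.1 hv.2.2.2.1))
    (mul_mem (pow_mem (F.φ_R V.ν) 4) (mul_mem (mul_mem hu.2.2.1 hv.2.2.1) (F.A_le_R V.νβ))) using 1
  rw [Ψ_apply]; ring

lemma Ψ_local (hD : F.Dv (V.ν ^ 9)) {u v : S × S} (hu : u ∈ V.Amb F) (hv : v ∈ V.Amb F) (γ) :
    p.res (F.co γ (V.Ψ u v)) = p.res (F.co γ (v.1 ^ 2 + v.1) * F.co γ u.2 +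
      F.co γ (u.1 ^ 2 + u.1) * F.co γ v.2 +
      F.co γ (u.1 ^ 2 + u.1) * (F.co γ (v.1 ^ 2 + v.1) * V.β)) := by
  have h1 := F.mul_congr (d := V.ν ^ 2) (d' := V.ν ^ 7) (hD.mono ⟨1, by ring⟩) (F.L_Lh (Amb.hL hv))
    (F.L_Lh (Amb.aL hu)) (by rw [map_pow]; exact hv.2.2.1) (by rw [map_pow]; exact hu.2.2.2.1) γ
  have h2 := F.mul_congr (d := V.ν ^ 2) (d' := V.ν ^ 7) (hD.mono ⟨1, by ring⟩) (F.L_Lh (Amb.hL hu))
    (F.L_Lh (Amb.aL hv)) (by rw [map_pow]; exact hu.2.2.1) (by rw [map_pow]; exact hv.2.2.2.1) γ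
  have h3 := F.mul_congr (d := V.ν ^ 2) (d' := V.ν ^ 3) (hD.mono ⟨V.ν ^ 4, by ring⟩)
    (F.L_Lh (Amb.hL hu)) (F.L_Lh (mul_mem (Amb.hL hv) β_L)) (by rw [map_pow]; exact hu.2.2.1) (by
      rw [map_pow]; convert mul_mem hv.2.2.1 (F.A_le_R V.νβ) using 1; ring) γ
  rw [mul_comm _ V.β, F.co_mul_left γ (p.K_le_Kh V.β_K)] at h3
  refine p.res_congr ?_
  convert add_mem (add_mem h1 h2) h3 using 1
  simp only [Ψ_apply, mul_comm V.β]
  rw [map_add, map_add]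
  ring

/-- If the data of `u` at `γ` vanish, the local pairing only depends on the data of `v`. -/
lemma Ψ_congr (hD : F.Dv (V.ν ^ 9)) {u v w : S × S} (hu : u ∈ V.Amb F) (hv : v ∈ V.Amb F)
    (hw : w ∈ V.Amb F) {γ} (h0 : dat F γ u = 0) (hd : V.df u = 0) (h : dat F γ v = dat F γ w) :
    p.res (F.co γ (V.Ψ u v)) = p.res (F.co γ (V.Ψ u w)) := by
  have hK : ∀ {x}, x ∈ F.L → F.co γ x ∈ p.Kh := fun hx => F.co_Kh γ (F.L_Lh hx)
  have a1 := p.mem_A_of_fr (hK (Amb.hL hu)) (zero_mem _) ((congrArg Prod.fst h0).trans (by simp))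
  have a2 := p.mem_A_of_fr (hK (Amb.aL hu)) (zero_mem _) ((congrArg Prod.snd h0).trans (by simp))
  have a3 := p.mem_A_of_fr (hK (Amb.hL hv)) (hK (Amb.hL hw)) (congrArg Prod.fst h)
  have a4 := p.mem_A_of_fr (hK (Amb.aL hv)) (hK (Amb.aL hw)) (congrArg Prod.snd h)
  rw [add_zero] at a1 a2
  have b1 := F.O_congr (d := V.ν ^ 7) (hD.mono ⟨V.ν ^ 2, by ring⟩) (F.L_Lh (Amb.aL hu))
    (by rw [map_pow]; exact hu.2.2.2.1) γ
  have b2 := F.O_congr (d := V.ν ^ 3) (hD.mono ⟨V.ν ^ 6, by ring⟩)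
    (F.L_Lh (mul_mem (Amb.hL hu) β_L)) (by
      rw [map_pow]; convert mul_mem hu.2.2.1 (F.A_le_R V.νβ) using 1; ring) γ
  have b3 := congrArg (F.co γ) ((V.df_eq u).symm.trans hd)
  rw [map_add, map_add, map_zero] at b3
  rw [mul_comm _ V.β, F.co_mul_left γ (p.K_le_Kh V.β_K)] at b2
  have a5 : V.β * F.co γ (u.1 ^ 2 + u.1) ∈ p.A := p.stab_A.mem_of_O le_rfl V.sep
    (by rw [← mul_assoc]; exact mul_mem V.hβ a1) (by
      convert add_mem (add_mem b1 b2) (add_mem a2 (p.stab_A _ a2).2) using 1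
      rw [mul_comm V.β (u.1 ^ 2 + u.1)]
      grind)
  rw [Ψ_local hD hu hv, Ψ_local hD hu hw]
  refine p.res_congr ?_
  convert add_mem (add_mem (mul_mem a3 a2) (mul_mem a1 a4)) (mul_mem a5 a3) using 1
  ring

lemma exists_coprime_part {d ν : k[X]} (hd : d ≠ 0) :
    ∃ (d₀ : k[X]) (J : ℕ), IsCoprime d₀ ν ∧ d ∣ d₀ * ν ^ J := by
  classical
  induction hn : d.natDegree using Nat.strong_induction_on generalizing d with
  | _ n ih =>
    by_cases h : IsCoprime d ν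
    · exact ⟨d, 0, h, by simp⟩
    rw [← EuclideanDomain.gcd_isUnit_iff] at h
    obtain ⟨d', hd'⟩ := EuclideanDomain.gcd_dvd_left d ν
    have h1 : EuclideanDomain.gcd d ν ≠ 0 := left_ne_zero_of_mul (hd' ▸ hd)
    have h2 : d' ≠ 0 := right_ne_zero_of_mul (hd' ▸ hd)
    have h3 := natDegree_pos_iff_degree_pos.2 (degree_pos_of_ne_zero_of_nonunit h1 h)
    have h4 := congrArg natDegree hd'
    rw [natDegree_mul h1 h2] at h4
    obtain ⟨d₀, J, h5, h6⟩ := ih d'.natDegree (by omega) h2 rfl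
    refine ⟨d₀, J + 1, h5, ?_⟩
    rw [hd', pow_succ, ← mul_assoc, mul_comm]
    exact mul_dvd_mul h6 (EuclideanDomain.gcd_dvd_right d ν)

/-- The local residue of `(1 + O) Φ₀` vanishes for rational `Φ₀`. -/
lemma res_oneO (hD : F.Dv (V.ν ^ 9)) {x : S} (hx : x ∈ F.L)
    (h : p.φ V.ν ^ 9 * (x + p.O x) ∈ F.R) (γ) : p.res (F.co γ (x + p.O x)) = 0 := by
  obtain ⟨d, hd, hdx⟩ := F.exists_den hx
  obtain ⟨d₀, J, hc, c, hdc⟩ := exists_coprime_part (ν := V.ν) hd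
  have tn := F.φ_R V.ν
  have td := F.φ_R d₀
  set n := p.φ V.ν
  have mono : ∀ i j, i ≤ j → p.φ d₀ * n ^ i * x ∈ F.R → p.φ d₀ * n ^ j * x ∈ F.R := fun i j hij h => by
    obtain ⟨m, rfl⟩ := Nat.exists_eq_add_of_le hij
    convert mul_mem (pow_mem tn m) h using 1; ring
  have half : ∀ j, p.φ d₀ * n ^ (2 * j) * x ∈ F.R → p.φ d₀ * n ^ j * p.O x ∈ F.R := fun j h => by
    rw [← p.O_sq_mul]
    convert F.O_R (mul_mem td h) using 2; ring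
  have key : ∀ J, p.φ d₀ * n ^ J * x ∈ F.R → p.φ d₀ * n ^ 9 * x ∈ F.R := fun J => by
    induction J using Nat.strong_induction_on with
    | _ J ih =>
      intro hJ
      by_cases h9 : J ≤ 9
      · exact mono _ _ h9 hJ
      refine ih (J - 1) (by omega) ?_
      obtain ⟨m, rfl⟩ : ∃ m, J = m + 10 := ⟨J - 10, by omega⟩
      convert add_mem (half (m + 9) (mono _ _ (by omega) hJ))
        (mul_mem (mul_mem td (pow_mem tn m)) h) using 1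
      rw [show m + 10 - 1 = m + 9 from rfl]
      grind
  have h1 := half 9 (mono _ _ (by norm_num) (key J (by
    have := congrArg p.φ hdc
    rw [map_mul, map_pow, map_mul] at this
    rw [this, mul_comm (p.φ d), mul_assoc]; exact mul_mem (F.φ_R c) hdx)))
  obtain ⟨a, b, hab⟩ := hc.pow_right (n := 9)
  have hab' := congrArg p.φ hab
  simp only [map_add, map_mul, map_pow, map_one] at hab'
  obtain ⟨r, hr, he⟩ := F.e_mul_e hD γ γ
  rw [if_pos rfl, map_pow] at he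
  have te := F.e_R γ
  have ta := F.φ_R a
  have tb := F.φ_R b
  have hxL := F.L_Lh hx
  have e1 : (x + p.O x) * F.e γ = ((p.φ a * p.φ d₀ * F.e γ) ^ 2 * x +
      p.O ((p.φ a * p.φ d₀ * F.e γ) ^ 2 * x)) + (n ^ 9 * (x + p.O x) *
      (r + p.φ b ^ 2 * n ^ 9 * F.e γ ^ 2) + p.φ d₀ * n ^ 9 * p.O x * (p.φ a *
      (r + p.φ b * F.e γ ^ 2))) := by
    rw [p.O_sq_mul]
    grind
  rw [F.co_apply, e1, map_add, map_add, map_add, map_add, F.res_Tr_O (mul_mem (pow_mem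
    (F.R_Lh (mul_mem (mul_mem ta td) te)) 2) hxL), CharTwo.add_self_eq_zero, zero_add]
  exact F.res_Tr_R (add_mem (mul_mem h (add_mem hr (mul_mem (mul_mem (pow_mem tb 2) (pow_mem tn 9))
    (pow_mem te 2)))) (mul_mem h1 (mul_mem ta (add_mem hr (mul_mem tb (pow_mem te 2))))))

end Lv

end Pool.Agent.Lib.MP_788af2_nt.G2
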