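import Pool.Agent.Lib.MP_788af2_nt.G2.Term
import Pool.Agent.Lib.MP_788af2_nt.G2.Adv2

/-!
Construction of the adversarial family and the bound on a cube of twists.
-/

set_option linter.unusedSectionVars false

namespace Pool.Agent.Lib.MP_788af2_nt.G2

open Polynomial Finset

lemma exists_inj {I : Type} [Fintype I] (P : I → ℕ → Prop) (h : ∀ i n₀, ∃ n, n₀ ≤ n ∧ P i n) :
    ∃ n : I → ℕ, Function.Injective n ∧ ∀ i, P i (n i) := by
  classical
  suffices ∀ s : Finset I, ∃ n : I → ℕ, Set.InjOn n s ∧ ∀ i ∈ s, P i (n i) by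
    simpa using this univ
  intro s
  induction s using Finset.induction_on with
  | empty => exact ⟨0, by simp, by simp⟩
  | insert i s hi ih =>
    obtain ⟨n, h1, h2⟩ := ih
    obtain ⟨m, hm, h3⟩ := h i (s.sup n + 1)
    have h4 : ∀ j ∈ s, Function.update n i m j = n j := fun j hj =>
      Function.update_of_ne (by rintro rfl; exact hi hj) _ _
    refine ⟨Function.update n i m, ?_, by
      rw [forall_mem_insert, Function.update_self]
      exact ⟨h3, fun j hj => h4 j hj ▸ h2 j hj⟩⟩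
    rw [coe_insert, Set.injOn_insert (by simpa using hi)]
    refine ⟨h1.congr fun j hj => (h4 j hj).symm, ?_⟩
    rintro ⟨j, hj, e⟩
    rw [Function.update_self, h4 j hj] at e
    have := le_sup (f := n) hj
    omega

lemma exists_d {Γ : Type} [AddCommGroup Γ] [Fintype Γ] (l : ℕ → Γ →+ ZMod 2) (j : ℕ)
    (h : ∀ i < j, ∃ e, l i e = 1 ∧ ∀ i' < i, l i' e = 0) :
    ∃ d : Γ → ZMod 2, ∀ γ, ∑ δ, d δ * ∏ i ∈ range j, l i (γ + δ) = 1 := by
  classical
  induction j with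
  | zero => exact ⟨Pi.single 0 1, fun γ => by simp⟩
  | succ j ih =>
    obtain ⟨d, hd⟩ := ih fun i hi => h i (by omega)
    obtain ⟨e, h1, h2⟩ := h j (by omega)
    refine ⟨fun δ => d δ + d (δ - e), fun γ => ?_⟩
    simp only [add_mul, sum_add_distrib]
    rw [← Equiv.sum_comp (Equiv.addRight e) fun δ => d (δ - e) * _, ← sum_add_distrib, ← hd γ]
    refine sum_congr rfl fun δ _ => ?_
    rw [Equiv.coe_addRight, add_sub_cancel_right, prod_range_succ, prod_range_succ, ← add_assoc,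
      map_add _ _ e, h1, prod_congr (f := fun i => l i (γ + δ + e)) rfl fun i hi => by
        rw [map_add _ _ e, h2 i (mem_range.1 hi), add_zero]]
    grind

lemma exists_not_pair {V : Type} [AddCommGroup V] {K : AddSubgroup V} (h : 4 ≤ Nat.card K) (u : V) :
    ∃ v ∈ K, v ≠ 0 ∧ v ≠ u := by
  by_contra! hc
  have : Nat.card K ≤ Nat.card ({0, u} : Set V) := Nat.card_mono (Set.toFinite _) fun v hv => by
    by_cases h0 : v = 0
    exacts [Or.inl h0, Or.inr (hc v hv h0)]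
  have h5 : Nat.card ({0, u} : Set V) ≤ 2 := (Set.ncard_insert_le _ _).trans (by simp)
  omega

variable {k : Type} [Field k] [Fintype k] [CharP k 2] {S : Type} [NormedField S]
  [IsUltrametricDist S] [Algebra (RatFunc k) S] [IsSepClosure (RatFunc k) S] [CharP S 2]
  [DecidableEq S]

namespace Pl

variable (p : Pl k S)

/-- A chosen Artin-Schreier root. -/
noncomputable def rt (f : k[X]) : S := (@exists_AS S _ _ p.sepClosed (p.φ f)).choose

lemma rt_spec (f : k[X]) : p.rt f ^ 2 + p.rt f = p.φ f :=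
  (@exists_AS S _ _ p.sepClosed (p.φ f)).choose_spec

lemma φ_c2 (s : ZMod 2) : p.φ (C (c2 s)) = c2 s := by rcases z2 s with rfl | rfl <;> simp

lemma wp_sum {ι : Type} [Fintype ι] (a : ι → ZMod 2) (θ : ι → S) :
    (∑ i, c2 (a i) * θ i) ^ 2 + ∑ i, c2 (a i) * θ i = ∑ i, c2 (a i) * (θ i ^ 2 + θ i) := by
  simp only [CharTwo.sum_sq, mul_pow, c2_sq, mul_add, sum_add_distrib]

lemma exists_fam' {ι : Type} [Fintype ι] {τ g : k[X]} {m : ℕ} (hτ : τ.natDegree = 2 * m + 1)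
    (hg : g ≠ 0) {n : ι → ℕ} (hn : Function.Injective n) {κ : ι → k} (hκ : ∀ i, κ i ≠ 0) :
    ∃ F : Fam p ι, F.θ = fun i => p.rt (τ * (g * C (κ i) * X ^ n i) ^ 2) := by
  refine exists_fam p _ (fun i => p.rt_spec _ ▸ p.φ_mem _) fun a ha => ?_
  by_contra h0
  obtain ⟨i, hi⟩ := Function.ne_iff.1 h0
  have hs : ∑ j, C (c2 (a j)) * (C (κ j) * X ^ n j) ≠ 0 := fun h => by
    have := congrArg (coeff · (n i)) h
    have h1 : a i = 1 := (z2 _).resolve_left hi
    simp only [finsetSum_coeff, coeff_C_mul, coeff_X_pow] at this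
    rw [sum_eq_single i (fun j _ hj => by rw [if_neg (hn.ne hj.symm), mul_zero, mul_zero])
      (by simp)] at this
    simp [h1, hκ] at this
  have e := wp_sum a fun i => p.rt (τ * (g * C (κ i) * X ^ n i) ^ 2)
  have hτ0 : τ ≠ 0 := by rintro rfl; simp at hτ
  have e2 : ∑ j, c2 (a j) * p.φ (τ * (g * C (κ j) * X ^ n j) ^ 2) =
      p.φ (τ * (g * ∑ j, C (c2 (a j)) * (C (κ j) * X ^ n j)) ^ 2) := by
    simp only [map_mul, map_pow, map_sum, φ_c2, mul_pow, CharTwo.sum_sq, c2_sq, mul_sum]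
    exact sum_congr rfl fun j _ => by ring
  simp only [rt_spec, e2] at e
  have h1 := p.norm_φ (mul_ne_zero hτ0 (pow_ne_zero 2 (mul_ne_zero hg hs)))
  rw [← e, natDegree_mul hτ0 (pow_ne_zero 2 (mul_ne_zero hg hs)), natDegree_pow, hτ] at h1
  generalize ∑ i, c2 (a i) * p.rt (τ * (g * C (κ i) * X ^ n i) ^ 2) = z at *
  have h2 : 1 < ‖z‖ := lt_of_not_ge fun h => (one_lt_pow₀ p.t_gt (by omega)).not_ge
    (h1 ▸ nadd_le (by rw [norm_pow]; exact pow_le_one₀ (norm_nonneg _) h) h)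
  obtain ⟨-, r, -, hr, -⟩ := p.approx' ha (norm_pos_iff.1 (one_pos.trans h2))
  rw [nadd_eq (by rw [norm_pow]; nlinarith), norm_pow, hr, ← zpow_natCast, ← zpow_mul,
    ← zpow_natCast, zpow_right_inj₀ p.t_pos p.t_gt.ne'] at h1
  omega

end Pl

/-- The dot product as a family of characters. -/
def dp (ι : Type) [Fintype ι] : (ι → ZMod 2) →+ (ι → ZMod 2) → ZMod 2 :=
  AddMonoidHom.mk' (fun x γ => x ⬝ᵥ γ) fun x y => funext fun γ => add_dotProduct x y γ

open Classical in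
theorem core (p : Pl k S) {J : ℕ} (V : Fin (J + 1) → Lv p) (hν : ∀ j, (V j).ν = (V 0).ν) {ε : ℝ}
    (hε : 0 < ε) : ∃ (ι : Type) (_ : Fintype ι) (_ : DecidableEq ι) (F : Fam p ι)
      (hD : ∀ j, F.Dv ((V j).ν ^ 9)), ∀ (a₀ : S) (ha : ∀ j, p.φ (V j).ν * a₀ ∈ p.A),
      (∀ j, F.Deep (th (V j).B) a₀) →
      (#{x : ι → ZMod 2 | ∃ (j : Fin (J + 1)) (P P' : Lv.M F (ha j)),
        Lv.Eig (ha j) (dp ι x) P ∧ Lv.Eig (ha j) (dp ι x) P' ∧
          Lv.Mixed F (Lv.cM (hD j) (ha j) P) ∧ Lv.cM (hD j) (ha j) P' ≠ 0 ∧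
          Lv.cM (hD j) (ha j) P' ≠ Lv.cM (hD j) (ha j) P} : ℝ) ≤ ε * Fintype.card (ι → ZMod 2) := by
  let _ : ∀ j, Fintype (V j).Vs := fun j => Fintype.ofFinite _
  let _ : ∀ j, Module (ZMod 2) (V j).Vs := fun j => AddCommGroup.zmodModule fun x => by
    rw [two_nsmul, add_eq_zero_iff_eq_neg, Lv.Vs_neg]
  have hc : (0 : ℝ) < Fintype.card (Σ j, (V j).Vs) := by
    exact Nat.cast_pos.2 (Fintype.card_pos_iff.2 ⟨⟨0, 0⟩⟩)
  choose N hN using fun j => adv (V j).Vs (div_pos hε hc)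
  let N₀ := univ.sup N
  have hN₀ : ∀ j, N j ≤ N₀ := fun j => le_sup (mem_univ j)
  let ι' := Fin N₀ × Fin N₀
  have hg : (V 0).ν ^ 5 ≠ 0 := pow_ne_zero _ (V 0).ν_ne
  have hDv : ∀ {ι : Type} [Fintype ι] [DecidableEq ι] {F : Fam p ι} {n : ι → ℕ} {κ : ι → k},
      (F.θ = fun i => p.rt ((V 0).τ * ((V 0).ν ^ 5 * C (κ i) * X ^ n i) ^ 2)) →
      ∀ j, F.Dv ((V j).ν ^ 9) := fun {_ _ _ F n κ} h j i =>
    ⟨_, p.φ_mem ((V 0).τ * (V 0).ν * (C (κ i) * X ^ n i) ^ 2), by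
      rw [h, p.rt_spec, hν j, ← map_mul]; congr 1; ring⟩
  obtain ⟨F', hF'⟩ := p.exists_fam' (V 0).τ_deg hg (n := fun i : ι' => Fintype.equivFin ι' i)
    (Fin.val_injective.comp (Equiv.injective _)) (κ := fun _ => 1) fun _ => one_ne_zero
  let I := Σ j, (V j).Vs × (V j).Vs × ((ι' → ZMod 2) → ZMod 2)
  let ψ : I → S := fun i => p.O (p.φ (V 0).τ * (V i.1).ΦN F' i.2.1 i.2.2.1 i.2.2.2)
  obtain ⟨n, hn, hn'⟩ := exists_inj (fun (i : I) n => Fintype.card ι' ≤ n ∧ ∃ κ : k, κ ≠ 0 ∧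
    (ψ i ∉ p.K → p.res (p.φ ((V 0).ν ^ 5 * C κ * X ^ n) * ψ i) ≠ 0)) fun i n₀ => by
      by_cases h : ψ i ∈ p.K
      · exact ⟨_, le_max_left _ _, le_max_right _ _, 1, one_ne_zero, fun h' => absurd h h'⟩
      · obtain ⟨n, c, h1, h2, h3⟩ := p.exists_monomial (p.O_Kh (mul_mem (p.φ_Kh _)
          (Lv.ΦN_Kh _ _ _))) h hg (max n₀ (Fintype.card ι'))
        exact ⟨n, le_of_max_le_left h1, le_of_max_le_right h1, c, h2, fun _ => h3⟩
  choose hn1 κ hκ hκ' using hn'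
  obtain ⟨F, hF⟩ := p.exists_fam' (V 0).τ_deg hg
    (n := Sum.elim n fun i : ι' => Fintype.equivFin ι' i) (hn.sumElim
      (Fin.val_injective.comp (Equiv.injective _)) fun i i' =>
        ((Fintype.equivFin ι' i').2.trans_le (hn1 i)).ne') (κ := Sum.elim κ fun _ => 1)
      (by rintro (i | i) <;> simp [hκ])
  have hθ : ∀ i, F.θ (.inr i) = F'.θ i := fun i => by rw [hF, hF']; rfl
  refine ⟨I ⊕ ι', inferInstance, inferInstance, F, hDv hF, fun a₀ ha hd₀ => ?_⟩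
  let H : ℕ → AddSubgroup (I ⊕ ι' → ZMod 2) := fun l =>
    AddSubgroup.pi {i | ∀ m : ι', i = .inr m → (m.1 : ℕ) ≠ l} fun _ => ⊥
  have key : ∀ i : Σ j, (V j).Vs, (#{x : I ⊕ ι' → ZMod 2 | Lv.Mixed F i.2 ∧
      ∃ P P' : Lv.M F (ha i.1), Lv.Eig (ha i.1) (dp _ x) P ∧ Lv.Eig (ha i.1) (dp _ x) P' ∧
        Lv.cM (hDv hF i.1) (ha i.1) P = i.2 ∧ Lv.cM (hDv hF i.1) (ha i.1) P' ≠ 0 ∧
        Lv.cM (hDv hF i.1) (ha i.1) P' ≠ i.2} : ℝ) ≤
      ε / Fintype.card (Σ j, (V j).Vs) * Fintype.card (I ⊕ ι' → ZMod 2) := by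
    rintro ⟨j, u⟩
    by_cases hu : Lv.Mixed F u
    swap
    · simp only [hu, false_and, filter_false, card_empty, Nat.cast_zero]; positivity
    simp only [hu, true_and]
    convert hN j _ _ _ (dp _) H ⊤ (Lv.σM (ha j)) 0 (Lv.cM (hDv hF j) (ha j)) ((V j).Gp F) u
      (fun c => c ≠ 0 ∧ c.1.1 ≠ u.1.1) (fun x => dotProduct_zero x) (fun P => ?_) (Lv.M_two _)
      (Lv.ker_cM _ _ (hd₀ j)) (Lv.isotropy _ _) (by rintro rfl; exact hu.1 rfl) (fun K hK => ?_)
      (fun l hl => ?_) fun v hv j' hj h hh => ?_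
    · rfl
    · rfl
    · rcases pt_cases P.1 with h0 | ⟨x, y, h1⟩
      · rw [show P = 0 from Subtype.ext h0, map_zero]
      refine Subtype.ext ((h1.σP (ha j) 0).ext ?_)
      rwa [F.σ_zero (F.L_Lh (P.2.1 x y h1).1), F.σ_zero (F.L_Lh (P.2.1 x y h1).2)]
    · obtain ⟨v, hv, h1, -⟩ := exists_not_pair hK 0
      obtain ⟨w, hw, h2, h3⟩ := exists_not_pair hK v
      by_contra! hc
      have h4 := hc _ (add_mem hw hv) (by rwa [Ne, add_eq_zero_iff_eq_neg, Lv.Vs_neg])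
      rw [AddSubgroup.coe_add, Prod.fst_add, hc v hv h1, hc w hw h2, CharTwo.add_self_eq_zero] at h4
      exact hu.1 h4.symm
    · refine (hN₀ j).trans ((Nat.card_fin N₀).ge.trans (Nat.card_le_card_of_injective
        (fun m => ⟨Pi.single (.inr (⟨l, hl.trans_le (hN₀ j)⟩, m)) 1, fun i hi =>
          Pi.single_eq_of_ne (fun h => hi _ h rfl) _⟩) fun m m' e => ?_))
      by_contra hm
      have := congrFun (congrArg Subtype.val e) (.inr (⟨l, hl.trans_le (hN₀ j)⟩, m))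
      simp only [Pi.single_eq_same] at this
      rw [Pi.single_eq_of_ne fun h => hm (congrArg Prod.snd (Sum.inr.inj h))] at this
      exact one_ne_zero this
    · obtain ⟨d, hd⟩ := exists_d (fun l => AddMonoidHom.mk' (fun δ => (h l ∘ .inr) ⬝ᵥ δ)
        (dotProduct_add _)) j' fun l hl => by
          obtain ⟨i, hi⟩ := Function.ne_iff.1 (hh l hl).2
          have := mt ((hh l hl).1 i) hi
          simp only [Set.mem_ofPred_eq, not_forall, not_not] at this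
          obtain ⟨m, rfl, hm⟩ := this
          refine ⟨Pi.single m 1, by simpa using (z2 _).resolve_left hi, fun l' hl' => ?_⟩
          simpa using (hh l' (hl'.trans hl)).1 (.inr m) fun m' e => by
            obtain rfl := Sum.inr.inj e; omega
      have hK := Lv.not_K (hDv hF' j) (show Lv.Mixed F' u from ⟨hu.1, by rw [Lv.lf_res hθ]; exact hu.2⟩)
        hv.1 hv.2 (w := fun δ => ∏ l ∈ range j', (h l ∘ .inr) ⬝ᵥ δ) (d := d) hd
      have hτ : (V j).τ = (V 0).τ := by rw [Lv.τ, hν j, Lv.τ]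
      let i : I := ⟨j, u, v, fun δ => ∏ l ∈ range j', (h l ∘ .inr) ⬝ᵥ δ⟩
      refine ⟨Pi.single (.inl i) 1, trivial, ?_⟩
      have := hκ' i (by rw [hτ] at hK; exact hK)
      rw [← p.O_sq_mul, p.res_O (mul_mem (pow_mem (p.φ_Kh _) 2) (mul_mem (p.φ_Kh _)
        (Lv.ΦN_Kh _ _ _))), ← mul_assoc, ← map_pow, ← map_mul, mul_comm _ (V 0).τ, ← p.rt_spec,
        show p.rt _ = F.θ (.inl i) by rw [hF]; rfl, ← Lv.T_formula hθ] at this
      convert this using 4 with γ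
      · refine prod_congr rfl fun l hl => ?_
        have h0 : ∀ i, h l (.inl i) = 0 := fun i => (hh l (mem_range.1 hl)).1 _ (by simp)
        simp [dp, dotProduct, h0]
      · simp [dp]
  refine le_trans ?_ ((sum_le_sum (s := univ) fun i _ => key i).trans_eq (by
    rw [sum_const, card_univ, nsmul_eq_mul]; field_simp))
  norm_cast
  refine (card_le_card fun x hx => ?_).trans card_biUnion_le
  obtain ⟨j, P, P', h1, h2, h3, h4, h5⟩ := (mem_filter.1 hx).2
  exact mem_biUnion.2 ⟨⟨j, _⟩, mem_univ _, mem_filter.2 ⟨mem_univ _, h3, P, P', h1, h2, rfl, h4, h5⟩⟩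

end Pool.Agent.Lib.MP_788af2_nt.G2
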