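import Pool.Agent.Lib.MP_788af2_nt.G2.Fam

/-!
Ordinary curves `y ^ 2 + x y = x ^ 3 + a x ^ 2 + B` in characteristic two: group law, big points.
-/

set_option linter.unusedSectionVars false

namespace Pool.Agent.Lib.MP_788af2_nt.G2

open WeierstrassCurve WeierstrassCurve.Affine

/-- The curve `y ^ 2 + x y = x ^ 3 + a x ^ 2 + B`. -/
def wc {F : Type} [Field F] (a B : F) : Affine F := ⟨1, a, 0, 0, B⟩

section Alg

variable {F : Type} [Field F] [CharP F 2] [DecidableEq F] {a B : F}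

/-- The equation of the curve. -/
def On (a B x y : F) : Prop := y ^ 2 + x * y = x ^ 3 + a * x ^ 2 + B

/-- The point `P` has coordinates `x, y`. -/
def At (P : (wc a B).Point) (x y : F) : Prop := ∃ h, P = .some x y h

lemma wc_eq {x y : F} : (wc a B).Equation x y ↔ On a B x y := by
  rw [equation_iff, On]; simp [wc, mul_comm]

lemma wc_negY (x y : F) : (wc a B).negY x y = y + x := by simp [negY, wc]; grind

lemma wc_Δ : (wc a B).Δ = B := by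
  simp only [WeierstrassCurve.Δ, b₂, b₄, b₆, b₈, wc]; grind

lemma pt_cases (P : (wc a B).Point) : P = 0 ∨ ∃ x y, At P x y := by
  rcases P with _ | ⟨x, y, h⟩
  · exact Or.inl rfl
  · exact Or.inr ⟨x, y, h, rfl⟩

lemma exists_at (hB : B ≠ 0) {x y : F} (h : On a B x y) : ∃ P : (wc a B).Point, At P x y :=
  ⟨_, (equation_iff_nonsingular_of_Δ_ne_zero (wc_Δ.trans_ne hB)).1 (wc_eq.2 h), rfl⟩

variable {P Q : (wc a B).Point} {x y x₁ y₁ x₂ y₂ l : F}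

lemma At.on (h : At P x y) : On a B x y := wc_eq.1 h.1.1

lemma At.ne (h : At P x y) : P ≠ 0 := by obtain ⟨h, rfl⟩ := h; exact Point.some_ne_zero h

lemma At.ext (h : At P x y) (h' : At Q x y) : P = Q := by
  obtain ⟨h, rfl⟩ := h; obtain ⟨h', rfl⟩ := h'; rfl

lemma At.inj (h : At P x₁ y₁) (h' : At P x₂ y₂) : x₁ = x₂ ∧ y₁ = y₂ := by
  obtain ⟨h, rfl⟩ := h; obtain ⟨h', e⟩ := h'; simpa using e

lemma At.neg (h : At P x y) : At (-P) x (y + x) := by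
  obtain ⟨h, rfl⟩ := h
  rw [← wc_negY (a := a) (B := B)]
  exact ⟨_, rfl⟩

lemma At.eq_or (h : At P x y₁) (h' : At Q x y₂) : P = Q ∨ P = -Q := by
  obtain ⟨h, rfl⟩ := h; obtain ⟨h', rfl⟩ := h'; exact Point.X_eq_iff.1 rfl

/-- `l` is the slope of the line through two points. -/
def Sl (x₁ y₁ x₂ y₂ l : F) : Prop :=
  (x₁ ≠ x₂ ∧ l * (x₁ + x₂) = y₁ + y₂) ∨ (x₁ = x₂ ∧ y₁ = y₂ ∧ x₁ ≠ 0 ∧ l * x₁ = x₁ ^ 2 + y₁)

lemma At.add_zero (h : At P x₁ y₁) (h' : At Q x₂ y₂) (hx : x₁ = x₂) (hy : y₁ = y₂ + x₂) :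
    P + Q = 0 := by
  obtain ⟨h, rfl⟩ := h; obtain ⟨h', rfl⟩ := h'
  exact Point.add_of_Y_eq hx (by rw [wc_negY, hy])

lemma At.add (h : At P x₁ y₁) (h' : At Q x₂ y₂) (hl : Sl x₁ y₁ x₂ y₂ l) :
    At (P + Q) (l ^ 2 + l + a + x₁ + x₂)
      (l * (l ^ 2 + l + a + x₂) + y₁ + (l ^ 2 + l + a + x₁ + x₂)) := by
  obtain ⟨h, rfl⟩ := h; obtain ⟨h', rfl⟩ := h'
  have hxy : ¬(x₁ = x₂ ∧ y₁ = (wc a B).negY x₂ y₂) := by
    rw [wc_negY]; rcases hl with hl | hl <;> grind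
  have hs : (wc a B).slope x₁ x₂ y₁ y₂ = l := by
    rcases hl with ⟨h1, h2⟩ | ⟨rfl, rfl, h1, h2⟩
    · rw [slope_of_X_ne h1, div_eq_iff (sub_ne_zero.2 h1)]; grind
    · rw [slope_of_Y_ne rfl fun e => hxy ⟨rfl, e⟩, wc_negY, div_eq_iff (by grind)]
      simp only [wc]; grind
  have hn := nonsingular_add h h' hxy
  have e1 : (wc a B).addX x₁ x₂ l = l ^ 2 + l + a + x₁ + x₂ := by simp only [addX, wc]; grind
  have e2 : (wc a B).addY x₁ x₂ y₁ l =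
      l * (l ^ 2 + l + a + x₂) + y₁ + (l ^ 2 + l + a + x₁ + x₂) := by
    rw [addY, wc_negY, negAddY, e1]; grind
  rw [Point.add_some hxy]
  simp only [hs, e1, e2] at hn ⊢
  exact ⟨hn, rfl⟩

lemma sl_cases (h : On a B x₁ y₁) (h' : On a B x₂ y₂) :
    (x₁ = x₂ ∧ y₁ = y₂ + x₂) ∨ ∃ l, Sl x₁ y₁ x₂ y₂ l := by
  by_cases hx : x₁ = x₂
  · subst hx
    by_cases hy : y₁ = y₂ + x₁
    · exact Or.inl ⟨rfl, hy⟩
    · have h1 : (y₁ + y₂) * (y₁ + y₂ + x₁) = 0 := by unfold On at h h'; grind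
      have h2 : y₁ = y₂ := by grind
      have h3 : x₁ ≠ 0 := by grind
      exact Or.inr ⟨(x₁ ^ 2 + y₁) / x₁, Or.inr ⟨rfl, h2, h3, by field_simp⟩⟩
  · have : x₁ + x₂ ≠ 0 := by grind
    exact Or.inr ⟨(y₁ + y₂) / (x₁ + x₂), Or.inl ⟨hx, by field_simp⟩⟩

lemma Sl.line (hl : Sl x₁ y₁ x₂ y₂ l) : y₂ = l * (x₁ + x₂) + y₁ := by
  rcases hl with hl | hl <;> grind

lemma Sl.e2 (hl : Sl x₁ y₁ x₂ y₂ l) (h : On a B x₁ y₁) (h' : On a B x₂ y₂) :
    x₁ * x₂ + (x₁ + x₂) * (l ^ 2 + l + a + x₁ + x₂) = y₁ + l * x₁ := by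
  unfold On at h h'
  rcases hl with ⟨h1, h2⟩ | ⟨rfl, rfl, h1, h2⟩
  · have h3 : x₁ + x₂ ≠ 0 := by grind
    apply mul_left_cancel₀ h3
    have : y₂ = l * (x₁ + x₂) + y₁ := by grind
    subst this
    grind
  · grind

lemma Sl.mem (hl : Sl x₁ y₁ x₂ y₂ l) {T : Subfield F} (h1 : x₁ ∈ T) (h2 : y₁ ∈ T) (h3 : x₂ ∈ T)
    (h4 : y₂ ∈ T) : l ∈ T := by
  rcases hl with ⟨h, h'⟩ | ⟨-, -, h, h'⟩
  · rw [eq_div_of_mul_eq (by grind) h']; exact div_mem (add_mem h2 h4) (add_mem h1 h3)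
  · rw [eq_div_of_mul_eq h h']; exact div_mem (add_mem (pow_mem h1 2) h2) h1

lemma At.two (h : At P x y) (hx : x ≠ 0) : ∃ y', At (P + P) (x ^ 2 + B / x ^ 2) y' := by
  have h1 := h.add h (l := (x ^ 2 + y) / x) (Or.inr ⟨rfl, rfl, hx, by field_simp⟩)
  have := h.on
  unfold On at this
  exact ⟨_, by convert h1 using 1; field_simp; grind⟩

variable {F' : Type} [Field F'] [CharP F' 2] [DecidableEq F'] {a' B' : F'}

lemma On.map (h : On a B x y) (φ : F →+* F') (c : F') (ha : φ a + (c ^ 2 + c) = a')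
    (hB : φ B = B') : On a' B' (φ x) (φ y + c * φ x) := by
  have := congrArg φ h
  simp only [map_add, map_mul, map_pow] at this
  unfold On; grind

/-- Maps induced by a field homomorphism followed by a twisting substitution. -/
noncomputable def hmFun (φ : F →+* F') (c : F') (ha : φ a + (c ^ 2 + c) = a') (hB : φ B = B')
    (h0 : B' ≠ 0) : (wc a B).Point → (wc a' B').Point
  | .zero => 0
  | .some _ _ h => (exists_at h0 ((wc_eq.1 h.1).map φ c ha hB)).choose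

lemma At.hmFun (h : At P x y) (φ : F →+* F') (c : F') (ha : φ a + (c ^ 2 + c) = a')
    (hB : φ B = B') (h0 : B' ≠ 0) : At (hmFun φ c ha hB h0 P) (φ x) (φ y + c * φ x) := by
  obtain ⟨h, rfl⟩ := h
  exact (exists_at h0 ((wc_eq.1 h.1).map φ c ha hB)).choose_spec

/-- The induced homomorphism of groups of points. -/
noncomputable def hm (φ : F →+* F') (c : F') (ha : φ a + (c ^ 2 + c) = a') (hB : φ B = B')
    (h0 : B' ≠ 0) : (wc a B).Point →+ (wc a' B').Point where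
  toFun := hmFun φ c ha hB h0
  map_zero' := rfl
  map_add' P Q := by
    have hz : hmFun φ c ha hB h0 0 = 0 := rfl
    rcases pt_cases P with rfl | ⟨x₁, y₁, h⟩
    · simp [hz]
    rcases pt_cases Q with rfl | ⟨x₂, y₂, h'⟩
    · simp [hz]
    have h1 := h.hmFun φ c ha hB h0
    have h2 := h'.hmFun φ c ha hB h0
    rcases sl_cases h.on h'.on with ⟨hx, hy⟩ | ⟨l, hl⟩
    · rw [h.add_zero h' hx hy, h1.add_zero h2 (by rw [hx]) (by rw [hx, hy, map_add]; ring), hz]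
    · have h3 := h1.add h2 (l := φ l + c) (by
        rcases hl with ⟨e1, e2⟩ | ⟨rfl, rfl, e1, e2⟩
        · have := congrArg φ e2
          simp only [map_add, map_mul] at this
          exact Or.inl ⟨φ.injective.ne e1, by grind⟩
        · have := congrArg φ e2
          simp only [map_add, map_mul, map_pow] at this
          exact Or.inr ⟨rfl, rfl, by simpa using e1, by grind⟩)
      refine ((h.add h' hl).hmFun φ c ha hB h0).ext ?_
      convert h3 using 1 <;> simp only [map_add, map_mul, map_pow] <;> grind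

lemma At.hm (h : At P x y) (φ : F →+* F') (c : F') (ha : φ a + (c ^ 2 + c) = a')
    (hB : φ B = B') (h0 : B' ≠ 0) : At (hm φ c ha hB h0 P) (φ x) (φ y + c * φ x) :=
  h.hmFun φ c ha hB h0

lemma hm_inj (φ : F →+* F') (c : F') (ha : φ a + (c ^ 2 + c) = a') (hB : φ B = B')
    (h0 : B' ≠ 0) : Function.Injective (hm φ c ha hB h0) :=
  (injective_iff_map_eq_zero _).2 fun P hP => by
    rcases pt_cases P with rfl | ⟨x, y, h⟩
    · rfl
    · exact absurd hP (h.hm φ c ha hB h0).ne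

/-- The factorisation of the three roots attached to a collinear triple. -/
lemma collinear {z₁ z₂ : F} (hl : Sl x₁ y₁ x₂ y₂ l) (h : On a B x₁ y₁) (h' : On a B x₂ y₂)
    (h1 : z₁ ^ 2 + z₁ = x₁ + a) (h2 : z₂ ^ 2 + z₂ = x₂ + a) :
    ∃ a₁ a₂ a₃ : F, x₁ * z₁ + y₁ = a₂ * a₃ ∧ x₂ * z₂ + y₂ = a₁ * a₃ ∧
      (l ^ 2 + l + a + x₁ + x₂) * (l + z₁ + z₂) + (l * (l ^ 2 + l + a + x₂) + y₁) = a₁ * a₂ ∧
      x₁ * z₁ + y₁ + x₁ = a₁ * (a₁ + a₂ + a₃ + 1) ∧ x₂ * z₂ + y₂ + x₂ = a₂ * (a₁ + a₂ + a₃ + 1) := by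
  have e1 := hl.line
  have e2 := hl.e2 h h'
  obtain rfl : x₁ = z₁ ^ 2 + z₁ + a := by grind
  obtain rfl : x₂ = z₂ ^ 2 + z₂ + a := by grind
  have e3 : y₁ = l * (z₁ ^ 2 + z₁ + a) + ((z₁ ^ 2 + z₁ + a) * (z₂ ^ 2 + z₂ + a) + ((z₁ ^ 2 + z₁ + a) +
    (z₂ ^ 2 + z₂ + a)) * (l ^ 2 + l + a + (z₁ ^ 2 + z₁ + a) + (z₂ ^ 2 + z₂ + a))) := by grind
  subst e1
  subst e3
  refine ⟨(z₁ + l) * (z₂ + l) + (z₁ + z₂) ^ 2 + (l ^ 2 + l + a) + (z₁ + l),
    (z₁ + l) * (z₂ + l) + (z₁ + z₂) ^ 2 + (l ^ 2 + l + a) + (z₂ + l),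
    (z₁ + l) * (z₂ + l) + (z₁ + z₂) ^ 2 + (l ^ 2 + l + a) + (z₁ + z₂), ?_, ?_, ?_, ?_, ?_⟩ <;>
  grind

end Alg

section Big

variable {S : Type} [NormedField S] [IsUltrametricDist S] [CharP S 2] [DecidableEq S] {a B : S}

/-- The threshold that separates the two roots of `X ^ 2 + x X + B`. -/
noncomputable def th (B : S) : ℝ := max 1 √‖B‖

lemma one_le_th (B : S) : 1 ≤ th B := le_max_left _ _

lemma th_pos (B : S) : 0 < th B := one_pos.trans_le (one_le_th B)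

lemma norm_le_th (B : S) : ‖B‖ ≤ th B ^ 2 := by
  rw [← Real.sq_sqrt (norm_nonneg B)]
  exact pow_le_pow_left₀ (Real.sqrt_nonneg _) (le_max_right _ _) 2

lemma th_sq (B : S) : th (B ^ 2) = th B ^ 2 := by
  unfold th
  rw [norm_pow, Real.sqrt_sq (norm_nonneg B)]
  rcases le_total ‖B‖ 1 with h | h
  · rw [max_eq_left h, max_eq_left (Real.sqrt_le_one.2 h), one_pow]
  · rw [max_eq_right h, max_eq_right (Real.one_le_sqrt.2 h), Real.sq_sqrt (norm_nonneg B)]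

lemma th_pow (B : S) (j : ℕ) : th (B ^ 2 ^ j) = th B ^ 2 ^ j := by
  induction j with
  | zero => simp
  | succ j ih => rw [pow_succ, pow_mul, th_sq, ih, pow_mul]

lemma ne_of_th {X : S} (h : th B < ‖X‖) : X ≠ 0 := norm_pos_iff.1 ((th_pos B).trans h)

lemma big_third {a₁ a₂ a₃ : S} {c : ℝ} (hc : 1 ≤ c) (h1 : c < ‖a₂ * a₃‖) (h2 : c < ‖a₁ * a₃‖)
    (h3 : ‖a₁ * (a₁ + a₂ + a₃ + 1)‖ < c) (h4 : ‖a₂ * (a₁ + a₂ + a₃ + 1)‖ < c) : c < ‖a₁ * a₂‖ := by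
  wlog hle : ‖a₁‖ ≤ ‖a₂‖ generalizing a₁ a₂
  · rw [mul_comm]
    exact this h2 h1 (by rwa [add_comm a₂]) (by rwa [add_comm a₂]) (le_of_not_ge hle)
  simp only [norm_mul] at *
  by_contra! h
  have p1 := norm_nonneg a₁
  have p2 := norm_nonneg a₂
  have h7 : ‖a₂‖ < ‖a₃‖ := lt_of_mul_lt_mul_left (h.trans_lt h2) p1
  have h6 : 1 < ‖a₃‖ := by nlinarith [norm_nonneg a₃]
  rw [add_right_comm, nadd_eq' (nadd_lt (nadd_lt (hle.trans_lt h7) h7) (by simpa using h6))] at h4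
  linarith

/-- `X` is the big root of `X ^ 2 + x X + B` and `z = (X + y) / x`. -/
def Bg (P : (wc a B).Point) (X z : S) : Prop :=
  (P = 0 ∧ X = 1 ∧ z = 0) ∨ ∃ x y, At P x y ∧ X = x * z + y ∧ z ^ 2 + z = x + a ∧ th B < ‖X‖

lemma root_eq {x y z : S} (h : On a B x y) (hz : z ^ 2 + z = x + a) :
    (x * z + y) * (x * z + y + x) = B := by
  unfold On at h; grind

lemma small_root {x X : S} (e : X * (X + x) = B) (h1 : th B < ‖X‖) :
    ‖X + x‖ < th B ∧ ‖x‖ = ‖X‖ := by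
  have h2 : ‖X + x‖ < th B := by
    have hB : ‖X‖ * ‖X + x‖ ≤ th B ^ 2 := by rw [← norm_mul, e]; exact norm_le_th B
    nlinarith [norm_nonneg (X + x), th_pos B]
  exact ⟨h2, by rw [← nadd_eq (h2.trans h1)]; congr 1; grind⟩

lemma big_of {x y z : S} (h : On a B x y) (hz : z ^ 2 + z = x + a)
    (h1 : th B < ‖x * z + y‖) : ‖x * z + y + x‖ < th B ∧ ‖x‖ = ‖x * z + y‖ :=
  small_root (root_eq h hz) h1

lemma Bg.unique {P : (wc a B).Point} {X z X' z' : S} (h : Bg P X z)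
    (h' : Bg P X' z') : X = X' ∧ z = z' := by
  rcases h with ⟨h, rfl, rfl⟩ | ⟨x, y, h, rfl, hz, hX⟩ <;>
    rcases h' with ⟨h', rfl, rfl⟩ | ⟨x', y', h', rfl, hz', hX'⟩
  · exact ⟨rfl, rfl⟩
  · exact absurd h h'.ne
  · exact absurd h' h.ne
  obtain ⟨rfl, rfl⟩ := h.inj h'
  obtain ⟨c, rfl⟩ := exists_c2 (hz.trans hz'.symm)
  rcases z2 c with rfl | rfl
  · simp
  · have := (big_of h.on hz' hX').1
    rw [map_one, show x * (z' + 1) + y = x * z' + y + x by ring] at hX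
    exact absurd hX this.not_gt

lemma exists_bg [IsSepClosed S] {P : (wc a B).Point} {x y : S} (h : At P x y)
    (hx : th B < ‖x‖) : ∃ X z, Bg P X z := by
  obtain ⟨z, hz⟩ := exists_AS (x + a)
  by_cases h1 : th B < ‖x * z + y‖
  · exact ⟨_, z, Or.inr ⟨x, y, h, rfl, hz, h1⟩⟩
  · refine ⟨_, z + 1, Or.inr ⟨x, y, h, rfl, by grind, ?_⟩⟩
    rwa [show x * (z + 1) + y = x * z + y + x by ring, nadd_eq' ((not_lt.1 h1).trans_lt hx)]

lemma Bg.neg {P : (wc a B).Point} {X z : S} (h : Bg P X z) : ∃ c, Bg (-P) X (z + c2 c) := by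
  rcases h with ⟨rfl, rfl, rfl⟩ | ⟨x, y, h, rfl, hz, hX⟩
  · exact ⟨0, Or.inl (by simp)⟩
  · exact ⟨1, Or.inr ⟨x, _, h.neg, by simp; grind, by simp; grind, hX⟩⟩

/-- Both coordinates lie in `T`. -/
def Rat (T : Subfield S) (P : (wc a B).Point) : Prop := ∀ x y, At P x y → x ∈ T ∧ y ∈ T

lemma Bg.add {T : Subfield S} (ha : a ∈ T) {P Q : (wc a B).Point} {X z X' z' : S}
    (h : Bg P X z) (h' : Bg Q X' z') (hP : Rat T P) (hQ : Rat T Q) :
    ∃ X'' z'', Bg (P + Q) X'' z'' ∧ Rat T (P + Q) ∧ z'' + z + z' ∈ T ∧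
      ∃ s, s ≠ 0 ∧ X'' * X * X' = s ^ 2 := by
  have hne : ∀ {P : (wc a B).Point} {X z}, Bg P X z → X ≠ 0 := by
    rintro P X z (⟨-, rfl, -⟩ | ⟨x, y, -, -, -, h⟩)
    · simp
    · exact ne_of_th h
  have hX := hne h
  have hX' := hne h'
  rcases id h with ⟨rfl, rfl, rfl⟩ | ⟨x₁, y₁, h₁, rfl, hz, hX1⟩
  · exact ⟨X', z', by rwa [zero_add], by rwa [zero_add], by simp [CharTwo.add_self_eq_zero],
      X', hX', by ring⟩
  rcases id h' with ⟨rfl, rfl, rfl⟩ | ⟨x₂, y₂, h₂, rfl, hz', hX2⟩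
  · exact ⟨_, z, by rwa [add_zero], by rwa [add_zero], by simp [CharTwo.add_self_eq_zero],
      _, hX, by ring⟩
  rcases sl_cases h₁.on h₂.on with ⟨rfl, rfl⟩ | ⟨l, hl⟩
  · obtain ⟨c, hc⟩ := h'.neg
    rw [← h₁.ext h₂.neg] at hc
    obtain ⟨e1, e2⟩ := h.unique hc
    have e0 := h₁.add_zero h₂ rfl rfl
    refine ⟨1, 0, Or.inl ⟨e0, rfl, rfl⟩, fun x y h => absurd e0 h.ne, ?_, _, hX, by rw [← e1]; ring⟩
    rw [show 0 + z + z' = c2 c by grind]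
    exact c2_mem _ _
  obtain ⟨a₁, a₂, a₃, e1, e2, e3, e4, e5⟩ := collinear hl h₁.on h₂.on hz hz'
  have h3 := big_third (one_le_th B) (e1 ▸ hX1) (e2 ▸ hX2) (e4 ▸ (big_of h₁.on hz hX1).1)
    (e5 ▸ (big_of h₂.on hz' hX2).1)
  obtain ⟨p1, p2⟩ := hP _ _ h₁
  obtain ⟨p3, p4⟩ := hQ _ _ h₂
  have hlT := hl.mem p1 p2 p3 p4
  have h4 := h₁.add h₂ hl
  refine ⟨a₁ * a₂, l + z + z' + 1, Or.inr ⟨_, _, h4, by grind, by grind, h3⟩, fun x y h5 => ?_, ?_,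
    a₁ * a₂ * a₃, ?_, by rw [e1, e2]; ring⟩
  · obtain ⟨rfl, rfl⟩ := h4.inj h5
    have := add_mem (add_mem (pow_mem hlT 2) hlT) ha
    exact ⟨add_mem (add_mem this p1) p3, add_mem (add_mem (mul_mem hlT (add_mem this p3)) p2)
      (add_mem (add_mem this p1) p3)⟩
  · rw [show l + z + z' + 1 + z + z' = l + 1 by grind]
    exact add_mem hlT (one_mem _)
  · rw [e1] at hX
    exact mul_ne_zero (ne_of_th h3) (right_ne_zero_of_mul hX)

/-- The group of big points with coordinates in `T`. -/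
def MT (B : S) {T : Subfield S} (ha : a ∈ T) : AddSubgroup (wc a B).Point where
  carrier := {P | Rat T P ∧ ∃ X z, Bg P X z}
  add_mem' := by
    rintro P Q ⟨hP, X, z, h⟩ ⟨hQ, X', z', h'⟩
    obtain ⟨X'', z'', h1, h2, -⟩ := h.add ha h' hP hQ
    exact ⟨h2, _, _, h1⟩
  zero_mem' := ⟨fun x y h => absurd rfl h.ne, 1, 0, Or.inl ⟨rfl, rfl, rfl⟩⟩
  neg_mem' := by
    rintro P ⟨hP, X, z, h⟩
    obtain ⟨c, hc⟩ := h.neg
    refine ⟨fun x y h1 => ?_, _, _, hc⟩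
    have h2 := h1.neg
    rw [neg_neg] at h2
    obtain ⟨p1, p2⟩ := hP _ _ h2
    exact ⟨p1, by simpa using sub_mem p2 p1⟩

lemma Bg.two_ne {P : (wc a B).Point} {X z : S} (h : Bg P X z) (h2 : P + P = 0) :
    P = 0 := by
  rcases h with ⟨rfl, -⟩ | ⟨x, y, h, rfl, hz, hX⟩
  · rfl
  · obtain ⟨y', h'⟩ := h.two (ne_of_th (by rw [(big_of h.on hz hX).2]; exact hX))
    exact absurd h2 h'.ne

/-- A big point whose root is a square and whose `z` is rational is twice a big point. -/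
lemma Bg.half [IsSepClosed S] (h0 : B ≠ 0) {T : Subfield S} (ha : a ∈ T)
    (hd : ∀ w ∈ T, th B < ‖a + (w ^ 2 + w)‖)
    {P : (wc a B).Point} {s z : S} (h : Bg P (s ^ 2) z) (hs : s ∈ T) (hz : z ∈ T) :
    ∃ Q ∈ MT B ha, P = Q + Q := by
  rcases h with ⟨rfl, -⟩ | ⟨x, y, h, hX, hz', h1⟩
  · exact ⟨0, zero_mem _, by simp⟩
  have e := root_eq h.on hz'
  rw [← hX] at e
  have hs1 : th B < ‖s‖ := by
    by_contra! h2
    have h3 := hd _ (add_mem hz hs)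
    rw [show a + ((z + s) ^ 2 + (z + s)) = s + (s ^ 2 + x) by grind] at h3
    exact h3.not_ge (nadd_le h2 (small_root e h1).1.le)
  have hs0 : s ≠ 0 := ne_of_th hs1
  obtain ⟨R, hR⟩ := exists_at (a := a) h0 (x := s) (y := s * (z + s)) (by unfold On; grind)
  have hRM : R ∈ MT B ha := ⟨fun x y h => by
    obtain ⟨rfl, rfl⟩ := hR.inj h
    exact ⟨hs, mul_mem hs (add_mem hz hs)⟩, exists_bg hR hs1⟩
  obtain ⟨y', h2⟩ := hR.two hs0
  rw [show s ^ 2 + B / s ^ 2 = x by field_simp; grind] at h2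
  rcases h.eq_or h2 with h3 | h3
  · exact ⟨R, hRM, h3⟩
  · exact ⟨-R, neg_mem hRM, by rw [h3, neg_add]⟩

/-- Automorphisms preserving the norm preserve big points. -/
lemma Bg.map {P : (wc a B).Point} {X z : S} (h : Bg P X z) (φ : S →+* S) (hφ : ∀ u, ‖φ u‖ = ‖u‖)
    (ha : φ a + (0 ^ 2 + 0) = a) (hB : φ B = B) (h0 : B ≠ 0) :
    Bg (hm φ 0 ha hB h0 P) (φ X) (φ z) := by
  rcases h with ⟨rfl, rfl, rfl⟩ | ⟨x, y, h, rfl, hz, hX⟩
  · exact Or.inl (by simp)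
  · refine Or.inr ⟨_, _, h.hm φ 0 ha hB h0, by simp, ?_, by rwa [hφ]⟩
    rw [← map_pow, ← map_add, hz, map_add]; grind

end Big

end Pool.Agent.Lib.MP_788af2_nt.G2
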