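import Pool.Agent.Lib.MP_788af2_nt.G2.Setting

/-!
The decomposition `u = E u ^ 2 + t * O u ^ 2`, the Cartier operator `O` and the derivation `D`.
-/

set_option linter.unusedSectionVars false

namespace Pool.Agent.Lib.MP_788af2_nt.G2

open Polynomial IntermediateField

variable {k : Type} [Field k] [Fintype k] [CharP k 2] {S : Type} [NormedField S]
  [IsUltrametricDist S] [Algebra (RatFunc k) S] [IsSepClosure (RatFunc k) S] [CharP S 2]

lemma two0 (F : Type) [Field F] [CharP F 2] : (2 : F) = 0 := CharTwo.two_eq_zero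

namespace Pl

variable (p : Pl k S)

/-- Polynomials inside `S`. -/
noncomputable def φ (_p : Pl k S) : k[X] →+* S :=
  (algebraMap (RatFunc k) S).comp (algebraMap k[X] (RatFunc k))

/-- The variable. -/
noncomputable def t : S := p.φ X

/-- The polynomial ring inside `S`. -/
noncomputable def A : Subring S := p.φ.range

/-- The rational function field inside `S`. -/
noncomputable def K (_p : Pl k S) : Subfield S := (algebraMap (RatFunc k) S).fieldRange

lemma φ_inj : Function.Injective p.φ :=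
  (algebraMap (RatFunc k) S).injective.comp (IsFractionRing.injective _ _)

lemma φ_ne {f : k[X]} (hf : f ≠ 0) : p.φ f ≠ 0 := fun h => hf (p.φ_inj (by simpa using h))

lemma φ_mem (f : k[X]) : p.φ f ∈ p.A := ⟨f, rfl⟩

lemma t_mem : p.t ∈ p.A := p.φ_mem _

lemma t_eq : p.t = algebraMap (RatFunc k) S RatFunc.X := by simp [t, φ]

lemma A_le_K {u : S} (h : u ∈ p.A) : u ∈ p.K := by
  obtain ⟨f, rfl⟩ := h
  exact ⟨_, rfl⟩

lemma aut_K (g : S ≃ₐ[RatFunc k] S) {u : S} (h : u ∈ p.K) : g u = u := by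
  obtain ⟨f, rfl⟩ := h
  exact g.commutes f

lemma aut_φ (g : S ≃ₐ[RatFunc k] S) (f : k[X]) : g (p.φ f) = p.φ f :=
  p.aut_K g (p.A_le_K (p.φ_mem f))

lemma aut_t (g : S ≃ₐ[RatFunc k] S) : g p.t = p.t := p.aut_φ g _

lemma mem_K_of_fixed {u : S} (h : ∀ g : S ≃ₐ[RatFunc k] S, g u = u) : u ∈ p.K :=
  (InfiniteGalois.mem_range_algebraMap_iff_fixed (k := RatFunc k) u).2 h

lemma mem_K_iff {u : S} : u ∈ p.K ↔ ∃ n d : k[X], d ≠ 0 ∧ u = p.φ n / p.φ d := by
  constructor
  · rintro ⟨f, rfl⟩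
    refine ⟨f.num, f.denom, f.denom_ne_zero, ?_⟩
    simp only [φ, RingHom.comp_apply, ← map_div₀, RatFunc.num_div_denom]
  · rintro ⟨n, d, -, rfl⟩
    exact div_mem (p.A_le_K (p.φ_mem n)) (p.A_le_K (p.φ_mem d))

lemma exists_sqrt (c : k) : ∃ d : k, d ^ 2 = c := by
  have := (PerfectRing.bijective_frobenius (R := k) (p := 2)).2 c
  simpa [frobenius_def] using this

lemma mem_adjoin_sq (u : S) : u ∈ (RatFunc k)⟮u ^ 2⟯ := by
  have : CharP (RatFunc k) 2 := algebraMap k (RatFunc k) |>.charP_iff_charP 2 |>.1 inferInstance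
  have h := adjoin_simple_eq_adjoin_pow_expChar_of_isSeparable' (RatFunc k) S u 2
  rw [← h]
  exact mem_adjoin_simple_self _ u

lemma t_ne_sq (s : S) : s ^ 2 ≠ p.t := fun h => by
  have h1 := mem_adjoin_sq (k := k) s
  rw [h, t_eq, adjoin_simple_eq_bot_iff.2 (IntermediateField.algebraMap_mem _ _)] at h1
  obtain ⟨r, rfl⟩ := h1
  have h2 : r ^ 2 = RatFunc.X := (algebraMap (RatFunc k) S).injective (by
    rw [map_pow, ← p.t_eq, ← h]; rfl)
  have hr : r ≠ 0 := by rintro rfl; exact RatFunc.X_ne_zero (by simpa using h2.symm)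
  have := congrArg RatFunc.intDegree h2
  rw [sq, RatFunc.intDegree_mul hr hr, RatFunc.intDegree_X] at this
  omega

lemma exists_EO (u : S) : ∃ a b : S, a ^ 2 + p.t * b ^ 2 = u := by
  have h2 : (2 : S) = 0 := two0 S
  let T : Subfield S :=
    { carrier := {u | ∃ a b : S, a ^ 2 + p.t * b ^ 2 = u}
      mul_mem' := by
        rintro _ _ ⟨a, b, rfl⟩ ⟨c, d, rfl⟩
        exact ⟨a * c + p.t * b * d, a * d + b * c, by
          linear_combination (2 * a * b * c * d * p.t) * h2⟩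
      one_mem' := ⟨1, 0, by simp⟩
      add_mem' := by
        rintro _ _ ⟨a, b, rfl⟩ ⟨c, d, rfl⟩
        exact ⟨a + c, b + d, by linear_combination (a * c + p.t * b * d) * h2⟩
      zero_mem' := ⟨0, 0, by simp⟩
      neg_mem' := by
        rintro _ ⟨a, b, rfl⟩
        exact ⟨a, b, by linear_combination (a ^ 2 + p.t * b ^ 2) * h2⟩
      inv_mem' := by
        rintro _ ⟨a, b, rfl⟩
        refine ⟨a / (a ^ 2 + p.t * b ^ 2), b / (a ^ 2 + p.t * b ^ 2), ?_⟩
        by_cases h : a ^ 2 + p.t * b ^ 2 = 0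
        · simp [h]
        · field_simp }
  have hA : ∀ f, p.φ f ∈ T := fun f => by
    induction f using Polynomial.induction_on with
    | C c =>
      obtain ⟨d, rfl⟩ := exists_sqrt c
      exact ⟨p.φ (C d), 0, by simp⟩
    | add f g hf hg => rw [map_add]; exact add_mem hf hg
    | monomial n c h =>
      rw [pow_succ, ← mul_assoc, map_mul]
      exact mul_mem h ⟨0, 1, by simp [t]⟩
  have hK : ∀ r : RatFunc k, algebraMap (RatFunc k) S r ∈ T := fun r => by
    obtain ⟨n, d, -, h⟩ := p.mem_K_iff.1 ⟨r, rfl⟩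
    rw [h]
    exact div_mem (hA n) (hA d)
  let T' : IntermediateField (RatFunc k) S := T.toIntermediateField hK
  have : (RatFunc k)⟮u ^ 2⟯ ≤ T' := adjoin_simple_le_iff.2 ⟨u, 0, by simp⟩
  exact this (mem_adjoin_sq u)

lemma EO_inj {a b c d : S} (h : a ^ 2 + p.t * b ^ 2 = c ^ 2 + p.t * d ^ 2) : a = c ∧ b = d := by
  have h2 : (2 : S) = 0 := two0 S
  have hbd : b = d := by
    by_contra hne
    have h0 : b - d ≠ 0 := sub_ne_zero.2 hne
    refine p.t_ne_sq ((a - c) / (b - d)) ?_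
    field_simp
    linear_combination h + (c ^ 2 - a * c - p.t * b ^ 2 + p.t * b * d) * h2
  subst hbd
  have : (a - c) ^ 2 = 0 := by linear_combination h + (c ^ 2 - a * c) * h2
  exact ⟨sub_eq_zero.1 (pow_eq_zero_iff two_ne_zero |>.1 this), rfl⟩

/-- The even part. -/
noncomputable def E (u : S) : S := (p.exists_EO u).choose

/-- The odd part, i.e. the Cartier operator on differentials `u dt`. -/
noncomputable def O (u : S) : S := (p.exists_EO u).choose_spec.choose

lemma EO (u : S) : p.E u ^ 2 + p.t * p.O u ^ 2 = u := (p.exists_EO u).choose_spec.choose_spec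

lemma EO_of {a b u : S} (h : a ^ 2 + p.t * b ^ 2 = u) : p.E u = a ∧ p.O u = b :=
  p.EO_inj ((p.EO u).trans h.symm)

lemma EO_add (u v : S) : p.E (u + v) = p.E u + p.E v ∧ p.O (u + v) = p.O u + p.O v :=
  p.EO_of (by linear_combination p.EO u + p.EO v + (p.E u * p.E v + p.t * p.O u * p.O v) * two0 S)

lemma E_add (u v : S) : p.E (u + v) = p.E u + p.E v := (p.EO_add u v).1
lemma O_add (u v : S) : p.O (u + v) = p.O u + p.O v := (p.EO_add u v).2

lemma EO_mul (u v : S) : p.E (u * v) = p.E u * p.E v + p.t * p.O u * p.O v ∧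
    p.O (u * v) = p.E u * p.O v + p.O u * p.E v :=
  p.EO_of (by
    linear_combination (p.E v ^ 2 + p.t * p.O v ^ 2) * p.EO u + u * p.EO v +
      (2 * p.E u * p.O u * p.E v * p.O v * p.t) * two0 S)

lemma EO_sq_mul (s u : S) : p.E (s ^ 2 * u) = s * p.E u ∧ p.O (s ^ 2 * u) = s * p.O u :=
  p.EO_of (by linear_combination s ^ 2 * p.EO u)

lemma O_sq_mul (s u : S) : p.O (s ^ 2 * u) = s * p.O u := (p.EO_sq_mul s u).2

lemma EO_sq (s : S) : p.E (s ^ 2) = s ∧ p.O (s ^ 2) = 0 := p.EO_of (by simp)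

lemma O_sq (s : S) : p.O (s ^ 2) = 0 := (p.EO_sq s).2

@[simp] lemma O_zero : p.O 0 = 0 := by simpa using p.O_sq 0
@[simp] lemma O_one : p.O 1 = 0 := by simpa using p.O_sq 1
@[simp] lemma E_zero : p.E 0 = 0 := by simpa using (p.EO_sq 0).1

lemma EO_t : p.E p.t = 0 ∧ p.O p.t = 1 := p.EO_of (by simp)

/-- The Cartier operator as an additive map. -/
noncomputable def Oh : S →+ S := ⟨⟨p.O, p.O_zero⟩, p.O_add⟩

lemma O_sum {ι : Type} (s : Finset ι) (f : ι → S) : p.O (∑ i ∈ s, f i) = ∑ i ∈ s, p.O (f i) :=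
  map_sum p.Oh f s

lemma aut_EO (g : S ≃ₐ[RatFunc k] S) (u : S) : g (p.E u) = p.E (g u) ∧ g (p.O u) = p.O (g u) := by
  have := p.EO_of (a := g (p.E u)) (b := g (p.O u)) (u := g u) (by
    conv_rhs => rw [← p.EO u]
    simp [p.aut_t])
  exact ⟨this.1.symm, this.2.symm⟩

lemma aut_O (g : S ≃ₐ[RatFunc k] S) (u : S) : g (p.O u) = p.O (g u) := (p.aut_EO g u).2
lemma aut_E (g : S ≃ₐ[RatFunc k] S) (u : S) : g (p.E u) = p.E (g u) := (p.aut_EO g u).1

/-- The derivation `d/dt`. -/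
noncomputable def D (u : S) : S := p.O u ^ 2

lemma D_add (u v : S) : p.D (u + v) = p.D u + p.D v := by
  simp only [D, O_add]; linear_combination (p.O u * p.O v) * two0 S

lemma D_mul (u v : S) : p.D (u * v) = u * p.D v + v * p.D u := by
  simp only [D, (p.EO_mul u v).2]
  linear_combination p.O v ^ 2 * p.EO u + p.O u ^ 2 * p.EO v +
    (p.E u * p.O v * p.O u * p.E v - p.t * p.O u ^ 2 * p.O v ^ 2) * two0 S

lemma D_sq (u : S) : p.D (u ^ 2) = 0 := by simp [D, O_sq]

lemma D_sq_mul (s u : S) : p.D (s ^ 2 * u) = s ^ 2 * p.D u := by simp [D, O_sq_mul, mul_pow]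

@[simp] lemma D_zero : p.D 0 = 0 := by simp [D]
@[simp] lemma D_one : p.D 1 = 0 := by simp [D]

lemma D_t : p.D p.t = 1 := by simp [D, p.EO_t.2]

lemma D_inv (u : S) : p.D u⁻¹ = p.D u / u ^ 2 := by
  by_cases h : u = 0
  · simp [h]
  have : u⁻¹ = u⁻¹ ^ 2 * u := by field_simp
  rw [this, D_sq_mul]; field_simp

lemma D_eq_zero {u : S} (h : p.D u = 0) : p.E u ^ 2 = u := by
  have := p.EO u
  rw [D] at h
  simpa [h] using this

lemma D_eq_zero_iff {u : S} : p.D u = 0 ↔ p.O u = 0 := by simp [D]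

lemma aut_D (g : S ≃ₐ[RatFunc k] S) (u : S) : g (p.D u) = p.D (g u) := by
  simp [D, p.aut_O]

lemma D_φ (f : k[X]) : p.D (p.φ f) = p.φ (derivative f) := by
  induction f using Polynomial.induction_on with
  | C c =>
    obtain ⟨d, rfl⟩ := exists_sqrt c
    rw [derivative_C, map_pow, map_pow, D_sq, map_zero]
  | add f g hf hg => simp only [map_add, D_add, hf, hg]
  | monomial n c h =>
    rw [pow_succ, ← mul_assoc, map_mul, D_mul, h, derivative_mul (g := X)]
    simp only [derivative_X, mul_one, map_add, map_mul]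
    rw [show p.D (p.φ X) = 1 from p.D_t]
    ring

/-- The logarithmic derivative. -/
noncomputable def dl (u : S) : S := p.D u / u

lemma dl_mul {u v : S} (hu : u ≠ 0) (hv : v ≠ 0) : p.dl (u * v) = p.dl u + p.dl v := by
  simp only [dl, D_mul]; field_simp; ring

lemma dl_sq (u : S) : p.dl (u ^ 2) = 0 := by simp [dl, D_sq]

lemma dl_sq_mul {s : S} (hs : s ≠ 0) (u : S) : p.dl (s ^ 2 * u) = p.dl u := by
  simp only [dl, D_sq_mul]
  exact mul_div_mul_left _ _ (pow_ne_zero 2 hs)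

lemma O_dl (u : S) : p.O (p.dl u) = p.dl u := by
  by_cases h : u = 0
  · simp [h, dl]
  have : p.dl u = (p.O u / u) ^ 2 * u := by simp only [dl, D]; field_simp
  rw [this, O_sq_mul]; field_simp

lemma aut_dl (g : S ≃ₐ[RatFunc k] S) (u : S) : g (p.dl u) = p.dl (g u) := by
  simp [dl, p.aut_D]

/-- Subrings stable under `E` and `O`. -/
def Stab (T : Subring S) : Prop := ∀ u ∈ T, p.E u ∈ T ∧ p.O u ∈ T

lemma Stab.D_mem {p : Pl k S} {T : Subring S} (h : p.Stab T) {u : S} (hu : u ∈ T) : p.D u ∈ T :=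
  pow_mem (h u hu).2 2

lemma stab_closure {s : Set S} (ht : p.t ∈ Subring.closure s)
    (h : ∀ u ∈ s, p.E u ∈ Subring.closure s ∧ p.O u ∈ Subring.closure s) :
    p.Stab (Subring.closure s) := by
  intro u hu
  induction hu using Subring.closure_induction with
  | mem x hx => exact h x hx
  | zero => simp
  | one => simp [show p.E 1 = 1 by simpa using (p.EO_sq 1).1]
  | add x y _ _ hx hy =>
    rw [E_add, O_add]; exact ⟨add_mem hx.1 hy.1, add_mem hx.2 hy.2⟩
  | neg x _ hx => rwa [CharTwo.neg_eq]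
  | mul x y _ _ hx hy =>
    rw [(p.EO_mul x y).1, (p.EO_mul x y).2]
    exact ⟨add_mem (mul_mem hx.1 hy.1) (mul_mem (mul_mem ht hx.2) hy.2),
      add_mem (mul_mem hx.1 hy.2) (mul_mem hx.2 hy.1)⟩

lemma stab_A : p.Stab p.A := by
  rintro _ ⟨f, rfl⟩
  induction f using Polynomial.induction_on with
  | C c =>
    obtain ⟨d, rfl⟩ := exists_sqrt c
    rw [map_pow, map_pow, (p.EO_sq _).1, (p.EO_sq _).2]
    exact ⟨p.φ_mem _, zero_mem _⟩
  | add f g hf hg => rw [map_add, E_add, O_add]; exact ⟨add_mem hf.1 hg.1, add_mem hf.2 hg.2⟩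
  | monomial n c h =>
    rw [pow_succ, ← mul_assoc, map_mul, (p.EO_mul _ _).1, (p.EO_mul _ _).2,
      show p.E (p.φ X) = 0 from p.EO_t.1, show p.O (p.φ X) = 1 from p.EO_t.2]
    simp only [mul_zero, mul_one, zero_add, add_zero]
    exact ⟨mul_mem p.t_mem h.2, h.1⟩

/-- If `N` is separable and `N u`, `O u` lie in a stable ring, so does `u`. -/
lemma Stab.mem_of_O {p : Pl k S} {T : Subring S} (h : p.Stab T) (hA : p.A ≤ T) {N : k[X]}
    (hN : N.Separable) {u : S} (hu : p.φ N * u ∈ T) (hO : p.O u ∈ T) : u ∈ T := by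
  obtain ⟨a, b, hab⟩ := hN
  have h1 : p.φ N * p.E u ^ 2 ∈ T := by
    have : p.φ N * p.E u ^ 2 = p.φ N * u - p.φ N * (p.t * p.O u ^ 2) := by
      linear_combination p.φ N * p.EO u
    rw [this]
    exact sub_mem hu (mul_mem (hA (p.φ_mem N)) (mul_mem (hA p.t_mem) (pow_mem hO 2)))
  have h2 := h.D_mem h1
  rw [mul_comm, D_sq_mul, D_φ] at h2
  have h3 : p.E u ^ 2 = p.φ a * (p.φ N * p.E u ^ 2) + p.φ b * (p.E u ^ 2 * p.φ (derivative N)) := by
    have := congrArg p.φ hab
    simp only [map_add, map_mul, map_one] at this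
    linear_combination (-p.E u ^ 2) * this
  rw [← p.EO u]
  refine add_mem ?_ (mul_mem (hA p.t_mem) (pow_mem hO 2))
  rw [h3]
  exact add_mem (mul_mem (hA (p.φ_mem a)) h1) (mul_mem (hA (p.φ_mem b)) h2)

end Pl

end Pool.Agent.Lib.MP_788af2_nt.G2
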