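import Pool.Agent.Lib.MP_788af2_nt.G2.Local

/-!
Families of Artin-Schreier extensions that are independent at infinity.
-/

set_option linter.unusedSectionVars false

namespace Pool.Agent.Lib.MP_788af2_nt.G2

open Polynomial

/-- The prime field inside `S`. -/
def c2 {S : Type} [Field S] [CharP S 2] : ZMod 2 →+* S := ZMod.castHom (dvd_refl 2) S

lemma z2 (a : ZMod 2) : a = 0 ∨ a = 1 := by revert a; decide

lemma c2_sq {S : Type} [Field S] [CharP S 2] (a : ZMod 2) : (c2 a : S) ^ 2 = c2 a := by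
  rcases z2 a with rfl | rfl <;> simp

lemma c2_mem {S : Type} [Field S] [CharP S 2] {σ : Type} [SetLike σ S] [SubringClass σ S] (T : σ)
    (a : ZMod 2) : (c2 a : S) ∈ T := by
  rcases z2 a with rfl | rfl <;> simp

lemma exists_c2 {S : Type} [Field S] [CharP S 2] {u v : S} (h : u ^ 2 + u = v ^ 2 + v) :
    ∃ a : ZMod 2, u = v + c2 a := by
  have : (u + v) * (u + v + 1) = 0 := by grind
  rcases mul_eq_zero.1 this with h | h
  · exact ⟨0, by simp; grind⟩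
  · exact ⟨1, by simp; grind⟩

variable {k : Type} [Field k] [Fintype k] [CharP k 2] {S : Type} [NormedField S]
  [IsUltrametricDist S] [Algebra (RatFunc k) S] [IsSepClosure (RatFunc k) S] [CharP S 2]

lemma aut_c2 (g : S ≃ₐ[RatFunc k] S) (a : ZMod 2) : g (c2 a) = c2 a := by
  rcases z2 a with rfl | rfl <;> simp

/-- Prescribing the action on Artin-Schreier roots. -/
lemma exists_aut (H : Subgroup (S ≃ₐ[RatFunc k] S)) {J : Type} [Fintype J] (z : J → S)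
    (hz : ∀ j, ∀ g ∈ H, g (z j ^ 2 + z j) = z j ^ 2 + z j) (ε : J → ZMod 2)
    (h : ∀ a : J → ZMod 2, (∀ g ∈ H, g (∑ j, c2 (a j) * z j) = ∑ j, c2 (a j) * z j) →
      ∑ j, a j * ε j = 0) : ∃ g ∈ H, ∀ j, g (z j) = z j + c2 (ε j) := by
  classical
  let W : AddSubgroup (J → ZMod 2) :=
    { carrier := {ε | ∃ g ∈ H, ∀ j, g (z j) = z j + c2 (ε j)}
      add_mem' := by
        rintro a b ⟨g, hg, ha⟩ ⟨g', hg', hb⟩
        exact ⟨g * g', mul_mem hg hg', fun j => by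
          simp only [AlgEquiv.mul_apply, hb, map_add, ha, aut_c2, Pi.add_apply, add_assoc]⟩
      zero_mem' := ⟨1, one_mem _, by simp⟩
      neg_mem' := by
        rintro a ⟨g, hg, ha⟩
        exact ⟨g, hg, fun j => by simpa [CharTwo.neg_eq] using ha j⟩ }
  by_contra hne
  obtain ⟨f, hf, hk⟩ := (AddSubgroup.toZModSubmodule 2 W).exists_le_ker_of_notMem (v := ε) hne
  have hf' : ∀ v, f v = ∑ j, f (Pi.single j 1) * v j := fun v => by
    conv_lhs => rw [← Finset.univ_sum_single v, map_sum]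
    exact Finset.sum_congr rfl fun j _ => by
      rw [mul_comm, ← smul_eq_mul, ← map_smul, ← Pi.single_smul, smul_eq_mul, mul_one]
  refine hf ((hf' ε).trans (h _ fun g hg => ?_))
  choose η hη using fun j => exists_c2 (u := g (z j)) (v := z j) (by rw [← hz j g hg]; simp)
  have h0 : f η = 0 := hk (show η ∈ W from ⟨g, hg, hη⟩)
  rw [hf'] at h0
  have := congrArg (c2 (S := S)) h0
  simp only [map_sum, map_mul, aut_c2, hη, mul_add, Finset.sum_add_distrib, map_zero] at this ⊢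
  rw [this, add_zero]

/-- A family of Artin-Schreier roots of polynomials with independent action of the decomposition
group. -/
structure Fam (p : Pl k S) (ι : Type) where
  θ : ι → S
  x_mem : ∀ i, θ i ^ 2 + θ i ∈ p.A
  σ : (ι → ZMod 2) → S ≃ₐ[RatFunc k] S
  σ_mem : ∀ γ, σ γ ∈ p.G
  σ_θ : ∀ γ i, σ γ (θ i) = θ i + c2 (γ i)

lemma exists_fam (p : Pl k S) {ι : Type} [Fintype ι] (θ : ι → S) (hx : ∀ i, θ i ^ 2 + θ i ∈ p.A)
    (h : ∀ a : ι → ZMod 2, ∑ i, c2 (a i) * θ i ∈ p.Kh → a = 0) : ∃ F : Fam p ι, F.θ = θ := by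
  choose σ h1 h2 using fun γ => exists_aut p.G θ (fun j => p.A_le_Kh (hx j)) γ
    fun a ha => by simp [h a ha]
  exact ⟨⟨θ, hx, σ, h1, h2⟩, rfl⟩

namespace Fam

variable {p : Pl k S} {ι : Type} [Fintype ι] [DecidableEq ι] (F : Fam p ι)

/-- The local field generated by the family. -/
def Lh : Subfield S where
  carrier := {u | ∀ g ∈ p.G, (∀ i, g (F.θ i) = F.θ i) → g u = u}
  mul_mem' ha hb g hg h := by rw [map_mul, ha g hg h, hb g hg h]
  one_mem' g _ _ := map_one g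
  add_mem' ha hb g hg h := by rw [map_add, ha g hg h, hb g hg h]
  zero_mem' g _ _ := map_zero g
  neg_mem' ha g hg h := by rw [map_neg, ha g hg h]
  inv_mem' a ha g hg h := by rw [map_inv₀, ha g hg h]

lemma Kh_le {u : S} (h : u ∈ p.Kh) : u ∈ F.Lh := fun g hg _ => h g hg

lemma θ_Lh (i : ι) : F.θ i ∈ F.Lh := fun _ _ h => h i

lemma O_Lh {u : S} (h : u ∈ F.Lh) : p.O u ∈ F.Lh := fun g hg h' => by rw [p.aut_O, h g hg h']

lemma D_Lh {u : S} (h : u ∈ F.Lh) : p.D u ∈ F.Lh := pow_mem (F.O_Lh h) 2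

lemma small_Lh {z : S} (h : z ^ 2 + z ∈ F.Lh) (hz : ‖z‖ < 1) : z ∈ F.Lh := fun g hg h' =>
  small_unique (by rw [← map_pow, ← map_add, h g hg h']) (by rwa [p.nm_G g hg]) hz

lemma σ_Kh (γ) {u : S} (h : u ∈ p.Kh) : F.σ γ u = u := h _ (F.σ_mem γ)

lemma eq_σ {g} (hg : g ∈ p.G) {γ} (h : ∀ i, g (F.θ i) = F.θ i + c2 (γ i)) {u : S}
    (hu : u ∈ F.Lh) : g u = F.σ γ u := by
  have := hu ((F.σ γ)⁻¹ * g) (mul_mem (inv_mem (F.σ_mem γ)) hg) fun i => by
    rw [AlgEquiv.mul_apply, h, ← F.σ_θ]; exact (F.σ γ).symm_apply_apply _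
  have h2 := congrArg (F.σ γ) this
  rwa [AlgEquiv.mul_apply, AlgEquiv.aut_inv, AlgEquiv.apply_symm_apply] at h2

lemma exists_γ {g} (hg : g ∈ p.G) : ∃ γ : ι → ZMod 2, ∀ i, g (F.θ i) = F.θ i + c2 (γ i) := by
  choose γ h using fun i => exists_c2 (u := g (F.θ i)) (v := F.θ i) (by
    rw [← map_pow, ← map_add, p.A_le_Kh (F.x_mem i) g hg])
  exact ⟨γ, h⟩

lemma σ_zero {u : S} (hu : u ∈ F.Lh) : F.σ 0 u = u :=
  hu _ (F.σ_mem 0) fun i => by simp [F.σ_θ]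

lemma σ_σ (γ δ) {u : S} (hu : u ∈ F.Lh) : F.σ γ (F.σ δ u) = F.σ (γ + δ) u :=
  F.eq_σ (mul_mem (F.σ_mem γ) (F.σ_mem δ)) (fun i => by
    simp only [AlgEquiv.mul_apply, F.σ_θ, map_add, aut_c2, Pi.add_apply, add_assoc]) hu

lemma σ_Lh (γ) {u : S} (hu : u ∈ F.Lh) : F.σ γ u ∈ F.Lh := fun g hg h =>
  F.eq_σ (mul_mem hg (F.σ_mem γ)) (fun i => by
    simp only [AlgEquiv.mul_apply, F.σ_θ, map_add, aut_c2, h]) hu

lemma mem_Kh {u : S} (hu : u ∈ F.Lh) (h : ∀ γ, F.σ γ u = u) : u ∈ p.Kh := fun g hg => by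
  obtain ⟨γ, hγ⟩ := F.exists_γ hg
  rw [F.eq_σ hg hγ hu, h]

lemma mem_Kh' {u : S} (hu : u ∈ F.Lh) (h : ∀ i, F.σ (Pi.single i 1) u = u) : u ∈ p.Kh := by
  refine F.mem_Kh hu fun γ => ?_
  induction γ using Pi.single_induction with
  | zero => exact F.σ_zero hu
  | add a b ha hb => rw [← F.σ_σ a b hu, hb, ha]
  | single i a =>
    rcases z2 a with rfl | rfl
    · simpa using F.σ_zero hu
    · exact h i

/-- The normal basis. -/
noncomputable def e (γ : ι → ZMod 2) : S := ∏ i, (F.θ i + 1 + c2 (γ i))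

lemma σ_e (γ δ) : F.σ γ (F.e δ) = F.e (γ + δ) := by
  simp only [e, map_prod, map_add, F.σ_θ, map_one, aut_c2, Pi.add_apply]
  exact Finset.prod_congr rfl fun i _ => by ring

lemma e_mem {σ : Type} [SetLike σ S] [SubringClass σ S] {T : σ} (h : ∀ i, F.θ i ∈ T) (γ) :
    F.e γ ∈ T :=
  prod_mem fun i _ => add_mem (add_mem (h i) (one_mem _)) (c2_mem T _)

lemma e_Lh (γ) : F.e γ ∈ F.Lh := F.e_mem F.θ_Lh γ

lemma sum_prod_z2 (f : ι → ZMod 2 → S) :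
    ∑ γ : ι → ZMod 2, ∏ i, f i (γ i) = ∏ i, (f i 0 + f i 1) := by
  rw [← Fintype.piFinset_univ, ← Finset.prod_univ_sum]
  exact Finset.prod_congr rfl fun i _ => Fin.sum_univ_two _

lemma prod_delta (γ δ : ι → ZMod 2) :
    ∏ i, (c2 (γ i) + c2 (δ i) + 1 : S) = if γ = δ then 1 else 0 := by
  split_ifs with h
  · simp [h, CharTwo.add_self_eq_zero]
  · obtain ⟨i, hi⟩ := Function.ne_iff.1 h
    refine Finset.prod_eq_zero (Finset.mem_univ i) ?_
    rcases z2 (γ i) with h1 | h1 <;> rcases z2 (δ i) with h2 | h2 <;>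
      simp_all [CharTwo.add_self_eq_zero]

lemma sum_e_e (γ δ : ι → ZMod 2) : ∑ η, F.e (η + γ) * F.e (η + δ) = if γ = δ then 1 else 0 := by
  simp only [e, ← Finset.prod_mul_distrib, Pi.add_apply]
  rw [sum_prod_z2 (fun i s => (F.θ i + 1 + c2 (s + γ i)) * (F.θ i + 1 + c2 (s + δ i))),
    ← prod_delta]
  exact Finset.prod_congr rfl fun i _ => by simp only [map_add, map_zero, map_one]; grind

lemma sum_e : ∑ γ, F.e γ = 1 := by
  simp only [e]
  rw [sum_prod_z2 (fun i s => F.θ i + 1 + c2 s)]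
  exact Finset.prod_eq_one fun i _ => by simp only [map_zero, map_one]; grind

/-- The trace. -/
noncomputable def Tr : S →+ S where
  toFun u := ∑ γ, F.σ γ u
  map_zero' := by simp
  map_add' u v := by simp [Finset.sum_add_distrib]

lemma Tr_apply (u : S) : F.Tr u = ∑ γ, F.σ γ u := rfl

/-- The coordinates with respect to the normal basis. -/
noncomputable def co (γ : ι → ZMod 2) : S →+ S := F.Tr.comp (AddMonoidHom.mulRight (F.e γ))

lemma co_apply (γ) (u : S) : F.co γ u = F.Tr (u * F.e γ) := rfl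

lemma Tr_σ (γ) {u : S} (hu : u ∈ F.Lh) : F.Tr (F.σ γ u) = F.Tr u := by
  simp only [Tr_apply, F.σ_σ _ _ hu]
  exact Equiv.sum_comp (Equiv.addRight γ) fun η => F.σ η u

lemma Tr_Kh {u : S} (hu : u ∈ F.Lh) : F.Tr u ∈ p.Kh :=
  F.mem_Kh (sum_mem fun γ _ => F.σ_Lh γ hu) fun γ => by
    simp only [Tr_apply, map_sum, F.σ_σ _ _ hu]
    exact Equiv.sum_comp (Equiv.addLeft γ) fun η => F.σ η u

lemma Tr_mul {a : S} (ha : a ∈ p.Kh) (u : S) : F.Tr (a * u) = a * F.Tr u := by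
  simp only [Tr_apply, map_mul, F.σ_Kh _ ha, Finset.mul_sum]

lemma Tr_O (u : S) : F.Tr (p.O u) = p.O (F.Tr u) := by
  simp only [Tr_apply, p.aut_O, p.O_sum]

lemma co_Kh (γ) {u : S} (hu : u ∈ F.Lh) : F.co γ u ∈ p.Kh := F.Tr_Kh (mul_mem hu (F.e_Lh γ))

lemma co_mul_left (γ) {a : S} (ha : a ∈ p.Kh) (u : S) : F.co γ (a * u) = a * F.co γ u := by
  rw [co_apply, mul_assoc, F.Tr_mul ha, co_apply]

lemma co_e (γ δ) : F.co γ (F.e δ) = if δ = γ then 1 else 0 := by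
  simp only [co_apply, Tr_apply, map_mul, σ_e, sum_e_e]

lemma co_one (γ) : F.co γ 1 = 1 := by
  simp only [← F.sum_e, map_sum, co_e]; simp

lemma co_const (γ) {a : S} (ha : a ∈ p.Kh) : F.co γ a = a := by
  rw [← mul_one a, F.co_mul_left γ ha, co_one]

lemma co_sum (γ) {a : (ι → ZMod 2) → S} (ha : ∀ δ, a δ ∈ p.Kh) :
    F.co γ (∑ δ, a δ * F.e δ) = a γ := by
  simp [map_sum, F.co_mul_left γ (ha _), co_e]

lemma sum_co {u : S} (hu : u ∈ F.Lh) : ∑ γ, F.co γ u * F.e γ = u := by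
  simp only [co_apply, Tr_apply, map_mul, σ_e, Finset.sum_mul, mul_assoc]
  rw [Finset.sum_comm]
  have : ∀ η, ∑ γ, F.e (η + γ) * F.e γ = if η = 0 then 1 else 0 := fun η => by
    simpa [add_comm] using F.sum_e_e η 0
  simp [← Finset.mul_sum, this, F.σ_zero hu]

lemma sum_Lh {a : (ι → ZMod 2) → S} (ha : ∀ δ, a δ ∈ p.Kh) : ∑ δ, a δ * F.e δ ∈ F.Lh :=
  sum_mem fun γ _ => mul_mem (F.Kh_le (ha γ)) (F.e_Lh γ)

lemma ext_co {u v : S} (hu : u ∈ F.Lh) (hv : v ∈ F.Lh) (h : ∀ γ, F.co γ u = F.co γ v) : u = v := by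
  rw [← F.sum_co hu, ← F.sum_co hv]; simp only [h]

lemma co_σ (γ δ) {u : S} (hu : u ∈ F.Lh) : F.co γ (F.σ δ u) = F.co (γ + δ) u := by
  rw [co_apply, co_apply, ← F.Tr_σ δ (mul_mem hu (F.e_Lh _)), map_mul (F.σ δ), σ_e]
  congr 3
  ext i
  simp [add_comm (γ i), ← add_assoc, CharTwo.add_self_eq_zero]

lemma Tr_mul_eq {u : S} (hu : u ∈ F.Lh) (v : S) : F.Tr (u * v) = ∑ γ, F.co γ u * F.co γ v := by
  conv_lhs => rw [← F.sum_co hu, Finset.sum_mul, map_sum]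
  exact Finset.sum_congr rfl fun γ _ => by
    rw [mul_assoc, F.Tr_mul (F.co_Kh γ hu), mul_comm (F.e γ), ← co_apply]

lemma Tr_eq_sum (v : S) : F.Tr v = ∑ γ, F.co γ v := by
  simpa [co_one] using F.Tr_mul_eq (one_mem _) v

lemma θ_mul_e (i : ι) (γ) : F.θ i * F.e γ = (F.θ i ^ 2 + F.θ i + c2 (γ i)) * F.e γ +
    (F.θ i ^ 2 + F.θ i) * F.e (γ + Pi.single i 1) := by
  simp only [e, ← Finset.mul_prod_erase _ _ (Finset.mem_univ i)]
  have h : ∏ j ∈ Finset.univ.erase i, (F.θ j + 1 + c2 (γ j + (Pi.single i 1 : ι → ZMod 2) j)) =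
      ∏ j ∈ Finset.univ.erase i, (F.θ j + 1 + c2 (γ j)) :=
    Finset.prod_congr rfl fun j hj => by simp [Finset.ne_of_mem_erase hj]
  have := c2_sq (S := S) (γ i)
  simp only [Pi.add_apply, h]
  simp only [Pi.single_eq_same, map_add, map_one]
  grind

lemma co_θ (γ) (i : ι) {u : S} (hu : u ∈ F.Lh) (h : F.σ (Pi.single i 1) u = u) :
    F.co γ (F.θ i * u) = c2 (γ i) * F.co γ u := by
  have hx := p.A_le_Kh (F.x_mem i)
  rw [co_apply, mul_right_comm, θ_mul_e, add_mul, map_add, mul_assoc, mul_assoc, F.Tr_mul hx,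
    F.Tr_mul (add_mem hx (c2_mem _ _)), mul_comm (F.e _), mul_comm (F.e _), ← co_apply, ← co_apply,
    ← F.co_σ _ _ hu, h]
  grind

/-- The ring generated by the family over a base ring. -/
def Span (T : Subring S) : Subring S := Subring.closure (T ∪ Set.range F.θ)

lemma le_Span {T : Subring S} {u : S} (h : u ∈ T) : u ∈ F.Span T :=
  Subring.subset_closure (Or.inl h)

lemma θ_Span (T : Subring S) (i : ι) : F.θ i ∈ F.Span T := Subring.subset_closure (Or.inr ⟨i, rfl⟩)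

lemma mem_Span {T : Subring S} (hA : p.A ≤ T) (hT : T ≤ p.Kh.toSubring) {u : S} :
    u ∈ F.Span T ↔ u ∈ F.Lh ∧ ∀ γ, F.co γ u ∈ T := by
  refine ⟨fun hu => ?_, fun ⟨h1, h2⟩ => F.sum_co h1 ▸
    sum_mem fun γ _ => mul_mem (F.le_Span (h2 γ)) (F.e_mem (F.θ_Span T) γ)⟩
  have key : u ∈ F.Lh ∧ ∀ v ∈ F.Lh, (∀ γ, F.co γ v ∈ T) → ∀ γ, F.co γ (u * v) ∈ T := by
    induction hu using Subring.closure_induction with
    | mem x hx =>
      rcases hx with hx | ⟨i, rfl⟩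
      · exact ⟨F.Kh_le (hT hx), fun v _ h γ => F.co_mul_left γ (hT hx) v ▸ mul_mem hx (h γ)⟩
      · refine ⟨F.θ_Lh i, fun v hv h γ => ?_⟩
        have hx := p.A_le_Kh (F.x_mem i)
        rw [co_apply, mul_right_comm, θ_mul_e, add_mul, map_add, mul_assoc, mul_assoc, F.Tr_mul hx,
          F.Tr_mul (add_mem hx (c2_mem _ _)), mul_comm (F.e _), mul_comm (F.e _)]
        exact add_mem (mul_mem (add_mem (hA (F.x_mem i)) (c2_mem _ _)) (h _))
          (mul_mem (hA (F.x_mem i)) (h _))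
    | zero => exact ⟨zero_mem _, fun v _ _ γ => by simp⟩
    | one => exact ⟨one_mem _, fun v _ h γ => by simpa using h γ⟩
    | add x y _ _ hx hy => exact ⟨add_mem hx.1 hy.1, fun v hv h γ => by
        rw [add_mul, map_add]; exact add_mem (hx.2 v hv h γ) (hy.2 v hv h γ)⟩
    | neg x _ hx => rwa [CharTwo.neg_eq]
    | mul x y _ _ hx hy => exact ⟨mul_mem hx.1 hy.1, fun v hv h γ => by
        rw [mul_assoc]; exact hx.2 _ (mul_mem hy.1 hv) (hy.2 v hv h) γ⟩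
  exact ⟨key.1, fun γ => by simpa using key.2 1 (one_mem _) (by simp [co_one]) γ⟩

/-- The ring of integers. -/
noncomputable def R : Subring S := F.Span p.A

/-- The global field generated by the family. -/
noncomputable def L : IntermediateField (RatFunc k) S :=
  IntermediateField.adjoin (RatFunc k) (Set.range F.θ)

lemma mem_R {u : S} : u ∈ F.R ↔ u ∈ F.Lh ∧ ∀ γ, F.co γ u ∈ p.A :=
  F.mem_Span le_rfl fun _ h => p.A_le_Kh h

lemma mem_L {u : S} : u ∈ F.L ↔ u ∈ F.Lh ∧ ∀ γ, F.co γ u ∈ p.K := by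
  rw [← IntermediateField.mem_toSubalgebra, L, IntermediateField.adjoin_toSubalgebra_of_isAlgebraic
    fun x _ => Algebra.IsAlgebraic.isAlgebraic x, ← Subalgebra.mem_toSubring,
    Algebra.adjoin_eq_ring_closure]
  exact F.mem_Span (T := p.K.toSubring) (fun _ h => p.A_le_K h) fun _ h => p.K_le_Kh h

lemma A_le_R {u : S} (h : u ∈ p.A) : u ∈ F.R := F.le_Span h

lemma φ_R (f : k[X]) : p.φ f ∈ F.R := F.A_le_R (p.φ_mem f)

lemma θ_R (i : ι) : F.θ i ∈ F.R := F.θ_Span _ i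

lemma e_R (γ) : F.e γ ∈ F.R := F.e_mem F.θ_R γ

lemma R_Lh {u : S} (h : u ∈ F.R) : u ∈ F.Lh := (F.mem_R.1 h).1

lemma L_Lh {u : S} (h : u ∈ F.L) : u ∈ F.Lh := (F.mem_L.1 h).1

lemma co_A (γ) {u : S} (h : u ∈ F.R) : F.co γ u ∈ p.A := (F.mem_R.1 h).2 γ

lemma R_L {u : S} (h : u ∈ F.R) : u ∈ F.L :=
  F.mem_L.2 ⟨F.R_Lh h, fun γ => p.A_le_K (F.co_A γ h)⟩

lemma K_L {u : S} (h : u ∈ p.K) : u ∈ F.L := by
  obtain ⟨r, rfl⟩ := h; exact F.L.algebraMap_mem r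

lemma Tr_A {u : S} (h : u ∈ F.R) : F.Tr u ∈ p.A :=
  F.Tr_eq_sum u ▸ sum_mem fun γ _ => F.co_A γ h

lemma σ_R (γ) {u : S} (h : u ∈ F.R) : F.σ γ u ∈ F.R :=
  F.mem_R.2 ⟨F.σ_Lh γ (F.R_Lh h), fun δ => F.co_σ δ γ (F.R_Lh h) ▸ F.co_A _ h⟩

lemma σ_L (γ) {u : S} (h : u ∈ F.L) : F.σ γ u ∈ F.L :=
  F.mem_L.2 ⟨F.σ_Lh γ (F.L_Lh h), fun δ => F.co_σ δ γ (F.L_Lh h) ▸ (F.mem_L.1 h).2 _⟩

lemma K_of_L {u : S} (h : u ∈ F.L) (h' : u ∈ p.Kh) : u ∈ p.K :=
  F.co_const 0 h' ▸ (F.mem_L.1 h).2 0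

lemma A_of_R {u : S} (h : u ∈ F.R) (h' : u ∈ p.Kh) : u ∈ p.A := F.co_const 0 h' ▸ F.co_A 0 h

lemma mem_L_of_fixed {u : S} (h : ∀ g ∈ F.L.fixingSubgroup, g u = u) : u ∈ F.L := by
  rw [← InfiniteGalois.fixedField_fixingSubgroup F.L]
  exact fun g => h g.1 g.2

lemma fix_L {g} (hg : g ∈ F.L.fixingSubgroup) {u : S} (h : u ∈ F.L) : g u = u := hg ⟨u, h⟩

lemma O_L {u : S} (h : u ∈ F.L) : p.O u ∈ F.L :=
  F.mem_L_of_fixed fun g hg => by rw [p.aut_O, F.fix_L hg h]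

lemma E_L {u : S} (h : u ∈ F.L) : p.E u ∈ F.L :=
  F.mem_L_of_fixed fun g hg => by rw [p.aut_E, F.fix_L hg h]

lemma D_L {u : S} (h : u ∈ F.L) : p.D u ∈ F.L := pow_mem (F.O_L h) 2

lemma stab_R : p.Stab F.R := by
  refine p.stab_closure (F.A_le_R p.t_mem) ?_
  rintro u (hu | ⟨i, rfl⟩)
  · exact ⟨F.A_le_R (p.stab_A u hu).1, F.A_le_R (p.stab_A u hu).2⟩
  · have h := p.stab_A _ (F.x_mem i)
    rw [p.E_add, p.O_add, (p.EO_sq _).1, p.O_sq, zero_add] at h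
    refine ⟨?_, F.A_le_R h.2⟩
    rw [show p.E (F.θ i) = F.θ i + (F.θ i + p.E (F.θ i)) by grind]
    exact add_mem (F.θ_R i) (F.A_le_R h.1)

lemma O_R {u : S} (h : u ∈ F.R) : p.O u ∈ F.R := (F.stab_R u h).2

lemma exists_den {u : S} (h : u ∈ F.L) : ∃ d : k[X], d ≠ 0 ∧ p.φ d * u ∈ F.R := by
  choose n d hd he using fun γ => p.mem_K_iff.1 ((F.mem_L.1 h).2 γ)
  refine ⟨∏ γ, d γ, Finset.prod_ne_zero_iff.2 fun γ _ => hd γ, F.mem_R.2
    ⟨mul_mem (F.Kh_le (p.φ_Kh _)) (F.L_Lh h), fun γ => ?_⟩⟩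
  rw [F.co_mul_left γ (p.φ_Kh _), he, ← Finset.prod_erase_mul _ _ (Finset.mem_univ γ), map_mul,
    mul_assoc, mul_div_cancel₀ _ (p.φ_ne (hd γ))]
  exact mul_mem (p.φ_mem _) (p.φ_mem _)

lemma L_of_den {d : k[X]} (hd : d ≠ 0) {u : S} (h : p.φ d * u ∈ F.R) : u ∈ F.L := by
  have := div_mem (F.R_L h) (F.R_L (F.φ_R d))
  rwa [mul_div_cancel_left₀ _ (p.φ_ne hd)] at this

/-- Devissage along the tower of quadratic extensions. -/
lemma devissage (f : S →+ S) (hf : ∀ γ u, F.σ γ (f u) = f (F.σ γ u)) (U W : AddSubgroup S)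
    (hU : ∀ u ∈ U, u ∈ F.Lh) (hUσ : ∀ γ, ∀ u ∈ U, F.σ γ u ∈ U) (hWσ : ∀ γ, ∀ u ∈ W, F.σ γ u ∈ W)
    (hUθ : ∀ i, ∀ u ∈ U, F.θ i * u ∈ U) (hWθ : ∀ i, ∀ u ∈ W, F.θ i * u ∈ W)
    (hfU : ∀ u ∈ U, f u ∈ U) (hfW : ∀ u ∈ W, f u ∈ W) (hWU : W ≤ U)
    (inj : ∀ u ∈ U, u ∈ p.Kh → f u ∈ W → u ∈ W)
    (surj : ∀ v ∈ U, v ∈ p.Kh → ∃ u ∈ U, u ∈ p.Kh ∧ f u + v ∈ W) :
    (∀ u ∈ U, f u ∈ W → u ∈ W) ∧ ∀ v ∈ U, ∃ u ∈ U, f u + v ∈ W := by
  let I : Finset ι → S → Prop := fun T u => ∀ j ∉ T, F.σ (Pi.single j 1) u = u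
  have hs : ∀ (i : ι) u, u ∈ U → F.σ (Pi.single i 1) (F.σ (Pi.single i 1) u) = u := fun i u hu => by
    rw [F.σ_σ _ _ (hU u hu), ← Pi.single_add, show (1 + 1 : ZMod 2) = 0 from rfl, Pi.single_zero,
      F.σ_zero (hU u hu)]
  have h1 : ∀ T i u, u ∈ U → I (insert i T) u → I T (u + F.σ (Pi.single i 1) u) := by
    intro T i u hu h j hj
    by_cases hji : j = i
    · rw [hji, map_add, hs i u hu, add_comm]
    · have := h j (by simp [hji, hj])
      rw [map_add, F.σ_σ _ _ (hU u hu), add_comm (Pi.single j 1), ← F.σ_σ _ _ (hU u hu), this]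
  have key : ∀ T : Finset ι, (∀ u ∈ U, I T u → f u ∈ W → u ∈ W) ∧
      ∀ v ∈ U, I T v → ∃ u ∈ U, I T u ∧ f u + v ∈ W := by
    intro T
    induction T using Finset.induction_on with
    | empty =>
      refine ⟨fun u hu h => inj u hu (F.mem_Kh' (hU u hu) fun i => h i (by simp)), fun v hv h => ?_⟩
      obtain ⟨u, hu, h2, h3⟩ := surj v hv (F.mem_Kh' (hU v hv) fun i => h i (by simp))
      exact ⟨u, hu, fun j _ => F.σ_Kh _ h2, h3⟩
    | insert i T hi ih =>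
      have hθ : ∀ j, F.σ (Pi.single j 1) (F.θ i) = F.θ i + if j = i then 1 else 0 := fun j => by
        rw [F.σ_θ, Pi.single_apply]; simp [eq_comm, apply_ite]
      have h2 : ∀ u w, I (insert i T) u → I T w → F.σ (Pi.single i 1) u = u + w →
          I T (u + F.θ i * w) := by
        intro u w h hw he j hj
        rw [map_add, map_mul, hθ, hw j hj]
        split_ifs with hji
        · rw [hji, he]; grind
        · rw [h j (by simp [hji, hj]), add_zero]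
      constructor
      · intro u hu h hW
        have hw := ih.1 _ (add_mem hu (hUσ _ _ hu)) (h1 T i u hu h) (by
          rw [map_add, ← hf]; exact add_mem hW (hWσ _ _ hW))
        have h3 := ih.1 _ (add_mem hu (hWU (hWθ i _ hw))) (h2 u _ h (h1 T i u hu h) (by grind)) (by
          rw [map_add]; exact add_mem hW (hfW _ (hWθ i _ hw)))
        have := add_mem h3 (hWθ i _ hw)
        rwa [add_assoc, CharTwo.add_self_eq_zero, add_zero] at this
      · intro v hv h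
        obtain ⟨u, hu, hI, hw⟩ := ih.2 _ (add_mem hv (hUσ _ _ hv)) (h1 T i v hv h)
        have hIw : I T (f u + (v + F.σ (Pi.single i 1) v)) := fun j hj => by
          rw [map_add, hf, hI j hj, h1 T i v hv h j hj]
        have hθu : I (insert i T) (F.θ i * u) := fun j hj => by
          simp only [Finset.mem_insert, not_or] at hj
          rw [map_mul, hθ, if_neg hj.1, add_zero, hI j hj.2]
        obtain ⟨u', hu', hI', hw'⟩ := ih.2 _ (add_mem (add_mem hv (hfU _ (hUθ i _ hu)))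
          (hUθ i _ (hWU hw))) (h2 _ _ (fun j hj => by rw [map_add, h j hj, hf, hθu j hj]) hIw (by
            rw [map_add, hf, map_mul, hθ, if_pos rfl, hI i hi, add_mul, one_mul, map_add]; grind))
        refine ⟨u' + F.θ i * u, add_mem hu' (hUθ i _ hu), fun j hj => by
          rw [map_add, hθu j hj, hI' j fun h => hj (Finset.mem_insert_of_mem h)], ?_⟩
        have := add_mem hw' (hWθ i _ hw)
        rw [map_add]
        convert this using 1
        grind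
  exact ⟨fun u hu => (key Finset.univ).1 u hu (by simp [I]), fun v hv =>
    ((key Finset.univ).2 v hv (by simp [I])).imp fun u h => ⟨h.1, h.2.2⟩⟩

lemma wp_bij : (∀ z ∈ F.Lh, z ^ 2 + z ∈ F.R → z ∈ F.R) ∧
    ∀ v ∈ F.Lh, ∃ z ∈ F.Lh, z ^ 2 + z + v ∈ F.R :=
  F.devissage ⟨⟨fun z => z ^ 2 + z, by simp⟩, fun a b => by grind⟩ (fun γ u => by simp)
    F.Lh.toAddSubgroup F.R.toAddSubgroup (fun _ h => h) (fun γ _ h => F.σ_Lh γ h)
    (fun γ _ h => F.σ_R γ h) (fun i _ h => F.Lh.mul_mem (F.θ_Lh i) h)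
    (fun i _ h => F.R.mul_mem (F.θ_R i) h) (fun _ h => F.Lh.add_mem (F.Lh.pow_mem h 2) h)
    (fun _ h => F.R.add_mem (F.R.pow_mem h 2) h) (fun _ h => F.R_Lh h)
    (fun u _ h h' => F.A_le_R (p.wp_inj h (F.A_of_R h' (add_mem (pow_mem h 2) h))))
    (fun v _ h => (p.wp_surj h).imp fun z hz => ⟨F.Kh_le hz.1, hz.1, F.A_le_R hz.2⟩)

lemma oneO_bij : (∀ r ∈ F.R, r + p.O r = 0 → r = 0) ∧ ∀ v ∈ F.R, ∃ r ∈ F.R, r + p.O r = v := by
  have := F.devissage (AddMonoidHom.id S + p.Oh) (fun γ u => by simp [Pl.Oh, p.aut_O])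
    F.R.toAddSubgroup ⊥ (fun _ h => F.R_Lh h) (fun γ _ h => F.σ_R γ h) (by simp)
    (fun i _ h => F.R.mul_mem (F.θ_R i) h) (by simp) (fun _ h => add_mem h (F.O_R h)) (by simp) bot_le
    (fun u h h' => p.oneO_inj (F.A_of_R h h'))
    (fun v h h' => (p.oneO_surj (F.A_of_R h h')).imp fun r hr => ⟨F.A_le_R hr.1, p.A_le_Kh hr.1, by
      change r + p.O r + v = 0
      grind⟩)
  refine ⟨this.1, fun v hv => (this.2 v hv).imp fun r hr => ⟨hr.1, ?_⟩⟩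
  have : r + p.O r + v = 0 := hr.2
  grind

lemma D_bound : ∃ C : ℝ, 0 < C ∧ ∀ u ∈ F.Lh, ‖p.D u‖ ≤ C * ‖u‖ := by
  let B : ℝ := 1 + ∑ γ, (‖F.e γ‖ + ‖p.D (F.e γ)‖)
  have hB : ∀ γ, ‖F.e γ‖ ≤ B ∧ ‖p.D (F.e γ)‖ ≤ B := fun γ => by
    have := Finset.single_le_sum (f := fun γ => ‖F.e γ‖ + ‖p.D (F.e γ)‖)
      (fun _ _ => by positivity) (Finset.mem_univ γ)
    constructor <;> linarith [norm_nonneg (F.e γ), norm_nonneg (p.D (F.e γ))]
  have hB0 : 0 < B := by positivity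
  refine ⟨B * B, by positivity, fun u hu => ?_⟩
  have h1 : ∀ γ, ‖F.co γ u‖ ≤ B * ‖u‖ := fun γ =>
    IsUltrametricDist.norm_sum_le_of_forall_le_of_nonneg (by positivity) fun δ _ => by
      rw [p.nm_G _ (F.σ_mem δ), AddMonoidHom.mulRight_apply, norm_mul, mul_comm]
      gcongr
      exact (hB γ).1
  conv_lhs => rw [← F.sum_co hu]
  refine Finset.sum_induction _ (fun v => ‖p.D v‖ ≤ B * B * ‖u‖)
    (fun a b ha hb => p.D_add a b ▸ nadd_le ha hb) (by simp; positivity) fun γ _ => ?_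
  rw [p.D_mul]
  refine nadd_le ?_ ?_ <;> rw [norm_mul, mul_assoc]
  · rw [mul_comm]; gcongr; exacts [(hB γ).2, h1 γ]
  · gcongr; exacts [(hB γ).1, (p.D_le (F.co_Kh γ hu)).trans (h1 γ)]

/-- `a` is far from being split at infinity. -/
def Deep (ρ : ℝ) (a : S) : Prop := ∀ z ∈ F.Lh, ρ < ‖a + (z ^ 2 + z)‖

lemma Deep.mono {F : Fam p ι} {ρ ρ' : ℝ} {a : S} (h : F.Deep ρ a) (h' : ρ' ≤ ρ) : F.Deep ρ' a :=
  fun z hz => h'.trans_lt (h z hz)

lemma Deep.shift {F : Fam p ι} {ρ : ℝ} {a Θ : S} (h : F.Deep ρ a) (hΘ : Θ ∈ F.Lh) :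
    F.Deep ρ (a + (Θ ^ 2 + Θ)) := fun z hz => by
  rw [show a + (Θ ^ 2 + Θ) + (z ^ 2 + z) = a + ((Θ + z) ^ 2 + (Θ + z)) by grind]
  exact h _ (add_mem hΘ hz)

lemma exists_deep {ρ : ℝ} (hρ : 1 ≤ ρ) :
    ∃ C : ℝ, ∀ a ∈ F.Lh, C * max 1 ‖a‖ < ‖p.D a‖ ^ 2 → F.Deep ρ a := by
  obtain ⟨C, hC, h⟩ := F.D_bound
  refine ⟨C ^ 2 * ρ ^ 2, fun a ha h1 z hz => lt_of_not_ge fun h2 => h1.not_ge ?_⟩
  have m1 : 1 ≤ max 1 ‖a‖ := le_max_left _ _
  have m2 : ‖a‖ ≤ max 1 ‖a‖ := le_max_right _ _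
  have r2 : ρ ≤ ρ ^ 2 := by nlinarith
  have h3 : ‖z‖ ^ 2 ≤ ρ ^ 2 * max 1 ‖a‖ := by
    by_cases h4 : ‖z‖ ≤ 1
    · exact (pow_le_one₀ (norm_nonneg _) h4).trans (by nlinarith)
    · rw [← norm_pow, ← nadd_eq (v := z) (by rw [norm_pow]; nlinarith),
        show z ^ 2 + z = a + (z ^ 2 + z) + a by grind]
      exact nadd_le (h2.trans (by nlinarith)) (by nlinarith)
  have h4 : p.D a = p.D (a + (z ^ 2 + z)) + p.D z := by
    simp only [p.D_add, p.D_sq]; grind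
  have h5 := h _ (add_mem ha (add_mem (pow_mem hz 2) hz))
  have h6 : ‖p.D a‖ ≤ C * max ρ ‖z‖ := h4 ▸ nadd_le
    (h5.trans (by gcongr; exact h2.trans (le_max_left _ _)))
    ((h z hz).trans (by gcongr; exact le_max_right _ _))
  refine (pow_le_pow_left₀ (norm_nonneg _) h6 2).trans ?_
  rw [mul_pow, mul_assoc]
  gcongr
  rcases max_choice ρ ‖z‖ with h7 | h7 <;> rw [h7]
  · nlinarith
  · exact h3

/-- All Artin-Schreier polynomials of the family are divisible by `n`. -/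
def Dv (n : k[X]) : Prop := ∀ i, ∃ a ∈ p.A, F.θ i ^ 2 + F.θ i = p.φ n * a

lemma Dv.mono {F : Fam p ι} {n m : k[X]} (h : F.Dv n) (hm : m ∣ n) : F.Dv m := fun i => by
  obtain ⟨a, ha, h⟩ := h i
  obtain ⟨c, rfl⟩ := hm
  exact ⟨p.φ c * a, mul_mem (p.φ_mem c) ha, by rw [h, map_mul, mul_assoc]⟩

lemma e_mul_e {n : k[X]} (h : F.Dv n) (γ δ) :
    ∃ r ∈ F.R, F.e γ * F.e δ = (if γ = δ then F.e γ else 0) + p.φ n * r := by
  have hm : ∀ (γ : ι → ZMod 2) i, F.θ i + 1 + c2 (γ i) ∈ F.R := fun γ i =>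
    add_mem (add_mem (F.θ_R i) (one_mem _)) (c2_mem _ _)
  split_ifs with hγ
  · subst hγ
    simp only [e, ← Finset.prod_mul_distrib]
    induction (Finset.univ : Finset ι) using Finset.induction_on with
    | empty => exact ⟨0, zero_mem _, by simp⟩
    | insert i T hi ih =>
      obtain ⟨r, hr, ih⟩ := ih
      obtain ⟨a, ha, h⟩ := h i
      have := c2_sq (S := S) (γ i)
      refine ⟨a * ∏ j ∈ T, (F.θ j + 1 + c2 (γ j)) + (F.θ i + 1 + c2 (γ i)) ^ 2 * r, add_mem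
        (mul_mem (F.A_le_R ha) (prod_mem fun j _ => hm γ j)) (mul_mem (pow_mem (hm γ i) 2) hr), ?_⟩
      rw [Finset.prod_insert hi, Finset.prod_insert hi, ih]
      grind
  · obtain ⟨i, hi⟩ := Function.ne_iff.1 hγ
    obtain ⟨a, ha, h⟩ := h i
    refine ⟨a * (∏ j ∈ Finset.univ.erase i, (F.θ j + 1 + c2 (γ j))) *
      ∏ j ∈ Finset.univ.erase i, (F.θ j + 1 + c2 (δ j)), mul_mem (mul_mem (F.A_le_R ha)
      (prod_mem fun j _ => hm γ j)) (prod_mem fun j _ => hm δ j), ?_⟩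
    simp only [e, ← Finset.mul_prod_erase _ _ (Finset.mem_univ i)]
    rcases z2 (γ i) with h1 | h1 <;> rcases z2 (δ i) with h2 | h2 <;>
      simp only [h1, h2, ne_eq, not_true, map_zero, map_one] at hi ⊢ <;> grind

lemma co_den (γ) {d : k[X]} {u : S} (h : p.φ d * u ∈ F.R) : p.φ d * F.co γ u ∈ p.A :=
  F.co_mul_left γ (p.φ_Kh d) u ▸ F.co_A γ h

/-- The coordinates are multiplicative modulo integral elements. -/
lemma mul_congr {d d' : k[X]} (h : F.Dv (d * d')) {u v : S} (hu : u ∈ F.Lh) (hv : v ∈ F.Lh)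
    (hd : p.φ d * u ∈ F.R) (hd' : p.φ d' * v ∈ F.R) (γ) :
    F.co γ (u * v) + F.co γ u * F.co γ v ∈ p.A := by
  choose r hr he using F.e_mul_e h
  have : u * v = ∑ a, F.co a u * F.co a v * F.e a +
      ∑ a, ∑ b, p.φ d * F.co a u * (p.φ d' * F.co b v) * r a b := by
    conv_lhs => rw [← F.sum_co hu, ← F.sum_co hv, Finset.sum_mul_sum]
    rw [← Finset.sum_add_distrib]
    refine Finset.sum_congr rfl fun a _ => ?_
    rw [← Finset.sum_ite_eq_of_mem Finset.univ a (fun b => F.co a u * F.co b v * F.e a)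
      (Finset.mem_univ a), ← Finset.sum_add_distrib]
    refine Finset.sum_congr rfl fun b _ => ?_
    rw [mul_mul_mul_comm, he, map_mul]
    split_ifs <;> ring
  rw [this, map_add, F.co_sum γ fun a => mul_mem (F.co_Kh a hu) (F.co_Kh a hv), add_right_comm,
    CharTwo.add_self_eq_zero, zero_add]
  exact F.co_A γ (sum_mem fun a _ => sum_mem fun b _ => mul_mem
    (F.A_le_R (mul_mem (F.co_den a hd) (F.co_den b hd'))) (hr a b))

lemma O_congr {d : k[X]} (h : F.Dv d) {u : S} (hu : u ∈ F.Lh) (hd : p.φ d * u ∈ F.R) (γ) :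
    F.co γ (p.O u) + p.O (F.co γ u) ∈ p.A := by
  choose r hr he using fun a => F.e_mul_e h a a
  simp only [if_true] at he
  have : u = ∑ a, F.e a ^ 2 * F.co a u + ∑ a, p.φ d * F.co a u * r a := by
    conv_lhs => rw [← F.sum_co hu]
    rw [← Finset.sum_add_distrib]
    exact Finset.sum_congr rfl fun a _ => by have := he a; grind
  have h2 : p.O u = ∑ a, p.O (F.co a u) * F.e a + p.O (∑ a, p.φ d * F.co a u * r a) := by
    conv_lhs => rw [this, p.O_add, p.O_sum]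
    simp only [p.O_sq_mul, mul_comm (F.e _)]
  rw [h2, map_add, F.co_sum γ fun a => p.O_Kh (F.co_Kh a hu), add_right_comm,
    CharTwo.add_self_eq_zero, zero_add]
  exact F.co_A γ (F.O_R (sum_mem fun a _ => mul_mem (F.A_le_R (F.co_den a hd)) (hr a)))

end Fam

end Pool.Agent.Lib.MP_788af2_nt.G2
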