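import Pool.Agent.Lib.MP_788af2_nt.G2.Core

/-!
Averaging over all twists.
-/

set_option linter.unusedSectionVars false

namespace Pool.Agent.Lib.MP_788af2_nt.G2

open Polynomial Finset Filter Topology

variable {k : Type} [Field k] [Fintype k] [CharP k 2]

open Classical in
lemma avg {e : ℕ} {Y : Type} [Fintype Y] [Nonempty Y] (T : Y → k[X]) (hT : ∀ y, (T y).natDegree ≤ e)
    (Bad : k[X] → Prop) {c : ℝ}
    (h : ∀ f, f.natDegree ≤ e → (#{y | Bad (f + T y)} : ℝ) ≤ c * Fintype.card Y) :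
    (Set.ncard {f : k[X] | f.natDegree ≤ e ∧ Bad f} : ℝ) ≤
      c * Set.ncard {f : k[X] | f.natDegree ≤ e} := by
  have hf := Pl.finite_deg (k := k) e
  have e1 : {f : k[X] | f.natDegree ≤ e ∧ Bad f} = ↑(hf.toFinset.filter Bad) := by ext; simp
  rw [e1, Set.ncard_coe_finset, Set.ncard_eq_toFinset_card _ hf]
  have h1 : ∀ y, #(hf.toFinset.filter Bad) = #{f ∈ hf.toFinset | Bad (f + T y)} := fun y => by
    have h2 : ∀ f : k[X], f.natDegree ≤ e → (f + T y).natDegree ≤ e := fun f hf =>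
      (natDegree_add_le _ _).trans (max_le hf (hT y))
    have h3 : ∀ f : k[X], f + T y + T y = f := fun f => by
      rw [add_assoc, CharTwo.add_self_eq_zero, add_zero]
    refine card_nbij' (· + T y) (· + T y) ?_ ?_ (fun f _ => h3 f) fun f _ => h3 f <;> intro f <;>
      simp +contextual [h2, h3]
  have h2 : (0 : ℝ) < Fintype.card Y := Nat.cast_pos.2 Fintype.card_pos
  refine le_of_mul_le_mul_left ?_ h2
  calc (Fintype.card Y : ℝ) * #(hf.toFinset.filter Bad)
      = ∑ y, (#{f ∈ hf.toFinset | Bad (f + T y)} : ℝ) := by simp [← h1]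
    _ = ∑ f ∈ hf.toFinset, (#{y | Bad (f + T y)} : ℝ) := by
      simp only [card_filter, Nat.cast_sum]; exact sum_comm
    _ ≤ ∑ f ∈ hf.toFinset, c * Fintype.card Y := sum_le_sum fun f h1 => h f (by simpa using h1)
    _ = _ := by rw [sum_const, nsmul_eq_mul]; ring

variable {S : Type} [NormedField S]
  [IsUltrametricDist S] [Algebra (RatFunc k) S] [IsSepClosure (RatFunc k) S] [CharP S 2]
  [DecidableEq S] {p : Pl k S}

lemma not_deep {ι : Type} [Fintype ι] [DecidableEq ι] (F : Fam p ι) {a : S} (ha : a ∈ p.K) {ε ρ : ℝ}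
    (hρ : 1 ≤ ρ) (hε : 0 < ε) : ∀ᶠ e in atTop,
      (Set.ncard {f : k[X] | f.natDegree ≤ e ∧ ¬ F.Deep ρ (a + p.φ f)} : ℝ) ≤
        ε * Set.ncard {f : k[X] | f.natDegree ≤ e} := by
  classical
  obtain ⟨C, hC⟩ := F.exists_deep hρ
  obtain ⟨c, hc⟩ := pow_unbounded_of_one_lt (max 0 C * max 1 ‖a‖) p.t_gt
  obtain ⟨m, hm⟩ := exists_nat_gt ε⁻¹
  have hm0 : 0 < m := by exact_mod_cast (inv_pos.2 hε).trans hm
  have : Nonempty (Fin m) := ⟨⟨0, hm0⟩⟩
  have key : ∀ e (f : k[X]), f.natDegree ≤ e → ¬ F.Deep ρ (a + p.φ f) →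
      ‖p.D (a + p.φ f)‖ ^ 2 < ‖p.t‖ ^ (c + e) := fun e f hf h => by
    have h1 := not_lt.1 (mt (hC _ (F.L_Lh (F.K_L (add_mem ha (p.A_le_K (p.φ_mem f)))))) h)
    have h2 := one_le_pow₀ p.t_gt.le (n := e)
    have h3 : ‖p.φ f‖ ≤ ‖p.t‖ ^ e := by
      by_cases h0 : f = 0
      · simp [h0]
      · rw [p.norm_φ h0]; exact pow_le_pow_right₀ p.t_gt.le hf
    have h4 : max 1 ‖a + p.φ f‖ ≤ max 1 ‖a‖ * ‖p.t‖ ^ e :=
      max_le (one_le_mul_of_one_le_of_one_le (le_max_left _ _) h2) (nadd_le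
        ((le_max_right _ _).trans (le_mul_of_one_le_right (by positivity) h2))
        (h3.trans (le_mul_of_one_le_left (by positivity) (le_max_left _ _))))
    calc _ ≤ max 0 C * (max 1 ‖a‖ * ‖p.t‖ ^ e) := h1.trans (by gcongr; exact le_max_right _ _)
      _ < _ := by rw [← mul_assoc, pow_add]; gcongr
  filter_upwards [eventually_ge_atTop (c + 4 * m + 8)] with e he
  have hd : ∀ (f : k[X]) (i : ℕ), p.D (a + p.φ (f + X ^ (2 * i + 1))) =
      p.D (a + p.φ f) + (p.t ^ i) ^ 2 := fun f i => by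
    rw [map_add, ← add_assoc, p.D_add, pow_succ, mul_comm 2, pow_mul, map_mul, map_pow, map_pow,
      p.D_sq_mul, show p.D (p.φ X) = 1 from p.D_t, mul_one]; rfl
  have hT : ∀ i : Fin m, (X ^ (2 * (e / 2 - m - 1 + i) + 1) : k[X]).natDegree ≤ e := fun i => by
    rw [natDegree_X_pow]; omega
  refine avg _ hT _ fun f hf => le_trans (b := 1) ?_ (by
    rw [Fintype.card_fin]; rw [inv_lt_iff_one_lt_mul₀' hε] at hm; exact hm.le)
  norm_cast
  refine card_le_one.2 fun i hi j hj => ?_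
  wlog hij : i < j generalizing i j
  · rcases (not_lt.1 hij).eq_or_lt with h | h
    exacts [h.symm, (this j hj i hi h).symm]
  have h1 := key e _ ((natDegree_add_le _ _).trans (max_le hf (hT i))) (by simpa using hi)
  have h2 := key e _ ((natDegree_add_le _ _).trans (max_le hf (hT j))) (by simpa using hj)
  rw [hd, ← norm_pow] at h1 h2
  have h3 := nadd_lt h1 h2
  rw [← CharTwo.add_sq, add_add_add_comm, CharTwo.add_self_eq_zero, zero_add, norm_pow, nadd_eq' (by
    simp only [norm_pow, ← pow_mul]; exact pow_lt_pow_right₀ p.t_gt (by omega)), norm_pow, norm_pow,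
    ← pow_mul, ← pow_mul, pow_lt_pow_iff_right₀ p.t_gt] at h3
  omega

variable [DecidableEq (RatFunc k)]

lemma deep_bound (p : Pl k S) (a : RatFunc k) {b : RatFunc k}
    (hb : ∀ g : k[X], b ≠ algebraMap _ _ g) (hD : p.D (algebraMap _ S b) ≠ 0) {ε : ℝ} (hε : 0 < ε) :
    ∀ᶠ e in atTop, (Set.ncard {f : k[X] | f.natDegree ≤ e ∧
      2 ≤ Module.rank ℤ (wc (a + algebraMap _ _ f) b).Point} : ℝ) ≤
        (ε + ε) * Set.ncard {f : k[X] | f.natDegree ≤ e} := by
  classical
  obtain ⟨J, V, ρ, hρ, hρ', hν, ha, h⟩ := levels p a hb hD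
  obtain ⟨ι, _, _, F, hF, h'⟩ := core p V hν hε
  choose x hx using F.x_mem
  let T : (ι → ZMod 2) → k[X] := fun c => ∑ i, C (c2 (c i)) * x i
  filter_upwards [not_deep F (a := algebraMap _ S a) ⟨a, rfl⟩ hρ hε,
    eventually_ge_atTop (univ.sup fun c => (T c).natDegree)] with e h1 he
  have h2 := avg (e := e) T (fun c => (le_sup (f := fun c => (T c).natDegree) (mem_univ c)).trans he)
    (fun f => F.Deep ρ (algebraMap _ S a + p.φ f) ∧
      2 ≤ Module.rank ℤ (wc (a + algebraMap _ _ f) b).Point) (c := ε) fun f _ => by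
      have hL : ∀ c : ι → ZMod 2, ∑ i, c2 (c i) * F.θ i ∈ F.L := fun c =>
        sum_mem fun i _ => mul_mem (c2_mem _ _) (F.R_L (F.θ_R i))
      have hw : ∀ c : ι → ZMod 2, algebraMap _ S a + p.φ (f + T c) +
          ((∑ i, c2 (c i) * F.θ i) ^ 2 + ∑ i, c2 (c i) * F.θ i) = algebraMap _ S a + p.φ f := by
        intro c
        rw [Pl.wp_sum]
        simp only [T, map_add, map_sum, map_mul, p.φ_c2, hx]
        grind
      by_cases hd : F.Deep ρ (algebraMap _ S a + p.φ f)
      swap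
      · refine le_trans (b := 0) (Nat.cast_eq_zero.2 (card_eq_zero.2 (eq_empty_of_forall_notMem
          fun c hc => hd ?_))).le (by positivity)
        simp only [mem_filter, mem_univ, true_and] at hc
        exact hw c ▸ hc.1.shift (F.L_Lh (hL c))
      refine le_trans ?_ (h' (algebraMap _ S a + p.φ f) (fun j => by
        rw [mul_add]; exact add_mem (ha j) (mul_mem (p.φ_mem _) (p.φ_mem _)))
        fun j => hd.mono (hρ' j))
      norm_cast
      refine card_le_card fun c hc => mem_filter.2 ⟨mem_univ _, h ι F hF (f + T c) _ _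
        (∑ i, c2 (c i) * F.θ i) _ (hL c)
        (fun γ => ?_) ?_ (by rw [map_add]; exact (mem_filter.1 hc).2.1) (mem_filter.1 hc).2.2⟩
      · simp [aut_c2, F.σ_θ, mul_add, sum_add_distrib, dp, dotProduct]
      · rw [map_add]; exact hw c
  have hf := Pl.finite_deg (k := k) e
  rw [add_mul]
  refine le_trans ?_ (add_le_add h1 h2)
  norm_cast
  refine (Set.ncard_le_ncard (fun f hf => ?_) ((hf.subset fun f h => h.1).union
    (hf.subset fun f h => h.1))).trans (Set.ncard_union_le _ _)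
  by_cases h3 : F.Deep ρ (algebraMap _ S a + p.φ f)
  exacts [Or.inr ⟨hf.1, h3, hf.2⟩, Or.inl ⟨hf.1, h3⟩]

omit S in
theorem main (a b : RatFunc k) (hb : ∀ g : k[X], b ≠ algebraMap _ _ g) :
    Tendsto (fun e : ℕ => (Set.ncard {f : k[X] | f.natDegree ≤ e ∧
      2 ≤ Module.rank ℤ (wc (a + algebraMap _ _ f) b).Point} : ℝ) /
        Set.ncard {f : k[X] | f.natDegree ≤ e}) atTop (𝓝 0) := by
  classical
  obtain ⟨S, _, _, _, _, ⟨p⟩⟩ := exists_pl k
  have : CharP S 2 := (algebraMap (RatFunc k) S).charP_iff_charP 2 |>.1 inferInstance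
  obtain ⟨j, c, rfl, h1, h3⟩ := p.exists_root hb
  simp only [← rank_pow _ (show c ≠ 0 by simpa using h1 0)]
  refine tendsto_order.2 ⟨fun ε hε => .of_forall fun e => hε.trans_le (by positivity), fun ε hε => ?_⟩
  filter_upwards [deep_bound p a h1 h3 (show 0 < ε / 4 by positivity)] with e he
  exact (div_le_of_le_mul₀ (by positivity) (by positivity) he).trans_lt (by linarith)

end Pool.Agent.Lib.MP_788af2_nt.G2
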