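import Pool.Agent.Lib.MP_788af2_nt.G2.Curve
import Pool.Agent.Lib.MP_788af2_nt.FF.Ht

/-!
Descent by heights and rank comparisons.
-/

set_option linter.unusedSectionVars false

namespace Pool.Agent.Lib.MP_788af2_nt.G2

open Polynomial FF

lemma rank_le_of_hom {G H : Type} [AddCommGroup G] [AddCommGroup H] (f : G →+ H)
    (hf : ∀ P, f P = 0 → P + P = 0) : Module.rank ℤ G ≤ Module.rank ℤ H := by
  have h1 := LinearMap.rank_range_add_rank_ker f.toIntLinearMap
  have h2 : Module.rank ℤ (LinearMap.ker f.toIntLinearMap) = 0 := by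
    rw [rank_eq_zero_iff]
    exact fun x => ⟨2, two_ne_zero, Subtype.ext (by rw [two_smul]; exact hf x.1 x.2)⟩
  rw [← h1, h2, add_zero]
  exact Submodule.rank_le _

/-- If doubles lie in the range of an injective map, the rank is bounded by that of the source. -/
lemma rank_le_of_two {G H : Type} [AddCommGroup G] [AddCommGroup H] (f : H →+ G)
    (hf : Function.Injective f) (h : ∀ P, ∃ Q, f Q = P + P) :
    Module.rank ℤ G ≤ Module.rank ℤ H := by
  choose g hg using h
  refine rank_le_of_hom (AddMonoidHom.mk' g fun P Q => hf ?_) fun P hP => ?_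
  · rw [map_add, hg, hg, hg]; abel
  · rw [← hg, show g P = 0 from hP, map_zero]

lemma four_le_card {G H : Type} [AddCommGroup G] [AddCommGroup H] [Finite H] (Φ : G →+ H)
    (hG : AddGroup.FG G) (hk : ∀ P, Φ P = 0 → ∃ Q, P = Q + Q) (h : 2 ≤ Module.rank ℤ G) :
    4 ≤ Nat.card Φ.range := by
  have : Module.Finite ℤ G := Module.Finite.iff_addGroup_fg.2 hG
  let T := Submodule.torsion ℤ G
  let bs := Module.Free.chooseBasis ℤ (G ⧸ T)
  rw [← rank_quotient_eq_of_le_torsion (M' := T) le_rfl, rank_eq_card_basis bs] at h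
  set ι := Module.Free.ChooseBasisIndex ℤ (G ⧸ T)
  let ψ : G →+ (ι → ZMod 2) :=
    { toFun := fun P i => ((bs.repr (T.mkQ P) i : ℤ) : ZMod 2)
      map_zero' := by ext i; simp
      map_add' := by intro P Q; ext i; simp }
  have hsurj : Function.Surjective ψ := by
    intro v
    obtain ⟨P, hP⟩ := T.mkQ_surjective (bs.equivFun.symm fun i => ((v i).val : ℤ))
    refine ⟨P, ?_⟩
    ext i
    show ((bs.repr (T.mkQ P) i : ℤ) : ZMod 2) = v i
    rw [hP, ← Module.Basis.equivFun_apply, LinearEquiv.apply_symm_apply]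
    simp
  have hker : Φ.ker ≤ ψ.ker := by
    intro P hP
    obtain ⟨Q, rfl⟩ := hk P hP
    rw [AddMonoidHom.mem_ker, map_add]
    ext i
    exact CharTwo.add_self_eq_zero _
  have h1 : Nat.card Φ.range = Φ.ker.index := (AddSubgroup.index_ker Φ).symm
  have h2 : ψ.ker.index = 2 ^ Fintype.card ι := by
    rw [AddSubgroup.index_ker, AddMonoidHom.range_eq_top.2 hsurj]
    simp
  have h3 : ψ.ker.index ≤ Φ.ker.index :=
    Nat.le_of_dvd (h1 ▸ Nat.card_pos) (AddSubgroup.index_dvd_of_le hker)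
  have h4 : 2 ^ 2 ≤ 2 ^ Fintype.card ι := Nat.pow_le_pow_right two_pos (by exact_mod_cast h)
  omega

section Frob

variable {F : Type} [Field F] [CharP F 2] [DecidableEq F] {a B B' : F}

/-- The Frobenius isogeny. -/
noncomputable def frob (a : F) (hB : B ^ 2 = B') (h0 : B' ≠ 0) :
    (wc a B).Point →+ (wc a B').Point :=
  hm (frobenius F 2) a (by rw [frobenius_def]; grind) hB h0

lemma On.sqrt (hB : B ^ 2 = B') {s r y : F} (h : On a B' (s ^ 2) y) (hr : r ^ 2 = y + a * s ^ 2) :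
    On a B s r := by
  unfold On at h ⊢
  apply frobenius_inj F 2
  simp only [frobenius_def]
  grind

lemma rank_frob (a : F) (hB : B ^ 2 = B') (h0 : B' ≠ 0) :
    Module.rank ℤ (wc a B).Point = Module.rank ℤ (wc a B').Point := by
  have hi : Function.Injective (frob a hB h0) := hm_inj _ _ _ _ _
  have h1 : B ≠ 0 := by rintro rfl; simp [← hB] at h0
  refine le_antisymm (rank_le_of_hom _ fun P hP => by
    rw [(injective_iff_map_eq_zero _).1 hi P hP, add_zero]) (rank_le_of_two _ hi fun P => ?_)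
  rcases pt_cases P with rfl | ⟨x, y, h⟩
  · exact ⟨0, by simp⟩
  by_cases hx : x = 0
  · exact ⟨0, by rw [h.add_zero h rfl (by simp [hx]), map_zero]⟩
  have h2 := h.add h (l := x + y / x) (Or.inr ⟨rfl, rfl, hx, by field_simp⟩)
  have h3 := h.on
  unfold On at h3
  have e : (x + y / x) ^ 2 + (x + y / x) + a + x + x = (x + B / x) ^ 2 := by field_simp; grind
  have e' : (x + (x + y / x + (x + B / x) + 1) * (x + B / x)) ^ 2 = (x + y / x) *
      ((x + y / x) ^ 2 + (x + y / x) + a + x) + y + (x + B / x) ^ 2 + a * (x + B / x) ^ 2 := by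
    have : y = x * (x + y / x) + x ^ 2 := by field_simp; grind
    generalize x + y / x = l at *
    generalize x + B / x = s at *
    grind
  rw [e] at h2
  obtain ⟨R, hR⟩ := exists_at h1 (h2.on.sqrt hB e')
  refine ⟨R, (hR.hm _ _ _ _ _).ext ?_⟩
  rwa [frobenius_def, frobenius_def, e', add_assoc, CharTwo.add_self_eq_zero, add_zero]

end Frob

variable {k : Type} [Field k] [Fintype k] [CharP k 2]

lemma num_eq (x : RatFunc k) :
    algebraMap k[X] (RatFunc k) x.num = algebraMap k[X] (RatFunc k) x.denom * x := by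
  have h := RatFunc.num_div_denom x
  rw [div_eq_iff (RatFunc.algebraMap_ne_zero x.denom_ne_zero)] at h
  rw [h, mul_comm]

lemma ht_root {c₂ c₁ c₀ : k[X]} {m : ℕ} (h0 : c₂ ≠ 0) (h2 : c₂.natDegree ≤ m)
    (h1 : c₁.natDegree ≤ m) (h : c₀.natDegree ≤ m) {T : RatFunc k}
    (e : algebraMap k[X] _ c₂ * T ^ 2 + algebraMap k[X] _ c₁ * T + algebraMap k[X] _ c₀ = 0) :
    ht T ≤ m := by
  have e1 : c₂ * T.num ^ 2 + c₁ * T.num * T.denom + c₀ * T.denom ^ 2 = 0 :=
    RatFunc.algebraMap_injective k (by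
      simp only [map_add, map_mul, map_pow, num_eq, map_zero]
      linear_combination (algebraMap k[X] (RatFunc k) T.denom) ^ 2 * e)
  have hc := RatFunc.isCoprime_num_denom T
  refine max_le ?_ ((natDegree_le_of_dvd ((hc.symm.pow_right (n := 2)).dvd_of_dvd_mul_right
    ⟨-(c₁ * T.num + c₀ * T.denom), by linear_combination e1⟩) h0).trans h2)
  by_cases hn : T.num = 0
  · simp [hn]
  by_cases h3 : c₀ = 0
  · have e2 : c₂ * T.num + c₁ * T.denom = 0 :=
      mul_right_cancel₀ hn (by rw [h3] at e1; linear_combination e1)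
    refine (natDegree_le_of_dvd (hc.dvd_of_dvd_mul_right ⟨-c₂, by linear_combination e2⟩) ?_).trans h1
    rintro rfl
    exact mul_ne_zero h0 hn (by simpa using e2)
  · exact (natDegree_le_of_dvd ((hc.pow_right (n := 2)).dvd_of_dvd_mul_right
      ⟨-(c₁ * T.denom + c₂ * T.num), by linear_combination e1⟩) h3).trans h

instance : CharP (RatFunc k) 2 := algebraMap k (RatFunc k) |>.charP_iff_charP 2 |>.1 inferInstance

variable [DecidableEq (RatFunc k)] {a b : RatFunc k}

lemma At.hP {P : (wc a b).Point} {x y : RatFunc k} (h : At P x y) : hP P = ht x := by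
  obtain ⟨h, rfl⟩ := h; rfl

lemma hP_add (Q : (wc a b).Point) : ∃ C : ℕ, ∀ P, hP (Q + P) ≤ 2 * hP P + C := by
  refine ⟨2 * hP Q + ht b + hP (Q + Q), fun P => ?_⟩
  rcases pt_cases P with rfl | ⟨x₂, y₂, h₂⟩
  · rw [add_zero]; omega
  rcases pt_cases Q with rfl | ⟨x₁, y₁, h₁⟩
  · rw [zero_add]; omega
  by_cases hx : x₁ = x₂
  · subst hx
    rcases h₁.eq_or h₂ with rfl | rfl
    · omega
    · rw [neg_add_cancel]; exact Nat.zero_le _
  have hx' : x₁ + x₂ ≠ 0 := by grind
  have h3 := h₁.add h₂ (l := (y₁ + y₂) / (x₁ + x₂)) (Or.inl ⟨hx, by field_simp⟩)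
  have e1 := h₁.on
  have e2 := h₂.on
  unfold On at e1 e2
  rw [h3.hP, h₁.hP, h₂.hP]
  have d1 := RatFunc.algebraMap_ne_zero x₁.denom_ne_zero
  have d2 := RatFunc.algebraMap_ne_zero x₂.denom_ne_zero
  have n1 : x₁.num.natDegree ≤ ht x₁ := le_max_left _ _
  have n2 : x₁.denom.natDegree ≤ ht x₁ := le_max_right _ _
  have n3 : x₂.num.natDegree ≤ ht x₂ := le_max_left _ _
  have n4 : x₂.denom.natDegree ≤ ht x₂ := le_max_right _ _
  have n5 : b.num.natDegree ≤ ht b := le_max_left _ _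
  have n6 : b.denom.natDegree ≤ ht b := le_max_right _ _
  refine ht_root (c₂ := b.denom * (x₁.num * x₂.denom + x₂.num * x₁.denom) ^ 2)
    (c₁ := b.denom * (x₁.num * x₂.num * (x₁.denom * x₂.denom)))
    (c₀ := b.denom * (x₁.num * x₂.num) ^ 2 + b.num * (x₁.denom * x₂.denom) ^ 2)
    (mul_ne_zero b.denom_ne_zero (pow_ne_zero 2 fun h => ?_)) ?_ ?_ ?_ ?_
  · have := congrArg (algebraMap k[X] (RatFunc k)) h
    simp only [map_add, map_mul, num_eq, map_zero] at this
    exact mul_ne_zero (mul_ne_zero d1 d2) hx' (by linear_combination this)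
  · compute_degree; omega
  · compute_degree; omega
  · compute_degree; omega
  · simp only [map_add, map_mul, map_pow, num_eq]
    have : (x₁ + x₂) ^ 2 * (((y₁ + y₂) / (x₁ + x₂)) ^ 2 + (y₁ + y₂) / (x₁ + x₂) + a + x₁ + x₂) ^ 2 +
        x₁ * x₂ * (((y₁ + y₂) / (x₁ + x₂)) ^ 2 + (y₁ + y₂) / (x₁ + x₂) + a + x₁ + x₂) +
        (x₁ * x₂) ^ 2 + b = 0 := by
      field_simp; grind
    linear_combination (algebraMap k[X] (RatFunc k) b.denom * (algebraMap k[X] (RatFunc k) x₁.denom *
      algebraMap k[X] (RatFunc k) x₂.denom) ^ 2) * this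

lemma four_le {V : Type} [AddCommGroup V] [Finite V] (hb : b ≠ 0) (H : AddSubgroup (wc a b).Point)
    (h2 : ∀ P, P + P ∈ H) (Φ : H →+ V) (hk : ∀ P, Φ P = 0 → ∃ Q, P = Q + Q)
    (h : 2 ≤ Module.rank ℤ (wc a b).Point) : 4 ≤ Nat.card Φ.range := by
  refine four_le_card Φ ?_ hk (h.trans (rank_le_of_two H.subtype H.subtype_injective
    fun P => ⟨⟨_, h2 P⟩, rfl⟩))
  obtain ⟨K, hK⟩ := hP_two (wc a b) (wc_Δ.trans_ne hb)
  choose C hC using hP_add (a := a) (b := b)
  have : Northcott fun P : H => (hP P.1 : ℝ) := ⟨fun B =>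
    ((finite_hP (wc a b) ⌈B⌉₊).preimage Subtype.val_injective.injOn).subset fun P hp => by
      have : (hP P.1 : ℝ) ≤ ⌈B⌉₊ := le_trans hp (Nat.le_ceil B)
      exact_mod_cast this⟩
  have : Φ.ker.FiniteIndex := AddSubgroup.finiteIndex_ker Φ
  refine AddCommGroup.fg_of_descent (n := 2) (h := fun P : H => (hP P.1 : ℝ)) (a := 2) (b := 4)
    (c₀ := K) (c := fun g => C (-g.1)) zero_le_two (by norm_num)
    (AddSubgroup.finiteIndex_of_le (H := Φ.ker) fun P hP => ?_) (fun g x => ?_) fun x => ?_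
  · obtain ⟨Q, rfl⟩ := hk P hP
    exact ⟨Q, two_nsmul Q⟩
  · have := hC (-g.1) (g + x).1
    rw [AddSubgroup.coe_add, neg_add_cancel_left] at this
    exact_mod_cast this
  · have := hK x.1
    rw [two_nsmul, AddSubgroup.coe_add, sub_le_iff_le_add']
    exact_mod_cast this

end Pool.Agent.Lib.MP_788af2_nt.G2
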