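import Pool.Agent.Lib.MP_788af2_nt.G2.Nondeg
import Pool.Agent.Lib.MP_788af2_nt.G2.Rank

/-!
Points of twists inside the group of big points, and the Frobenius levels.
-/

set_option linter.unusedSectionVars false

namespace Pool.Agent.Lib.MP_788af2_nt.G2

open Polynomial

variable {k : Type} [Field k] [Fintype k] [CharP k 2] {S : Type} [NormedField S]
  [IsUltrametricDist S] [Algebra (RatFunc k) S] [IsSepClosure (RatFunc k) S] [CharP S 2]
  [DecidableEq S] {p : Pl k S}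

namespace Pl

/-- `X` is the big root attached to a rational point. -/
def Rt (p : Pl k S) (a B x y X : S) : Prop :=
  x ∈ p.K ∧ y ∈ p.K ∧ On a B x y ∧ X * (X + x) = B ∧ th B < ‖X‖

/-- All big roots are rational. -/
def Qp (p : Pl k S) (a B : S) : Prop := ∀ x y X, p.Rt a B x y X → X ∈ p.K

variable {a B x y X : S}

lemma Rt.small (h : p.Rt a B x y X) : ‖X + x‖ < th B ∧ ‖x‖ = ‖X‖ :=
  small_root h.2.2.2.1 h.2.2.2.2

lemma Rt.x_ne (h : p.Rt a B x y X) : x ≠ 0 := ne_of_th (h.small.2 ▸ h.2.2.2.2)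

lemma Rt.X_ne (h : p.Rt a B x y X) : X ≠ 0 := ne_of_th h.2.2.2.2

lemma Rt.Kh (h : p.Rt a B x y X) (hK : B ∈ p.K) : X ∈ p.Kh := by
  obtain ⟨h1, h2⟩ := h.small
  have hx := h.x_ne
  have := p.small_Kh (z := (X + x) / x) (by
    rw [show ((X + x) / x) ^ 2 + (X + x) / x = B / x ^ 2 by rw [← h.2.2.2.1]; field_simp; grind]
    exact p.K_le_Kh (div_mem hK (pow_mem h.1 2))) (by
      rw [norm_div, div_lt_one (norm_pos_iff.2 hx)]; linarith [h.2.2.2.2])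
  convert mul_mem (p.K_le_Kh h.1) (add_mem this (one_mem _)) using 1
  field_simp
  grind

lemma Rt.D_eq (h : p.Rt a B x y X) : x * p.D X + X * p.D x = p.D B := by
  rw [← h.2.2.2.1, mul_add, ← sq, p.D_add, p.D_sq, p.D_mul]; ring

lemma Rt.base (h : p.Rt a B x y X) (hK : B ∈ p.K) (hB : p.D B ≠ 0) (hX : X ∉ p.K) :
    p.D X ≠ 0 := fun h0 => by
  have e := h.D_eq
  rw [h0, mul_zero, zero_add] at e
  exact hX (eq_div_of_mul_eq (right_ne_zero_of_mul (e ▸ hB)) e ▸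
    div_mem (p.D_K hK) (p.D_K h.1))

lemma Rt.step (h : p.Rt a (B ^ 2) x y X) (ha : a ∈ p.K) (hQ : p.Qp a B)
    (hX : X ∉ p.K) : p.D X ≠ 0 := fun h0 => by
  have e := h.D_eq
  rw [h0, mul_zero, zero_add, p.D_sq] at e
  have h1 : p.D x = 0 := (mul_eq_zero.1 e).resolve_left h.X_ne
  have ed := congrArg p.D h.2.2.1
  rw [show x ^ 3 = x ^ 2 * x by ring, mul_comm a] at ed
  simp only [p.D_add, p.D_sq, p.D_sq_mul, p.D_mul x, h1] at ed
  have h2 : p.D (y + a * x) = 0 := mul_left_cancel₀ h.x_ne (by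
    rw [p.D_add, p.D_mul, h1]; grind)
  have e1 := p.D_eq_zero h0
  have e2 := p.D_eq_zero h1
  have e3 := p.D_eq_zero h2
  refine hX (e1 ▸ pow_mem (hQ (p.E x) _ _ ⟨p.E_K h.1, p.E_K (add_mem h.2.1 (mul_mem ha h.1)),
    On.sqrt rfl (by rw [e2]; exact h.2.2.1) (by rw [e2, e3]), frobenius_inj S 2 ?_, ?_⟩) 2)
  · simp only [frobenius_def, mul_pow, CharTwo.add_sq, e1, e2, h.2.2.2.1]
  · refine lt_of_pow_lt_pow_left₀ 2 (norm_nonneg _) ?_
    rw [← th_sq, ← norm_pow, e1]; exact h.2.2.2.2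

lemma Rt.exists_z (h : p.Rt a B x y X) (hX : X ∈ p.K) :
    ∃ z ∈ p.K, z ^ 2 + z = x + a := by
  have hx := h.x_ne
  obtain ⟨h1, h2, h3, h4, -⟩ := h
  refine ⟨(X + y) / x, div_mem (add_mem hX h2) h1, ?_⟩
  unfold On at h3
  field_simp
  grind

lemma Rt.exists_z' (h : p.Rt a B x y X) (hd : ∀ z ∈ p.K, th (B ^ 2) < ‖a + (z ^ 2 + z)‖)
    (hK : B ∈ p.K) (hX : X ∈ p.K) (hQ : p.Qp a (B ^ 2)) : ∃ z ∈ p.K, z ^ 2 + z = X + a := by
  have := p.sepClosed
  obtain ⟨z, hz, e⟩ := h.exists_z hX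
  have h0 := h.X_ne
  have h1 : th (B ^ 2) < ‖X‖ := by
    have := hd z hz
    rwa [e, show a + (x + a) = x by grind, h.small.2] at this
  obtain ⟨w, hw, h2⟩ := exists_small (u := B ^ 2 / X ^ 2) (by
    rw [norm_div, div_lt_one (norm_pos_iff.2 (pow_ne_zero 2 h0)), norm_pow X, norm_pow B]
    exact pow_lt_pow_left₀ ((norm_le_th B).trans_lt (th_sq B ▸ h1)) (norm_nonneg _) two_ne_zero)
  have h3 : p.Rt a (B ^ 2) X (X * z + B) (X * (1 + w)) := ⟨hX, add_mem (mul_mem hX hz) hK, by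
    have := h.2.2.2.1
    unfold On; grind, by field_simp at hw; grind, by
    rwa [norm_mul, nadd_eq (by simpa using h2), norm_one, mul_one]⟩
  exact h3.exists_z (hQ _ _ _ h3)

lemma half_poles {N : k[X]} {α : S} (hα : p.O α = α) (c : ℕ) (h : p.φ N ^ c * α ∈ p.A) :
    p.φ N * α ∈ p.A := by
  induction c using Nat.strong_induction_on with
  | _ c ih =>
    have mono : ∀ j, p.φ N ^ (c + j) * α ∈ p.A := fun j => by
      convert mul_mem (pow_mem (p.φ_mem N) j) h using 1; ring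
    by_cases hc : c ≤ 1
    · simpa [Nat.add_sub_cancel' hc] using mono (1 - c)
    refine ih (c - 1) (by omega) ?_
    have := (p.stab_A _ (mono (c - 2))).2
    rwa [show c + (c - 2) = (c - 1) * 2 by omega, pow_mul, p.O_sq_mul, hα] at this

lemma dl_small {u : S} (hu : u ∈ p.Kh) : ‖p.dl u‖ < 1 := by
  by_cases h : u = 0
  · simp [h, dl]
  have := p.O_le hu
  rw [dl, norm_div, div_lt_one (norm_pos_iff.2 h), D, norm_pow]
  by_cases h1 : p.O u = 0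
  · simpa [h1] using h
  nlinarith [p.t_gt, pow_pos (norm_pos_iff.2 h1) 2]

end Pl

namespace Lv

variable {V : Lv p} {ι : Type} [Fintype ι] [DecidableEq ι] {F : Fam p ι} {a : S}
  (hD : F.Dv (V.ν ^ 9)) (ha : p.φ V.ν * a ∈ p.A)

/-- Eigenvectors for the character `e`. -/
def Eig (e : (ι → ZMod 2) → ZMod 2) (P : M F ha) : Prop :=
  ∀ γ, σM ha γ P = (if e γ = 0 then 1 else -1 : ℤ) • P

variable {Θ : S} {e : (ι → ZMod 2) → ZMod 2} (hΘ : Θ ∈ F.L) (he : ∀ γ, F.σ γ Θ = Θ + c2 (e γ))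

lemma at_sg {P : M F ha} {x y : S} (h : At P.1 x y) (s : ZMod 2) :
    At ((if s = 0 then 1 else -1 : ℤ) • P).1 x (y + c2 s * x) := by
  rcases z2 s with rfl | rfl
  · simpa using h
  · simpa using h.neg

include he in
lemma eig_of {P : M F ha} (h : ∀ x y, At P.1 x y → x ∈ p.K ∧ y + Θ * x ∈ p.K) : Eig ha e P := by
  intro γ
  rcases pt_cases P.1 with h0 | ⟨x, y, h1⟩
  · rw [show P = 0 from Subtype.ext h0]; simp
  obtain ⟨h2, h3⟩ := h x y h1
  have h4 := p.aut_K (F.σ γ) h3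
  rw [map_add, map_mul, he, p.aut_K _ h2] at h4
  refine Subtype.ext ((h1.σP ha γ).ext ?_)
  rw [p.aut_K _ h2, show F.σ γ y = y + c2 (e γ) * x by grind]
  exact at_sg ha h1 _

include hΘ he in
lemma Eig.mem {P : M F ha} (h : Eig ha e P) {x y : S} (h1 : At P.1 x y) :
    x ∈ p.K ∧ y + Θ * x ∈ p.K := by
  have h2 := fun γ => (h1.σP ha γ).inj (congrArg Subtype.val (h γ) ▸ at_sg ha h1 (e γ))
  obtain ⟨hx, hy⟩ := P.2.1 x y h1
  have h3 := add_mem hy (mul_mem hΘ hx)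
  exact ⟨F.K_of_L hx (F.mem_Kh (F.L_Lh hx) fun γ => (h2 γ).1), F.K_of_L h3 (F.mem_Kh (F.L_Lh h3)
    fun γ => by rw [map_add, map_mul, he, (h2 γ).1, (h2 γ).2]; grind)⟩

lemma Vs_neg (u : V.Vs) : -u = u := Subtype.ext (Prod.ext (CharTwo.neg_eq _) (CharTwo.neg_eq _))

lemma Eig.cM_σ {P : M F ha} (h : Eig ha e P) (γ) : cM hD ha (σM ha γ P) = cM hD ha P := by
  rw [h γ]; split_ifs <;> simp [Vs_neg]

lemma Eig.ω_eq {P : M F ha} (h : Eig ha e P) : ω hD ha P = V.lf F fun _ => cM hD ha P := by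
  rw [Lv.ω_eq]; simp only [h.cM_σ]

lemma Eig.half {P : M F ha} (h : Eig ha e (P + P)) : Eig ha e P := fun γ =>
  sub_eq_zero.1 (M_two ha _ (by
    have := h γ
    rw [map_add, smul_add] at this
    rw [sub_add_sub_comm, this, sub_self]))

include hΘ he in
lemma exists_third [DecidableEq (RatFunc k)] {a' b : RatFunc k}
    (hb : algebraMap _ S b = V.B) (ha' : algebraMap _ S a' + (Θ ^ 2 + Θ) = a)
    (hd : F.Deep (th V.B) (algebraMap _ S a')) (h : 2 ≤ Module.rank ℤ (wc a' b).Point) (u : V.Vs) :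
    ∃ P : M F ha, Eig ha e P ∧ cM hD ha P ≠ 0 ∧ cM hD ha P ≠ u := by
  have := p.sepClosed
  have hb0 : b ≠ 0 := by rintro rfl; exact V.B_ne (by simpa using hb.symm)
  let j := hm (algebraMap _ S) Θ ha' hb V.B_ne
  have hj : ∀ P x y, At (j P) x y → x ∈ p.K ∧ y + Θ * x ∈ p.K := fun P x y h1 => by
    rcases pt_cases P with rfl | ⟨x', y', h2⟩
    · exact absurd (map_zero _) h1.ne
    · obtain ⟨rfl, rfl⟩ := h1.inj (h2.hm _ Θ ha' hb V.B_ne)
      exact ⟨⟨_, rfl⟩, y', by grind⟩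
  have hR : ∀ P, Rat F.L.toSubfield (j P) := fun P x y h1 =>
    ⟨F.K_L (hj P x y h1).1, by
      convert add_mem (F.K_L (hj P x y h1).2) (mul_mem hΘ (F.K_L (hj P x y h1).1)) using 1
      change y ∈ F.L ↔ _
      rw [add_assoc, CharTwo.add_self_eq_zero, add_zero]⟩
  let H := (M F ha).comap j
  let j' : H →+ M F ha := (j.comp H.subtype).codRestrict _ fun P => P.2
  have hE : ∀ P, Eig ha e (j' P) := fun P => eig_of ha he (hj P)
  have h4 := four_le hb0 H (fun P => ⟨hR _, ?_⟩) ((cM hD ha).comp j') (fun P hP => ?_) h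
  · by_contra! hc
    have : Nat.card ((cM hD ha).comp j').range ≤ Nat.card ({0, u} : Set V.Vs) :=
      Nat.card_mono (Set.toFinite _) (by
        rintro _ ⟨P, rfl⟩
        by_cases h0 : cM hD ha (j' P) = 0
        · exact Or.inl h0
        · exact Or.inr (hc _ (hE P) h0))
    have h5 : Nat.card ({0, u} : Set V.Vs) ≤ 2 := (Set.ncard_insert_le _ _).trans (by simp)
    omega
  · rcases pt_cases P with rfl | ⟨x, y, h1⟩
    · exact ⟨1, 0, Or.inl ⟨by simp, rfl, rfl⟩⟩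
    by_cases hx : x = 0
    · exact ⟨1, 0, Or.inl ⟨by rw [h1.add_zero h1 rfl (by simp [hx]), map_zero], rfl, rfl⟩⟩
    refine exists_bg ((h1.add h1 (l := (x ^ 2 + y) / x)
      (Or.inr ⟨rfl, rfl, hx, by field_simp⟩)).hm _ Θ ha' hb V.B_ne) ?_
    convert hd _ (F.L_Lh (F.L.algebraMap_mem ((x ^ 2 + y) / x))) using 2
    simp only [map_add, map_pow]
    grind
  · obtain ⟨Q, hQ⟩ := ker_cM hD ha (ha' ▸ hd.shift (F.L_Lh hΘ)) (j' P) fun γ => ((hE P).cM_σ hD ha γ).trans hP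
    obtain ⟨Q₀, hQ₀⟩ : ∃ Q₀, j Q₀ = Q := by
      rcases pt_cases Q.1 with h0 | ⟨x, y, h1⟩
      · exact ⟨0, by rw [h0, map_zero]⟩
      obtain ⟨⟨x', rfl⟩, y', h2⟩ := (hQ ▸ hE P).half.mem ha hΘ he h1
      have h3 := h1.on
      obtain ⟨Q₀, h4⟩ := exists_at (a := a') hb0 (x := x') (y := y') ((algebraMap _ S).injective (by
        simp only [map_add, map_mul, map_pow, h2, hb]
        unfold On at h3
        grind))
      refine ⟨Q₀, (h4.hm _ Θ ha' hb V.B_ne).ext ?_⟩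
      rwa [h2, add_assoc, CharTwo.add_self_eq_zero, add_zero]
    refine ⟨⟨Q₀, show j Q₀ ∈ M F ha from hQ₀ ▸ Q.2⟩, Subtype.ext (hm_inj _ Θ ha' hb V.B_ne ?_)⟩
    have := congrArg Subtype.val hQ
    rw [AddSubgroup.coe_add, ← hQ₀, ← map_add] at this
    exact this

include hΘ he in
lemma exists_mixed {a' x y X : S} (ha' : a' + (Θ ^ 2 + Θ) = a) (h : p.Rt a' V.B x y X)
    (hX : X ∉ p.K) (hd : p.D X ≠ 0) : ∃ P : M F ha, Eig ha e P ∧ Mixed F (cM hD ha P) := by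
  have hx := h.x_ne
  have h1 := h.2.2.1
  have h2 := h.2.2.2.1
  unfold On at h1
  obtain ⟨P, hP⟩ := exists_at (a := a) V.B_ne (x := x) (y := y + Θ * x) (by unfold On; grind)
  have hB : Bg P X ((X + y) / x + Θ) :=
    Or.inr ⟨_, _, hP, by field_simp; grind, by field_simp; grind, h.2.2.2.2⟩
  let Q : M F ha := ⟨P, fun x y h3 => by
    obtain ⟨rfl, rfl⟩ := hP.inj h3
    exact ⟨F.K_L h.1, add_mem (F.K_L h.2.1) (mul_mem hΘ (F.K_L h.1))⟩, _, _, hB⟩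
  have hE : Eig ha e Q := eig_of ha he fun x y h3 => by
    obtain ⟨rfl, rfl⟩ := hP.inj h3
    exact ⟨h.1, by rw [add_assoc, CharTwo.add_self_eq_zero, add_zero]; exact h.2.1⟩
  obtain ⟨g1, -, X', z', g3, g4, g5⟩ := om_ω hD ha Q
  obtain ⟨rfl, rfl⟩ := hB.unique g3
  have hL : (ω hD ha Q).1 ∉ F.L := fun h3 => hX (F.K_of_L (by
    convert add_mem (mul_mem (F.K_L h.1) (add_mem (add_mem h3 g4) hΘ)) (F.K_L h.2.1) using 1
    field_simp; grind) (h.Kh V.B_K))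
  have hdf := df_ω hD ha Q
  rw [hE.ω_eq hD] at g1 g5 hL hdf
  refine ⟨Q, hE, fun h0 => hL (F.R_L (F.wp_bij.1 _ g1.1 ?_)),
    O_τ_ah g1 hdf (g5 ▸ div_ne_zero hd h.X_ne) hL (lf_const_Kh _).2⟩
  simpa using F.R_of_fr (F.L_Lh (Amb.hL g1)) (zero_mem _) fun γ => by
    rw [map_zero, map_zero, ← h0]; exact congrArg Prod.fst (dat_lf _ γ)

include hΘ he in
lemma Eig.cM_zero {a' : S} (ha' : a' + (Θ ^ 2 + Θ) = a) (hQ : p.Qp a' V.B)
    (h0 : ∀ x y X, p.Rt a' V.B x y X → p.φ V.ν ^ 7 * p.dl X ∈ p.A → p.dl X = 0)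
    {P : M F ha} (h : Eig ha e P) : cM hD ha P = 0 := by
  obtain ⟨g1, g2, X, z, g3, g4, g5⟩ := om_ω hD ha P
  rcases g3 with ⟨h1, -⟩ | ⟨x, y, h1, rfl, hz, hX⟩
  · rw [show P = 0 from Subtype.ext h1, map_zero]
  obtain ⟨h2, h3⟩ := h.mem ha hΘ he h1
  have h4 := h1.on
  have h5 : p.Rt a' V.B x (y + Θ * x) (x * z + y) :=
    ⟨h2, h3, by unfold On at h4 ⊢; grind, root_eq h4 hz, hX⟩
  have h6 := hQ _ _ _ h5
  have hx := h5.x_ne
  have h7 := fst_eq hD g1 g2 (by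
    convert add_mem g4 (add_mem (F.K_L (div_mem (add_mem h6 h3) h2)) hΘ) using 1
    field_simp; grind)
  rw [ah, h7, zero_mul, add_zero] at g5
  have h8 := h0 _ _ _ h5 (F.A_of_R (g5 ▸ g1.2.2.2.1) (mul_mem (pow_mem (p.φ_Kh _) 7)
    (p.K_le_Kh (div_mem (p.D_K h6) h6))))
  refine Subtype.ext ?_
  change dat F 0 (ω hD ha P) = 0
  rw [show ω hD ha P = 0 from Prod.ext h7 (g5.trans h8), map_zero]

end Lv

end Pool.Agent.Lib.MP_788af2_nt.G2
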