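import Pool.Agent.Lib.MP_788af2_nt.G2.EO

/-!
The henselisation at infinity: fractional parts, residues, small roots.
-/

set_option linter.unusedSectionVars false

namespace Pool.Agent.Lib.MP_788af2_nt.G2

open Polynomial IsUltrametricDist

section Norm

variable {S : Type} [NormedField S] [IsUltrametricDist S]

lemma nadd_lt {u v : S} {c : ℝ} (hu : ‖u‖ < c) (hv : ‖v‖ < c) : ‖u + v‖ < c :=
  (norm_add_le_max u v).trans_lt (max_lt hu hv)

lemma nadd_le {u v : S} {c : ℝ} (hu : ‖u‖ ≤ c) (hv : ‖v‖ ≤ c) : ‖u + v‖ ≤ c :=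
  (norm_add_le_max u v).trans (max_le hu hv)

lemma nadd_eq {u v : S} (h : ‖v‖ < ‖u‖) : ‖u + v‖ = ‖u‖ := by
  rw [norm_add_eq_max_of_norm_ne_norm h.ne', max_eq_left h.le]

lemma nadd_eq' {u v : S} (h : ‖u‖ < ‖v‖) : ‖u + v‖ = ‖v‖ := by rw [add_comm, nadd_eq h]

lemma nsum_lt {ι : Type} {s : Finset ι} {f : ι → S} {c : ℝ} (hc : 0 < c)
    (h : ∀ i ∈ s, ‖f i‖ < c) : ‖∑ i ∈ s, f i‖ < c :=
  Finset.sum_induction f (fun u => ‖u‖ < c) (fun _ _ => nadd_lt) (by simpa using hc) h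

lemma nmul_lt {u v : S} (hu : ‖u‖ < 1) (hv : ‖v‖ ≤ 1) : ‖u * v‖ < 1 := by
  rw [norm_mul]; exact mul_lt_one_of_nonneg_of_lt_one_left (norm_nonneg _) hu hv

variable [CharP S 2]

lemma small_unique {z w : S} (h : z ^ 2 + z = w ^ 2 + w) (hz : ‖z‖ < 1) (hw : ‖w‖ < 1) :
    z = w := by
  have h1 : (z + w) * (1 + (z + w)) = 0 := by grind
  rcases mul_eq_zero.1 h1 with h2 | h2
  · grind
  · have := nadd_eq (u := 1) (v := z + w) (by simpa using nadd_lt hz hw)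
    simp [h2] at this

lemma exists_AS {S : Type} [Field S] [CharP S 2] [IsSepClosed S] (u : S) :
    ∃ z : S, z ^ 2 + z = u := by
  obtain ⟨z, hz⟩ := IsSepClosed.exists_root_C_mul_X_pow_add_C_mul_X_add_C (n := 2) (1 : S) 1 u
    (by simpa using two0 S) le_rfl one_ne_zero
  exact ⟨z, by grind⟩

lemma exists_small [IsSepClosed S] {u : S} (hu : ‖u‖ < 1) : ∃ z : S, z ^ 2 + z = u ∧ ‖z‖ < 1 := by
  obtain ⟨z, hz⟩ := exists_AS u
  by_cases h : ‖z‖ < 1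
  · exact ⟨z, hz, h⟩
  · refine ⟨z + 1, by grind, ?_⟩
    rw [← hz, show z ^ 2 + z = z * (z + 1) by ring, norm_mul] at hu
    nlinarith [norm_nonneg (z + 1), not_lt.1 h]

end Norm

lemma exists_tr (k : Type) [Field k] [Fintype k] [CharP k 2] :
    ∃ tr : k →+ ZMod 2, (∀ c, tr (c ^ 2) = tr c) ∧ ∃ c, tr c ≠ 0 := by
  let _ := ZMod.algebra k 2
  let f : k →+ k := ⟨⟨fun c => c ^ 2 + c, by simp⟩, fun a b => by grind⟩
  have hf : ¬ Function.Surjective f := fun h => by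
    have := Finite.injective_iff_surjective.2 h (a₁ := 1) (a₂ := 0) (by
      change (1 : k) ^ 2 + 1 = 0 ^ 2 + 0
      grind)
    simp at this
  obtain ⟨g, hg, hk⟩ := (AddSubgroup.toZModSubmodule 2 f.range).exists_le_ker_of_lt_top
    (lt_top_iff_ne_top.2 fun h => hf fun c => by
      have : c ∈ AddSubgroup.toZModSubmodule 2 f.range := h ▸ Submodule.mem_top
      simpa using this)
  refine ⟨g.toAddMonoidHom, fun c => ?_, ?_⟩
  · have : g (c ^ 2 + c) = 0 := hk (show _ ∈ f.range from ⟨c, rfl⟩)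
    rw [map_add] at this
    change g _ = g _
    grind
  · by_contra! h
    exact hg (LinearMap.ext h)

variable {k : Type} [Field k] [Fintype k] [CharP k 2] {S : Type} [NormedField S]
  [IsUltrametricDist S] [Algebra (RatFunc k) S] [IsSepClosure (RatFunc k) S] [CharP S 2]

namespace Pl

variable (p : Pl k S)

lemma sepClosed (_p : Pl k S) : IsSepClosed S := IsSepClosure.sep_closed (RatFunc k)

/-- The fixed field of the decomposition group. -/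
def Kh : Subfield S where
  carrier := {u | ∀ g ∈ p.G, g u = u}
  mul_mem' ha hb g hg := by rw [map_mul, ha g hg, hb g hg]
  one_mem' g _ := map_one g
  add_mem' ha hb g hg := by rw [map_add, ha g hg, hb g hg]
  zero_mem' g _ := map_zero g
  neg_mem' ha g hg := by rw [map_neg, ha g hg]
  inv_mem' a ha g hg := by rw [map_inv₀, ha g hg]

lemma K_le_Kh {u : S} (h : u ∈ p.K) : u ∈ p.Kh := fun g _ => p.aut_K g h

lemma A_le_Kh {u : S} (h : u ∈ p.A) : u ∈ p.Kh := p.K_le_Kh (p.A_le_K h)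

lemma φ_Kh (f : k[X]) : p.φ f ∈ p.Kh := p.A_le_Kh (p.φ_mem f)

lemma E_Kh {u : S} (h : u ∈ p.Kh) : p.E u ∈ p.Kh := fun g hg => by rw [aut_E, h g hg]

lemma O_Kh {u : S} (h : u ∈ p.Kh) : p.O u ∈ p.Kh := fun g hg => by rw [aut_O, h g hg]

lemma O_K {u : S} (h : u ∈ p.K) : p.O u ∈ p.K :=
  p.mem_K_of_fixed fun g => by rw [aut_O, p.aut_K g h]

lemma E_K {u : S} (h : u ∈ p.K) : p.E u ∈ p.K :=
  p.mem_K_of_fixed fun g => by rw [aut_E, p.aut_K g h]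

lemma D_K {u : S} (h : u ∈ p.K) : p.D u ∈ p.K := pow_mem (p.O_K h) 2

lemma t_gt : 1 < ‖p.t‖ := p.t_eq ▸ p.one_lt

lemma t_pos : 0 < ‖p.t‖ := one_pos.trans p.t_gt

lemma t_ne : p.t ≠ 0 := norm_pos_iff.1 p.t_pos

lemma norm_C {c : k} (hc : c ≠ 0) : ‖p.φ (C c)‖ = 1 := by
  have h := congrArg (fun c => ‖p.φ (C c)‖) (FiniteField.pow_card_sub_one_eq_one c hc)
  simp only [map_pow, map_one, norm_pow, norm_one] at h
  exact (pow_eq_one_iff_of_nonneg (norm_nonneg _) (by have := Fintype.one_lt_card (α := k); omega)).1 h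

lemma norm_C_le (c : k) : ‖p.φ (C c)‖ ≤ 1 := by
  by_cases hc : c = 0
  · simp [hc]
  · exact (p.norm_C hc).le

lemma norm_φ {f : k[X]} (hf : f ≠ 0) : ‖p.φ f‖ = ‖p.t‖ ^ f.natDegree := by
  induction hn : f.natDegree using Nat.strong_induction_on generalizing f with
  | _ n ih =>
    have h1 : ‖p.φ (C f.leadingCoeff * X ^ f.natDegree)‖ = ‖p.t‖ ^ n := by
      rw [map_mul, norm_mul, p.norm_C (leadingCoeff_ne_zero.2 hf), map_pow, norm_pow, hn, one_mul, t]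
    rw [← f.eraseLead_add_C_mul_X_pow, map_add, nadd_eq', h1]
    rw [h1]
    rcases f.eraseLead_natDegree_lt_or_eraseLead_eq_zero with h | h
    · by_cases h0 : f.eraseLead = 0
      · simpa [h0] using pow_pos p.t_pos n
      · rw [ih _ (hn ▸ h) h0 rfl]
        exact pow_lt_pow_right₀ p.t_gt (hn ▸ h)
    · simpa [h] using pow_pos p.t_pos n

lemma one_le_norm {u : S} (hu : u ∈ p.A) (h0 : u ≠ 0) : 1 ≤ ‖u‖ := by
  obtain ⟨f, rfl⟩ := hu
  rw [p.norm_φ (by rintro rfl; simp at h0)]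
  exact one_le_pow₀ p.t_gt.le

lemma eq_zero_of_small {u : S} (hu : u ∈ p.A) (h : ‖u‖ < 1) : u = 0 := by
  by_contra h0
  exact (p.one_le_norm hu h0).not_gt h

lemma approx' {u : S} (hu : u ∈ p.Kh) (h0 : u ≠ 0) : ∃ (c : k) (n : ℤ), c ≠ 0 ∧ ‖u‖ = ‖p.t‖ ^ n ∧
    ‖u + p.φ (C c) * p.t ^ n‖ < ‖u‖ := by
  obtain ⟨c, n, h⟩ := p.approx u hu h0
  have e : algebraMap (RatFunc k) S (RatFunc.C c * RatFunc.X ^ n) = p.φ (C c) * p.t ^ n := by
    simp [φ, t_eq]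
  rw [e, CharTwo.sub_eq_add] at h
  have hc : c ≠ 0 := by rintro rfl; simp at h
  refine ⟨c, n, hc, ?_, h⟩
  have := nadd_eq h
  rw [show u + (u + p.φ (C c) * p.t ^ n) = p.φ (C c) * p.t ^ n by grind, norm_mul, p.norm_C hc,
    one_mul, norm_zpow] at this
  exact this.symm

lemma le_of_lt_zpow {u : S} (hu : u ∈ p.Kh) {n : ℤ} (h : ‖u‖ < ‖p.t‖ ^ (n + 1)) :
    ‖u‖ ≤ ‖p.t‖ ^ n := by
  by_cases h0 : u = 0
  · simpa [h0] using (zpow_pos p.t_pos n).le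
  obtain ⟨c, m, -, hm, -⟩ := p.approx' hu h0
  rw [hm] at h ⊢
  rw [zpow_lt_zpow_iff_right₀ p.t_gt] at h
  exact zpow_le_zpow_right₀ p.t_gt.le (by omega)

lemma le_inv {u : S} (hu : u ∈ p.Kh) (h : ‖u‖ < 1) : ‖u‖ ≤ ‖p.t‖⁻¹ := by
  simpa using p.le_of_lt_zpow hu (n := -1) (by simpa using h)

lemma exists_pol {u : S} (hu : u ∈ p.Kh) : ∃ a ∈ p.A, ‖u + a‖ < 1 := by
  obtain ⟨n, hn⟩ := pow_unbounded_of_one_lt ‖u‖ p.t_gt
  induction n generalizing u with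
  | zero => exact ⟨0, zero_mem _, by simpa using hn⟩
  | succ n ih =>
    by_cases h1 : ‖u‖ < 1
    · exact ⟨0, zero_mem _, by simpa using h1⟩
    obtain ⟨c, m, -, hm, h⟩ := p.approx' hu (by rintro rfl; simp at h1)
    have h0 : 0 ≤ m := by
      rw [hm, not_lt, one_le_zpow_iff_right₀ p.t_gt] at h1; exact h1
    lift m to ℕ using h0
    have hA : p.φ (C c) * p.t ^ (m : ℤ) ∈ p.A := by
      rw [zpow_natCast]; exact mul_mem (p.φ_mem _) (pow_mem p.t_mem _)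
    have h2 := p.le_of_lt_zpow hu (n := n) (by exact_mod_cast hn)
    obtain ⟨a, ha, h3⟩ := ih (add_mem hu (p.A_le_Kh hA)) (h.trans_le (by exact_mod_cast h2))
    exact ⟨_, add_mem hA ha, by rwa [← add_assoc]⟩

/-- Elements of norm less than `c`. -/
def sm (_p : Pl k S) (c : ℝ) (hc : 0 < c) : AddSubgroup S where
  carrier := {u | ‖u‖ < c}
  add_mem' := nadd_lt
  zero_mem' := by simpa using hc
  neg_mem' h := by simpa using h

lemma exists_fr : ∃ fr : S →+ S, (∀ u ∈ p.A, fr u = 0) ∧ ∀ u, ‖u‖ < 1 → fr u = u := by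
  let _ := ZMod.algebra S 2
  let U := AddSubgroup.toZModSubmodule 2 p.A.toAddSubgroup
  let W := AddSubgroup.toZModSubmodule 2 (p.sm 1 one_pos)
  obtain ⟨g, hg⟩ := (U.mkQ.comp W.subtype).exists_leftInverse_of_injective
    (LinearMap.ker_eq_bot'.2 fun u hu => Subtype.ext (p.eq_zero_of_small
      ((Submodule.Quotient.mk_eq_zero U).1 hu) u.2))
  refine ⟨(W.subtype.comp (g.comp U.mkQ)).toAddMonoidHom, fun u hu => ?_, fun u hu => ?_⟩
  · have : U.mkQ u = 0 := (Submodule.Quotient.mk_eq_zero U).2 hu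
    simp [this]
  · exact congrArg Subtype.val (LinearMap.congr_fun hg ⟨u, hu⟩)

/-- The fractional part. -/
noncomputable def fr : S →+ S := p.exists_fr.choose

lemma fr_A {u : S} (h : u ∈ p.A) : p.fr u = 0 := p.exists_fr.choose_spec.1 u h

lemma fr_small {u : S} (h : ‖u‖ < 1) : p.fr u = u := p.exists_fr.choose_spec.2 u h

lemma fr_spec {u : S} (h : u ∈ p.Kh) : u + p.fr u ∈ p.A ∧ ‖p.fr u‖ < 1 := by
  obtain ⟨a, ha, h1⟩ := p.exists_pol h
  have : p.fr u = u + a := by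
    rw [← p.fr_small h1, map_add, p.fr_A ha, add_zero]
  rw [this]
  exact ⟨by rwa [show u + (u + a) = a by grind], h1⟩

lemma fr_Kh {u : S} (h : u ∈ p.Kh) : p.fr u ∈ p.Kh := by
  rw [show p.fr u = u + (u + p.fr u) by grind]
  exact add_mem h (p.A_le_Kh (p.fr_spec h).1)

lemma fr_congr {u v : S} (h : u + v ∈ p.A) : p.fr u = p.fr v := by
  have := p.fr_A h
  rw [map_add] at this
  grind

lemma mem_A_of_fr {u v : S} (hu : u ∈ p.Kh) (hv : v ∈ p.Kh) (h : p.fr u = p.fr v) :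
    u + v ∈ p.A := by
  rw [show u + v = (u + p.fr u) + (v + p.fr v) by grind]
  exact add_mem (p.fr_spec hu).1 (p.fr_spec hv).1

lemma exists_cf : ∃ cf : S →+ k, (∀ c u, cf (p.φ (C c) * u) = c * cf u) ∧ (∀ u ∈ p.A, cf u = 0) ∧
    (∀ u, ‖u‖ < ‖p.t‖⁻¹ → cf u = 0) ∧ cf p.t⁻¹ = 1 := by
  let _ : Algebra k S := (p.φ.comp C).toAlgebra
  have hs : ∀ (c : k) (u : S), c • u = p.φ (C c) * u := fun _ _ => rfl
  let U : Submodule k S :=
    { carrier := {u | ∃ a ∈ p.A, ‖u + a‖ < ‖p.t‖⁻¹}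
      add_mem' := by
        rintro u v ⟨a, ha, h⟩ ⟨b, hb, h'⟩
        exact ⟨a + b, add_mem ha hb, by
          rw [show u + v + (a + b) = u + a + (v + b) by ring]; exact nadd_lt h h'⟩
      zero_mem' := ⟨0, zero_mem _, by simpa using p.t_ne⟩
      smul_mem' := by
        rintro c u ⟨a, ha, h⟩
        refine ⟨p.φ (C c) * a, mul_mem (p.φ_mem _) ha, ?_⟩
        rw [hs, ← mul_add, norm_mul]
        exact (mul_le_of_le_one_left (norm_nonneg _) (p.norm_C_le c)).trans_lt h }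
  have ht : p.t⁻¹ ∉ U := by
    rintro ⟨a, ha, h⟩
    have h1 : ‖p.t‖⁻¹ < 1 := inv_lt_one_of_one_lt₀ p.t_gt
    have : a = 0 := p.eq_zero_of_small ha (by
      rw [show a = p.t⁻¹ + (p.t⁻¹ + a) by grind]
      exact nadd_lt (by simpa using h1) (h.trans h1))
    simp [this] at h
  obtain ⟨g, hg, hk⟩ := U.exists_le_ker_of_notMem ht
  refine ⟨((g p.t⁻¹)⁻¹ • g).toAddMonoidHom, fun c u => ?_, fun u hu => ?_, fun u hu => ?_, ?_⟩
  · rw [← hs]; exact map_smul ((g p.t⁻¹)⁻¹ • g) c u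
  · have : g u = 0 := hk ⟨u, hu, by simpa [CharTwo.add_self_eq_zero] using p.t_ne⟩
    simp [this]
  · have : g u = 0 := hk ⟨0, zero_mem _, by simpa using hu⟩
    simp [this]
  · simp [hg]

lemma O_le {u : S} (hu : u ∈ p.Kh) : ‖p.t‖ * ‖p.O u‖ ^ 2 ≤ ‖u‖ := by
  by_cases h0 : p.O u = 0
  · simp [h0]
  have hne : ‖p.E u ^ 2‖ ≠ ‖p.t * p.O u ^ 2‖ := fun h => by
    obtain ⟨-, m, -, hm, -⟩ := p.approx' (p.O_Kh hu) h0
    have hE : p.E u ≠ 0 := fun h1 => by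
      have := h.symm
      simp [h1, h0, p.t_ne] at this
    obtain ⟨-, n, -, hn, -⟩ := p.approx' (p.E_Kh hu) hE
    rw [norm_mul, norm_pow, norm_pow, hm, hn, sq, sq, ← zpow_add₀ p.t_pos.ne',
      ← zpow_add₀ p.t_pos.ne', mul_comm, ← zpow_add_one₀ p.t_pos.ne',
      zpow_right_inj₀ p.t_pos p.t_gt.ne'] at h
    omega
  conv_rhs => rw [← p.EO u, norm_add_eq_max_of_norm_ne_norm hne]
  simp

lemma D_le {u : S} (hu : u ∈ p.Kh) : ‖p.D u‖ ≤ ‖u‖ := by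
  have := p.O_le hu
  rw [D, norm_pow]
  nlinarith [p.t_gt, sq_nonneg ‖p.O u‖]

lemma O_small {u : S} (hu : u ∈ p.Kh) (h : ‖u‖ < 1) : ‖p.O u‖ < 1 := by
  have := (p.D_le hu).trans_lt h
  rwa [D, norm_pow, sq_lt_one_iff₀ (norm_nonneg _)] at this

lemma O_lt {u : S} (hu : u ∈ p.A) (h0 : u ≠ 0) : ‖p.O u‖ < ‖u‖ := by
  have h1 := p.O_le (p.A_le_Kh hu)
  have h2 := p.one_le_norm hu h0
  by_contra h
  have h3 := not_lt.1 h
  have h4 : ‖p.O u‖ ≤ ‖p.O u‖ ^ 2 := by nlinarith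
  nlinarith [p.t_gt, mul_pos (sub_pos.2 p.t_gt) (show 0 < ‖p.O u‖ ^ 2 by nlinarith)]

lemma exists_res : ∃ res : S →+ ZMod 2, (∀ u ∈ p.A, res u = 0) ∧
    (∀ u, ‖u‖ < ‖p.t‖⁻¹ → res u = 0) ∧ (∀ u ∈ p.Kh, res (p.O u) = res u) ∧
    ∀ (c : k) (w : S), c ≠ 0 → ‖w + p.φ (C c) * p.t⁻¹‖ < ‖p.t‖⁻¹ → ∃ d, res (p.φ (C d) * w) ≠ 0 := by
  obtain ⟨cf, hC, hA, hs, h1⟩ := p.exists_cf
  obtain ⟨tr, htr, c0, hc0⟩ := exists_tr k
  have hρ : ‖p.t‖⁻¹ < 1 := inv_lt_one_of_one_lt₀ p.t_gt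
  have hρ0 : 0 < ‖p.t‖⁻¹ := inv_pos.2 p.t_pos
  have hc : ∀ (c : k) (w : S), ‖w + p.φ (C c) * p.t⁻¹‖ < ‖p.t‖⁻¹ → cf w = c := fun c w h => by
    have := hs _ h
    rw [map_add, hC, h1] at this
    grind
  refine ⟨tr.comp cf, fun u hu => by simp [hA u hu], fun u hu => by simp [hs u hu], fun u hu => ?_,
    fun c w hc1 h => ⟨c0 / c, by simpa [hC, hc c w h, hc1] using hc0⟩⟩
  have hE : cf (p.E u ^ 2) = 0 := by
    obtain ⟨a, ha, h⟩ := p.exists_pol (p.E_Kh hu)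
    have h2 := p.le_inv (add_mem (p.E_Kh hu) (p.A_le_Kh ha)) h
    rw [show p.E u ^ 2 = a ^ 2 + (p.E u + a) ^ 2 by grind, map_add, hA _ (pow_mem ha 2), hs, add_zero]
    rw [norm_pow]
    nlinarith [norm_nonneg (p.E u + a)]
  have hO : cf (p.t * p.O u ^ 2) = cf (p.O u) ^ 2 := by
    obtain ⟨a, ha, h⟩ := p.exists_pol (p.O_Kh hu)
    have hw := add_mem (p.O_Kh hu) (p.A_le_Kh ha)
    obtain ⟨c, hc2⟩ : ∃ c, ‖p.O u + a + p.φ (C c) * p.t⁻¹‖ < ‖p.t‖⁻¹ := by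
      rcases (p.le_inv hw h).lt_or_eq with h2 | h2
      · exact ⟨0, by simpa using h2⟩
      obtain ⟨c, n, -, hn, h3⟩ := p.approx' hw (by rintro h0; rw [h0, norm_zero] at h2; exact hρ0.ne h2)
      rw [h2, ← zpow_neg_one, zpow_right_inj₀ p.t_pos p.t_gt.ne'] at hn
      exact ⟨c, by simpa [← hn, h2] using h3⟩
    have h4 : cf (p.O u) = c := by rw [← hc c _ hc2, map_add, hA a ha, add_zero]
    rw [h4, show p.t * p.O u ^ 2 = p.t * a ^ 2 + p.t * (p.O u + a) ^ 2 by grind, map_add,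
      hA _ (mul_mem p.t_mem (pow_mem ha 2)), zero_add]
    apply hc
    have ht := p.t_ne
    rw [show p.t * (p.O u + a) ^ 2 + p.φ (C (c ^ 2)) * p.t⁻¹ =
      p.t * (p.O u + a + p.φ (C c) * p.t⁻¹) ^ 2 by rw [map_pow, map_pow]; grind, norm_mul, norm_pow]
    have h5 := pow_lt_pow_left₀ hc2 (norm_nonneg _) two_ne_zero
    have := mul_lt_mul_of_pos_left h5 p.t_pos
    rwa [sq ‖p.t‖⁻¹, mul_inv_cancel_left₀ p.t_pos.ne'] at this
  conv_rhs => rw [← p.EO u]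
  simp [hE, hO, htr]

/-- The trace of the residue at infinity. -/
noncomputable def res : S →+ ZMod 2 := p.exists_res.choose

lemma res_A {u : S} (h : u ∈ p.A) : p.res u = 0 := p.exists_res.choose_spec.1 u h

lemma res_O {u : S} (h : u ∈ p.Kh) : p.res (p.O u) = p.res u := p.exists_res.choose_spec.2.2.1 u h

lemma res_mul {u v : S} (hu : u ∈ p.Kh) (h : ‖u‖ < 1) (h' : ‖v‖ < 1) : p.res (u * v) = 0 := by
  refine p.exists_res.choose_spec.2.1 _ ?_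
  rw [norm_mul]
  have := p.le_inv hu h
  nlinarith [norm_nonneg u, norm_nonneg v, inv_pos.2 p.t_pos]

lemma res_congr {u v : S} (h : u + v ∈ p.A) : p.res u = p.res v := by
  have := p.res_A h
  rw [map_add] at this
  grind

lemma exists_monomial {ψ : S} (h : ψ ∈ p.Kh) (hK : ψ ∉ p.K) {g : k[X]} (hg : g ≠ 0) (n₀ : ℕ) :
    ∃ (n : ℕ) (c : k), n₀ ≤ n ∧ c ≠ 0 ∧ p.res (p.φ (g * C c * X ^ n) * ψ) ≠ 0 := by
  have hg' : g * X ^ n₀ ≠ 0 := mul_ne_zero hg (pow_ne_zero _ X_ne_zero)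
  have h1 := mul_mem (p.φ_Kh (g * X ^ n₀)) h
  obtain ⟨h2, h3⟩ := p.fr_spec h1
  set w := p.fr (p.φ (g * X ^ n₀) * ψ)
  have hw : w ≠ 0 := fun h0 => hK (by
    rw [h0, add_zero] at h2
    have := div_mem (p.A_le_K h2) (p.A_le_K (p.φ_mem (g * X ^ n₀)))
    rwa [mul_div_cancel_left₀ _ (p.φ_ne hg')] at this)
  obtain ⟨c, m, hc, hm, h4⟩ := p.approx' (p.fr_Kh h1) hw
  have hm0 : m < 0 := by rwa [hm, zpow_lt_one_iff_right₀ p.t_gt] at h3
  obtain ⟨j, rfl⟩ : ∃ j : ℕ, m = -(j + 1) := ⟨(-m - 1).toNat, by omega⟩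
  have ht := p.t_ne
  obtain ⟨d, hd⟩ := p.exists_res.choose_spec.2.2.2 c (p.t ^ j * w) hc (by
    rw [show p.t ^ j * w + p.φ (C c) * p.t⁻¹ = p.t ^ j * (w + p.φ (C c) * p.t ^ (-(j + 1 : ℤ))) by
      rw [zpow_neg, zpow_add_one₀ ht, zpow_natCast]; field_simp, norm_mul, norm_pow]
    refine (mul_lt_mul_of_pos_left h4 (pow_pos p.t_pos j)).trans_eq ?_
    rw [hm, zpow_neg, zpow_add_one₀ p.t_pos.ne', zpow_natCast]
    have := p.t_pos.ne'
    field_simp)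
  refine ⟨n₀ + j, d, by omega, by rintro rfl; simp at hd, ?_⟩
  rw [p.res_congr (v := p.φ (C d) * (p.t ^ j * w))]
  · exact hd
  · have := mul_mem (mul_mem (p.φ_mem (C d)) (pow_mem p.t_mem j)) h2
    convert this using 1
    simp only [map_mul, map_pow, pow_add, t]
    ring

lemma wp_inj {z : S} (hz : z ∈ p.Kh) (h : z ^ 2 + z ∈ p.A) : z ∈ p.A := by
  obtain ⟨a, ha, h1⟩ := p.exists_pol hz
  have h2 : (z + a) ^ 2 + (z + a) = 0 := p.eq_zero_of_small (by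
      rw [show (z + a) ^ 2 + (z + a) = z ^ 2 + z + (a ^ 2 + a) by grind]
      exact add_mem h (add_mem (pow_mem ha 2) ha))
    (nadd_lt (by rw [sq]; exact nmul_lt h1 h1.le) h1)
  have := small_unique (w := 0) (h2.trans (by simp)) h1 (by simp)
  rwa [show z = a by grind]

lemma small_Kh {z : S} (h : z ^ 2 + z ∈ p.Kh) (hz : ‖z‖ < 1) : z ∈ p.Kh := fun g hg =>
  small_unique (by rw [← map_pow, ← map_add, h g hg]) (by rwa [p.nm_G g hg]) hz

lemma wp_surj {v : S} (hv : v ∈ p.Kh) : ∃ z ∈ p.Kh, z ^ 2 + z + v ∈ p.A := by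
  have := p.sepClosed
  obtain ⟨h1, h2⟩ := p.fr_spec hv
  obtain ⟨z, hz, h3⟩ := exists_small h2
  exact ⟨z, p.small_Kh (hz ▸ p.fr_Kh hv) h3, by rwa [hz, add_comm]⟩

lemma oneO_inj {r : S} (hr : r ∈ p.A) (h : r + p.O r = 0) : r = 0 := by
  by_contra h0
  have := nadd_eq (p.O_lt hr h0)
  rw [h, norm_zero, eq_comm, norm_eq_zero] at this
  exact h0 this

lemma oneO_surj {v : S} (hv : v ∈ p.A) : ∃ r ∈ p.A, r + p.O r = v := by
  obtain ⟨n, hn⟩ := pow_unbounded_of_one_lt ‖v‖ p.t_gt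
  induction n generalizing v with
  | zero => exact ⟨0, zero_mem _, by simp [p.eq_zero_of_small hv (by simpa using hn)]⟩
  | succ n ih =>
    by_cases h0 : v = 0
    · exact ⟨0, zero_mem _, by simp [h0]⟩
    have h2 := p.le_of_lt_zpow (p.A_le_Kh hv) (n := n) (by exact_mod_cast hn)
    obtain ⟨r, hr, h⟩ := ih (p.stab_A v hv).2 ((p.O_lt hv h0).trans_le (by exact_mod_cast h2))
    exact ⟨v + r, add_mem hv hr, by rw [O_add]; grind⟩

/-- Proper fractions with denominator `d`. -/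
noncomputable def Pf (d : k[X]) : AddSubgroup S where
  carrier := {u | p.φ d * u ∈ p.A ∧ ‖u‖ < 1}
  add_mem' ha hb := ⟨by rw [mul_add]; exact add_mem ha.1 hb.1, nadd_lt ha.2 hb.2⟩
  zero_mem' := by simp
  neg_mem' ha := by simpa using ha

lemma mem_K_of_mul {d : k[X]} (hd : d ≠ 0) {u : S} (h : p.φ d * u ∈ p.A) : u ∈ p.K := by
  have := div_mem (p.A_le_K h) (p.A_le_K (p.φ_mem d))
  rwa [mul_div_cancel_left₀ _ (p.φ_ne hd)] at this

lemma fr_Pf {d : k[X]} (hd : d ≠ 0) {u : S} (h : p.φ d * u ∈ p.A) : p.fr u ∈ p.Pf d := by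
  obtain ⟨h1, h2⟩ := p.fr_spec (p.K_le_Kh (p.mem_K_of_mul hd h))
  refine ⟨?_, h2⟩
  rw [show p.φ d * p.fr u = p.φ d * u + p.φ d * (u + p.fr u) by grind]
  exact add_mem h (mul_mem (p.φ_mem d) h1)

lemma finite_deg (B : ℕ) : {f : k[X] | f.natDegree ≤ B}.Finite := by
  refine Set.Finite.of_finite_image (f := fun f (i : Fin (B + 1)) => f.coeff i) (Set.toFinite _) ?_
  intro f hf q hq h
  ext i
  by_cases hi : i < B + 1
  · exact congrFun h ⟨i, hi⟩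
  · rw [coeff_eq_zero_of_natDegree_lt (lt_of_le_of_lt hf (by omega)),
      coeff_eq_zero_of_natDegree_lt (lt_of_le_of_lt hq (by omega))]

lemma finite_Pf {d : k[X]} (hd : d ≠ 0) : Finite (p.Pf d) := by
  refine ((finite_deg (k := k) d.natDegree).image fun f => p.φ f / p.φ d).subset ?_
  rintro u ⟨⟨f, hf⟩, h⟩
  have h0 := p.φ_ne hd
  refine ⟨f, ?_, by simp only [hf]; field_simp⟩
  by_cases h1 : f = 0
  · simp [h1]
  have h2 : ‖p.φ f‖ ≤ ‖p.φ d‖ := by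
    rw [hf, norm_mul]; exact mul_le_of_le_one_right (norm_nonneg _) h.le
  rwa [p.norm_φ h1, p.norm_φ hd, pow_le_pow_iff_right₀ p.t_gt] at h2

end Pl

end Pool.Agent.Lib.MP_788af2_nt.G2
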