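import Pool.Agent.Lib.MP_788af2_nt.G2.Om

/-!
The multilinear form attached to the local pairing and its non-degeneracy.
-/

set_option linter.unusedSectionVars false

namespace Pool.Agent.Lib.MP_788af2_nt.G2

open Polynomial

lemma nsmul_c2 {S : Type} [Field S] [CharP S 2] (s : ZMod 2) (w : S) : s.val • w = c2 s * w := by
  rcases z2 s with rfl | rfl <;> simp [ZMod.val_one]

variable {k : Type} [Field k] [Fintype k] [CharP k 2] {S : Type} [NormedField S]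
  [IsUltrametricDist S] [Algebra (RatFunc k) S] [IsSepClosure (RatFunc k) S] [CharP S 2]
  [DecidableEq S] {p : Pl k S}

lemma Pl.fr_c2 (p : Pl k S) (s : ZMod 2) (w : S) : p.fr (c2 s * w) = c2 s * p.fr w := by
  rw [← nsmul_c2, map_nsmul, nsmul_c2]

lemma norm_c2_mul (s : ZMod 2) {w : S} (h : ‖w‖ < 1) : ‖c2 s * w‖ < 1 := by
  rcases z2 s with rfl | rfl <;> simp [h]

namespace Fam

lemma σ_fix {ι : Type} [Fintype ι] [DecidableEq ι] (F : Fam p ι) {u : S} (hu : u ∈ F.Lh)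
    {γ : ι → ZMod 2} (h : ∀ i, γ i ≠ 0 → F.σ (Pi.single i 1) u = u) : F.σ γ u = u := by
  rw [← Finset.univ_sum_single γ]
  refine Finset.sum_induction _ (fun γ => F.σ γ u = u) (fun a b ha hb => by
    rw [← F.σ_σ a b hu, hb, ha]) (F.σ_zero hu) fun i _ => ?_
  rcases z2 (γ i) with h1 | h1 <;> rw [h1]
  · simpa using F.σ_zero hu
  · exact h i (by simp [h1])

variable {ι₁ ι' : Type} [Fintype ι₁] [DecidableEq ι₁] [Fintype ι'] [DecidableEq ι']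
  {F : Fam p (ι₁ ⊕ ι')} {F' : Fam p ι'} (hθ : ∀ i, F.θ (.inr i) = F'.θ i)
include hθ

lemma Lh_le {u : S} (h : u ∈ F'.Lh) : u ∈ F.Lh := fun g hg h' => h g hg fun i => by rw [← hθ, h']

lemma σ_inl (i : ι₁) {u : S} (h : u ∈ F'.Lh) : F.σ (Pi.single (.inl i) 1) u = u :=
  h _ (F.σ_mem _) fun j => by rw [← hθ, F.σ_θ]; simp

lemma mem_Lh' {u : S} (hu : u ∈ F.Lh) (h : ∀ i, F.σ (Pi.single (.inl i) 1) u = u) : u ∈ F'.Lh :=
  fun g hg h' => by
    obtain ⟨γ, hγ⟩ := F.exists_γ hg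
    rw [F.eq_σ hg hγ hu]
    refine F.σ_fix hu ?_
    rintro (i | i) hi
    · exact h i
    · have := hγ (.inr i)
      rw [hθ, h'] at this
      rcases z2 (γ (.inr i)) with h1 | h1 <;> simp_all

lemma co_res (γ) {u : S} (h : u ∈ F'.Lh) : F.co γ u = F'.co (γ ∘ .inr) u := by
  have he : ∀ δ, F'.e δ = ∑ η : ι₁ → ZMod 2, F.e (Sum.elim η δ) := fun δ => by
    simp only [e, Fintype.prod_sum_type, Sum.elim_inl, Sum.elim_inr, hθ, ← Finset.sum_mul]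
    rw [sum_prod_z2 (fun i s => F.θ (.inl i) + 1 + c2 s), Finset.prod_eq_one (s := Finset.univ)
      (f := fun i => F.θ (.inl i) + 1 + c2 0 + (F.θ (.inl i) + 1 + c2 1))
      fun i _ => by simp only [map_zero, map_one]; grind, one_mul]
  have h2 : ∀ δ, F.co γ (F'.e δ) = if δ = γ ∘ .inr then 1 else 0 := fun δ => by
    rw [he, map_sum, Finset.sum_eq_single (γ ∘ .inl)]
    · rw [co_e]
      congr 1
      exact propext ⟨fun h => by rw [← h]; rfl, fun h => by rw [h, Sum.elim_comp_inl_inr]⟩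
    · exact fun η _ hη => by rw [co_e, if_neg fun h => hη (by rw [← h]; rfl)]
    · simp
  conv_lhs => rw [← F'.sum_co h]
  simp [map_sum, F.co_mul_left γ (F'.co_Kh _ h), h2]

lemma R_le {u : S} (h : u ∈ F'.R) : u ∈ F.R :=
  F.mem_R.2 ⟨Lh_le hθ (F'.R_Lh h), fun γ => co_res hθ γ (F'.R_Lh h) ▸ F'.co_A _ h⟩

lemma co_res' (γ) {u : S} (h : u ∈ F'.Lh) : F'.co γ u = F.co (Sum.elim 0 γ) u :=
  (co_res hθ (Sum.elim 0 γ) h).symm

lemma mem_R' {u : S} (h : u ∈ F.R) (h' : u ∈ F'.Lh) : u ∈ F'.R :=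
  F'.mem_R.2 ⟨h', fun γ => co_res' hθ γ h' ▸ F.co_A _ h⟩

end Fam

namespace Lv

variable {V : Lv p}

section One

variable {ι : Type} [Fintype ι] [DecidableEq ι] {F : Fam p ι}

lemma lf_const_Kh (c : V.Vs) : (V.lf F fun _ => c).1 ∈ p.Kh ∧ (V.lf F fun _ => c).2 ∈ p.Kh :=
  ⟨F.mem_Kh (lf_mem _).1 fun γ => congrArg Prod.fst (σ_lf (fun _ => c) γ),
    F.mem_Kh (F.L_Lh (Amb.aL (lf_mem _))) fun γ => congrArg Prod.snd (σ_lf (fun _ => c) γ)⟩

variable (V F) in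
lemma exists_nat (c : V.Vs) : ∃ v : S × S, v.1 ∈ F.Lh ∧ F.Sm v.1 ∧
    v.1 ^ 2 + v.1 + F.e 0 * ((V.lf F fun _ => c).1 ^ 2 + (V.lf F fun _ => c).1) ∈ F.R ∧
    v.2 + (F.e 0 * (V.lf F fun _ => c).2 + (v.1 ^ 2 + v.1 +
      F.e 0 * ((V.lf F fun _ => c).1 ^ 2 + (V.lf F fun _ => c).1)) * V.β) ∈ F.R ∧ F.Sm (V.df v) := by
  have h1 := mul_mem (F.R_L (F.e_R 0)) (Amb.hL (lf_mem (F := F) fun _ => c))
  obtain ⟨z, hz, h2, h3⟩ := F.exists_z (F.L_Lh h1)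
  obtain ⟨α, h4, h5⟩ := exists_alpha (V := V) (z := z) (by
    convert add_mem (F.R_L h3) h1 using 1; grind) (add_mem (mul_mem (F.R_L (F.e_R 0))
    (Amb.aL (lf_mem (F := F) fun _ => c))) (mul_mem (F.R_L h3) β_L))
  exact ⟨(z, α), hz, h2, h3, h4, h5⟩

variable (V F) in
/-- The local series representing the multilinear form. -/
noncomputable def ΦN (u c : V.Vs) (w : (ι → ZMod 2) → ZMod 2) : S :=
  F.Tr (V.Φ (V.lf F fun γ => (w γ).val • u) (V.exists_nat F c).choose)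

lemma nat_L (c : V.Vs) : (V.exists_nat F c).choose.1 ^ 2 + (V.exists_nat F c).choose.1 ∈ F.L ∧
    (V.exists_nat F c).choose.2 ∈ F.L := by
  obtain ⟨-, -, h3, h4, -⟩ := (V.exists_nat F c).choose_spec
  have h1 := mul_mem (F.R_L (F.e_R 0)) (Amb.hL (lf_mem (F := F) fun _ => c))
  constructor
  · convert add_mem (F.R_L h3) h1 using 1; grind
  · convert add_mem (F.R_L h4) (add_mem (mul_mem (F.R_L (F.e_R 0))
      (Amb.aL (lf_mem (F := F) fun _ => c))) (mul_mem (F.R_L h3) (β_L (V := V)))) using 1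
    grind

lemma Φ_Lh {u v : S × S} (h1 : u.1 ∈ F.Lh) (h2 : u.2 ∈ F.Lh) (h3 : v.1 ∈ F.Lh) (h4 : v.2 ∈ F.Lh) :
    V.Φ u v ∈ F.Lh :=
  have := F.L_Lh (β_L (V := V))
  add_mem (add_mem (mul_mem (pow_mem h3 2) (add_mem h2 (mul_mem h1 this))) (mul_mem (pow_mem h1 2)
    (add_mem h4 (mul_mem h3 this)))) (mul_mem (mul_mem (pow_mem h1 2) (pow_mem h3 2)) this)

lemma ΦN_Kh (u c : V.Vs) (w : (ι → ZMod 2) → ZMod 2) : V.ΦN F u c w ∈ p.Kh :=
  F.Tr_Kh (Φ_Lh (lf_mem _).1 (F.L_Lh (Amb.aL (lf_mem _))) (V.exists_nat F c).choose_spec.1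
    (F.L_Lh (nat_L c).2))

variable (V) in
/-- The polynomial of odd degree used for all twists. -/
noncomputable def τ : k[X] := 1 + X * (V.ν ^ 7) ^ 2

lemma τ_coprime : IsCoprime V.τ (V.ν ^ 7) := ⟨1, -(X * V.ν ^ 7), by rw [τ]; ring⟩

lemma τ_deg : V.τ.natDegree = 2 * (V.ν ^ 7).natDegree + 1 := by
  have h : (X * (V.ν ^ 7) ^ 2 : k[X]).natDegree = 2 * (V.ν ^ 7).natDegree + 1 := by
    rw [natDegree_X_mul (pow_ne_zero _ (pow_ne_zero _ V.ν_ne)), natDegree_pow]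
  rw [τ, natDegree_add_eq_right_of_natDegree_lt (by rw [h]; simp), h]

lemma τ_ne : V.τ ≠ 0 := fun h => by simpa [h] using V.τ_deg

lemma D_τ : p.D (p.φ V.τ) = (p.φ V.ν ^ 7) ^ 2 := by
  simp only [τ, map_add, map_one, map_mul, map_pow, p.D_add, p.D_one, mul_comm (p.φ X),
    p.D_sq_mul, show p.D (p.φ X) = 1 from p.D_t]
  simp

lemma τ_dvd {n : k[X]} {j : ℕ} {r : S} (hr : r ∈ p.A)
    (h : p.φ V.τ * r = p.φ n * (p.φ V.ν ^ 7) ^ j) : V.τ ∣ n := by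
  obtain ⟨r, rfl⟩ := hr
  refine (τ_coprime.pow_right (n := j)).dvd_of_dvd_mul_right ⟨r, p.φ_inj ?_⟩
  simp only [map_mul, map_pow, h]

lemma O_τ_Pf {κ : S} (h : κ ∈ p.Pf (V.ν ^ 7)) (h0 : κ ≠ 0) : p.O (p.φ V.τ * κ) ≠ 0 := fun h1 => by
  obtain ⟨⟨n, hn⟩, h2⟩ := h
  rw [map_pow] at hn
  have h3 : p.D (p.φ V.τ * (p.φ n * p.φ V.ν ^ 7)) = 0 := by
    rw [hn, show p.φ V.τ * (p.φ V.ν ^ 7 * κ * p.φ V.ν ^ 7) = (p.φ V.ν ^ 7) ^ 2 * (p.φ V.τ * κ) by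
      ring, p.D_sq_mul, p.D_eq_zero_iff.2 h1, mul_zero]
  rw [p.D_mul, D_τ] at h3
  have h4 := τ_dvd (V := V) (n := n) (j := 3) (p.stab_A.D_mem (mul_mem (p.φ_mem n) (pow_mem (p.φ_mem V.ν) 7)))
    (by grind)
  have hn0 : n ≠ 0 := by
    rintro rfl; exact mul_ne_zero (pow_ne_zero 7 V.n_ne) h0 (by simpa using hn.symm)
  have h5 := natDegree_le_of_dvd h4 hn0
  have h6 : ‖p.φ n‖ ≤ ‖p.φ (V.ν ^ 7)‖ := by
    rw [hn, norm_mul, map_pow]; exact mul_le_of_le_one_right (norm_nonneg _) h2.le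
  rw [p.norm_φ hn0, p.norm_φ (pow_ne_zero 7 V.ν_ne), pow_le_pow_iff_right₀ p.t_gt] at h6
  have := V.τ_deg
  omega

lemma O_τ_ah {u : S × S} (hu : u ∈ V.Amb F) (hd : V.df u = 0) (h0 : V.ah u ≠ 0) (hL : u.1 ∉ F.L)
    (hK : u.2 ∈ p.Kh) : p.O (p.φ V.τ * V.ah u) ≠ 0 := fun h1 => by
  have h2 := p.D_eq_zero (p.D_eq_zero_iff.2 h1)
  have hτ := p.φ_ne V.τ_ne
  set s := p.E (p.φ V.τ * V.ah u)
  have h3 : V.ah u = (s / p.φ V.τ) ^ 2 * p.φ V.τ := by field_simp; grind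
  have h4 : p.O (V.ah u) = V.ah u := by rw [df] at hd; grind
  have hs : s ≠ 0 := fun h => h0 (by rw [h3, h]; simp)
  rw [h3, p.O_sq_mul] at h4
  have h5 : p.O (p.φ V.τ) = s := by field_simp at h4; exact h4
  have h6 : p.φ V.τ * V.ah u = (p.φ V.ν ^ 7) ^ 2 := by rw [← D_τ, Pl.D, h5, h2]
  have hβ : V.β = 0 := by
    by_contra hβ
    refine hL ?_
    convert div_mem (add_mem (div_mem (pow_mem (pow_mem (F.R_L (F.φ_R V.ν)) 7) 2)
      (F.R_L (F.φ_R V.τ))) (Amb.aL hu)) (β_L (V := V)) using 1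
    rw [← h6, ah]; field_simp; grind
  rw [ah, hβ, mul_zero, add_zero] at h6
  have h7 := τ_dvd (V := V) (n := 1) (j := 3)
    (F.A_of_R hu.2.2.2.1 (mul_mem (pow_mem (p.φ_Kh _) 7) hK)) (by rw [map_one]; grind)
  have := natDegree_le_of_dvd h7 one_ne_zero
  rw [τ_deg] at this
  simp at this

lemma σ_Φ (γ) (u v : S × S) : F.σ γ (V.Φ u v) = V.Φ (σ2 F γ u) (σ2 F γ v) := by
  simp only [Φ, ah_σ, map_add, map_mul, map_pow, p.aut_K _ V.β_K]; rfl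

lemma Φ_shift' {u v : S × S} (hu : u.2 ∈ F.L) (hv : v.2 ∈ F.L) {g : S ≃ₐ[RatFunc k] S}
    (hg : g ∈ F.L.fixingSubgroup) {c d : ZMod 2} (h1 : g u.1 = u.1 + c2 c) (h2 : g v.1 = v.1 + c2 d) :
    g (V.Φ u v) = V.Φ u v + (c2 d * V.ah u + c2 c * V.ah v + c2 c * c2 d * V.β) := by
  have := c2_sq (S := S) c
  have := c2_sq (S := S) d
  simp only [Φ, ah, map_add, map_mul, map_pow, h1, h2, F.fix_L hg hu, F.fix_L hg hv, F.fix_L hg β_L]
  grind

lemma exists_shift (hD : F.Dv (V.ν ^ 9)) (u c : V.Vs) (w ε ε' : (ι → ZMod 2) → ZMod 2)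
    (h : ∀ a b : (ι → ZMod 2) → ZMod 2, (∀ γ, c2 (∑ δ, a δ * w (γ + δ)) * u.1.1 +
      c2 (b γ) * c.1.1 = 0) → ∑ δ, a δ * ε δ + ∑ δ, b δ * ε' δ = 0) :
    ∃ g : S ≃ₐ[RatFunc k] S, g (V.ΦN F u c w) = V.ΦN F u c w +
      ∑ δ, (c2 (ε' δ) * V.ah (V.lf F fun γ => (w (γ + δ)).val • u) +
        c2 (ε δ) * F.σ δ (V.ah (V.exists_nat F c).choose) + c2 (ε δ) * c2 (ε' δ) * V.β) := by
  obtain ⟨n1, n2, n3, -, -⟩ := (V.exists_nat F c).choose_spec
  obtain ⟨n4, n5⟩ := nat_L (F := F) c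
  have m := lf_mem (F := F) fun γ => (w γ).val • u
  have m' := lf_mem (F := F) fun _ => c
  have n6 := lf_const_Kh (F := F) c
  have d1 := dat_lf (F := F) (fun _ => c) 0
  have d2 := dat_lf (F := F) fun γ => (w γ).val • u
  unfold ΦN
  set v := (V.exists_nat F c).choose
  set û := V.lf F fun γ => (w γ).val • u with hû
  have hk := add_mem (pow_mem n6.1 2) n6.1
  obtain ⟨g, hg, h1⟩ := exists_aut F.L.fixingSubgroup
    (Sum.elim (fun δ => F.σ δ û.1) fun δ => F.σ δ v.1) (by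
      rintro (δ | δ) g hg <;> simp only [Sum.elim_inl, Sum.elim_inr, ← map_pow, ← map_add]
      exacts [F.fix_L hg (F.σ_L δ (Amb.hL m)), F.fix_L hg (F.σ_L δ n4)]) (Sum.elim ε ε')
    fun a ha => by
      simp only [Fintype.sum_sum_type, Sum.elim_inl, Sum.elim_inr] at ha ⊢
      refine h _ _ fun γ => ?_
      have hL := F.mem_L_of_fixed ha
      set y := ∑ δ, c2 (a (.inl δ)) * F.σ δ û.1 + ∑ δ, c2 (a (.inr δ)) * F.σ δ v.1 with hy
      have e1 : y ^ 2 + y = ∑ δ, c2 (a (.inl δ)) * F.σ δ (û.1 ^ 2 + û.1) +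
          ∑ δ, c2 (a (.inr δ)) * F.σ δ (v.1 ^ 2 + v.1) := by
        simp only [hy, CharTwo.add_sq, CharTwo.sum_sq, mul_pow, c2_sq, map_add, map_pow, mul_add,
          Finset.sum_add_distrib]
        ring
      have e2 : ∀ γ, p.fr (F.co γ (y ^ 2 + y)) =
          c2 (∑ δ, a (.inl δ) * w (γ + δ)) * u.1.1 + c2 (a (.inr γ)) * c.1.1 := fun γ => by
        have f1 : ∀ δ, p.fr (F.co (γ + δ) (û.1 ^ 2 + û.1)) = c2 (w (γ + δ)) * u.1.1 := fun δ =>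
          (congrArg Prod.fst (d2 _)).trans (nsmul_c2 _ _)
        have f2 : ∀ δ, p.fr (F.co (γ + δ) (v.1 ^ 2 + v.1)) = if γ = δ then c.1.1 else 0 := fun δ => by
          rw [F.fr_of_R n3, mul_comm, F.co_mul_left _ hk, F.co_e]
          have : (0 = γ + δ) ↔ γ = δ := by
            rw [eq_comm, add_eq_zero_iff_eq_neg]
            exact Eq.congr_right (funext fun i => CharTwo.neg_eq _)
          simp only [this]
          split_ifs
          · rw [mul_one, ← F.co_const 0 hk]; exact congrArg Prod.fst d1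
          · simp
        rw [e1]
        simp only [map_add (F.co γ), map_sum, F.co_mul_left γ (c2_mem _ _),
          F.co_σ γ _ (F.L_Lh (Amb.hL m)), F.co_σ γ _ (F.L_Lh n4), map_add p.fr, p.fr_c2, f1, f2,
          map_mul, Finset.sum_mul, mul_assoc]
        simp
      have s1 : F.Sm y := fun γ => by
        simp only [hy, map_add, map_sum, F.co_mul_left γ (c2_mem _ _)]
        exact nadd_lt (nsum_lt one_pos fun δ _ => norm_c2_mul _ (m.2.1.σ m.1 δ γ))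
          (nsum_lt one_pos fun δ _ => norm_c2_mul _ (n2.σ n1 δ γ))
      have s2 : p.φ V.ν ^ 2 * (v.1 ^ 2 + v.1) ∈ F.R := by
        convert add_mem (mul_mem (pow_mem (F.φ_R V.ν) 2) n3) (mul_mem (F.e_R 0) m'.2.2.1) using 1
        grind
      have s3 : p.φ V.ν * y ∈ F.R := F.R_of_quad (mul_mem (F.R_L (F.φ_R _)) hL) (F.φ_R V.ν)
        (c := p.φ V.ν ^ 2 * (y ^ 2 + y)) (by
          rw [e1, mul_add, Finset.mul_sum, Finset.mul_sum]
          refine add_mem (sum_mem fun δ _ => ?_) (sum_mem fun δ _ => ?_) <;> rw [mul_left_comm] <;>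
            refine mul_mem (c2_mem _ _) ?_
          · simpa [p.aut_φ] using F.σ_R δ m.2.2.1
          · simpa [p.aut_φ] using F.σ_R δ s2) (by ring)
      have s4 : y = 0 := F.ext_co (F.L_Lh hL) (zero_mem _) fun γ => by
        rw [← ell_dat hD s3 s1 γ, e2, ← nsmul_c2, ← nsmul_c2, map_add, map_nsmul, map_nsmul,
          show V.ell u.1.1 = 0 from u.2.1.2, show V.ell c.1.1 = 0 from c.2.1.2]
        simp
      rw [← e2, s4]; simp
  refine ⟨g, ?_⟩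
  simp only [F.Tr_apply, map_sum, ← Finset.sum_add_distrib]
  refine Finset.sum_congr rfl fun δ _ => ?_
  rw [σ_Φ, Φ_shift' (F.σ_L δ (Amb.aL m)) (F.σ_L δ n5) hg (h1 (.inl δ)) (h1 (.inr δ)), ← ah_σ,
    hû, σ_lf]
  rfl

variable (F) in
/-- Classes that are not rational and whose differential is not degenerate. -/
def Mixed (u : V.Vs) : Prop := u.1.1 ≠ 0 ∧ p.O (p.φ V.τ * V.ah (V.lf F fun _ => u)) ≠ 0

lemma not_K (hD : F.Dv (V.ν ^ 9)) {u c : V.Vs} (hu : Mixed F u) (hc : c ≠ 0) (hc' : c.1.1 ≠ u.1.1)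
    {w d : (ι → ZMod 2) → ZMod 2} (hw : ∀ γ, ∑ δ, d δ * w (γ + δ) = 1) :
    p.O (p.φ V.τ * V.ΦN F u c w) ∉ p.K := fun hK => by
  have key : ∀ (g : S ≃ₐ[RatFunc k] S) (y : S), g (V.ΦN F u c w) = V.ΦN F u c w + y →
      p.O (p.φ V.τ * y) = 0 := fun g y h => by
    have := p.aut_K g hK
    rw [p.aut_O, map_mul, p.aut_φ, h, mul_add, p.O_add] at this
    simpa using this
  by_cases h0 : c.1.1 = 0
  · obtain ⟨g, hg⟩ := exists_shift hD u c w (fun _ => 1) 0 fun a b h => by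
      have h1 : ∀ γ, ∑ δ, a δ * w (γ + δ) = 0 := fun γ => by
        simpa [h0, hu.1, -map_sum] using h γ
      have : ∑ γ, d γ * ∑ δ, a δ * w (γ + δ) = ∑ δ, a δ := by
        simp only [Finset.mul_sum]
        rw [Finset.sum_comm]
        refine Finset.sum_congr rfl fun δ _ => ?_
        simp only [mul_left_comm (d _), ← Finset.mul_sum, add_comm _ δ, hw, mul_one]
      simp [← this, h1]
    refine O_τ_Pf c.2.2 (fun h => hc (Subtype.ext (Prod.ext h0 h))) ?_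
    convert key g _ hg using 3
    obtain ⟨n1, n2, n3, n4, n5⟩ := (V.exists_nat F c).choose_spec
    have n7 := (nat_L (F := F) c).2
    have m' := lf_mem (F := F) fun _ => c
    have n6 := lf_const_Kh (F := F) c
    have d1 := dat_lf (F := F) (fun _ => c)
    generalize (V.exists_nat F c).choose = v at *
    generalize (V.lf F fun _ => c) = u' at *
    have z1 : u'.1 = 0 := m'.2.1.eq_zero (F.wp_bij.1 _ m'.1 (by
      simpa using F.R_of_fr (F.L_Lh (Amb.hL m')) (zero_mem _) fun γ => by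
        rw [map_zero, map_zero, ← h0]; exact congrArg Prod.fst (d1 γ)))
    have z2 : v.1 = 0 := n2.eq_zero (F.wp_bij.1 _ n1 (by simpa [z1] using n3))
    simp only [z1, z2, df, ah, ne_eq, OfNat.ofNat_ne_zero, not_false_eq_true, zero_pow, add_zero,
      mul_zero, zero_mul, Pi.zero_apply, map_zero, map_one, zero_add, one_mul, ← F.Tr_apply] at *
    have a1 := F.Tr_A n4
    rw [map_add, mul_comm, ← F.co_apply, F.co_const 0 n6.2] at a1
    have a2 := (p.fr_spec n6.2).1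
    rw [← F.co_const 0 n6.2, show p.fr (F.co 0 u'.2) = c.1.2 from congrArg Prod.snd (d1 0),
      F.co_const 0 n6.2] at a2
    have a3 : F.Tr v.2 + c.1.2 ∈ p.A := by convert add_mem a1 a2 using 1; grind
    have a4 := p.oneO_inj a3 (p.eq_zero_of_small (add_mem a3 (p.stab_A _ a3).2) (by
      rw [p.O_add, ← F.Tr_O, add_add_add_comm, ← map_add, F.Tr_eq_sum]
      exact nadd_lt (nsum_lt one_pos fun γ _ => n5 γ) (nadd_lt c.2.2.2 (p.O_small
        (p.K_le_Kh (p.mem_K_of_mul (pow_ne_zero 7 V.ν_ne) c.2.2.1)) c.2.2.2))))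
    grind
  · obtain ⟨g, hg⟩ := exists_shift hD u c w 0 d fun a b h => by
      have h1 : ∀ γ, b γ = 0 := fun γ => by
        have := h γ
        have := hu.1
        rcases z2 (b γ) with h2 | h2 <;> rcases z2 (∑ δ, a δ * w (γ + δ)) with h3 | h3 <;>
          simp only [h2, h3, map_zero, map_one] at * <;> grind
      simp [h1]
    refine hu.2 ?_
    convert key g _ hg using 3
    let A : S × S →+ S := AddMonoidHom.mk' V.ah V.ah_add
    simp only [Pi.zero_apply, map_zero, zero_mul, add_zero, ← nsmul_c2]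
    change A _ = ∑ δ, (d δ).val • A _
    simp only [← map_nsmul, ← map_sum]
    congr 2
    ext1 γ
    refine Subtype.ext (Prod.ext ?_ ?_) <;>
      simp only [Finset.sum_apply, Pi.smul_apply, AddSubmonoidClass.coe_finsetSum, Prod.fst_sum,
        Prod.snd_sum, AddSubmonoidClass.coe_nsmul, Prod.smul_fst, Prod.smul_snd, nsmul_c2,
        ← mul_assoc, ← map_mul, ← Finset.sum_mul, ← map_sum, hw, map_one, one_mul]

end One

variable {ι₁ ι' : Type} [Fintype ι₁] [DecidableEq ι₁] [Fintype ι'] [DecidableEq ι']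
  {F : Fam p (ι₁ ⊕ ι')} {F' : Fam p ι'} (hθ : ∀ i, F.θ (.inr i) = F'.θ i)
include hθ

lemma lf_res (c : (ι' → ZMod 2) → V.Vs) : V.lf F' c = V.lf F fun γ => c (γ ∘ .inr) := by
  have m := lf_mem (F := F') c
  refine eq_lf ⟨Fam.Lh_le hθ m.1, fun γ => Fam.co_res hθ γ m.1 ▸ m.2.1 _, Fam.R_le hθ m.2.2.1,
    Fam.R_le hθ m.2.2.2.1, fun γ => ?_⟩ fun γ => ?_
  · rw [df, Fam.co_res hθ γ (add_mem (Amb.ah_Lh m) (F'.O_Lh (Amb.ah_Lh m)))]; exact m.2.2.2.2 _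
  · rw [← dat_lf (F := F')]
    simp only [dat, AddMonoidHom.coe_mk, ZeroHom.coe_mk, Fam.co_res hθ γ (F'.L_Lh (Amb.hL m)),
      Fam.co_res hθ γ (F'.L_Lh (Amb.aL m))]

lemma T_formula (u c : V.Vs) (w : (ι' → ZMod 2) → ZMod 2) (i : ι₁) :
    ∑ γ, V.Gp F γ u c * w (γ ∘ .inr) * γ (.inl i) =
      p.res ((F.θ (.inl i) ^ 2 + F.θ (.inl i)) * V.ΦN F' u c w) := by
  have e0 : ∀ γ : ι₁ ⊕ ι' → ZMod 2, V.Gp F γ u c * w (γ ∘ .inr) * γ (.inl i) =
      V.Gp F γ ((γ (.inl i)).val • (w (γ ∘ .inr)).val • u) c := fun γ => by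
    simp only [map_nsmul, AddMonoidHom.nsmul_apply, nsmul_eq_mul, ZMod.natCast_zmod_val]; ring
  simp only [e0]
  rw [sum_Gp, ← lf_res hθ fun _ => c]
  obtain ⟨n1, n2, n3, n4, n5⟩ := (V.exists_nat F' c).choose_spec
  have n7 := (nat_L (F := F') c).2
  have n6 := lf_const_Kh (F := F') c
  have m := lf_mem (F := F') fun γ => (w γ).val • u
  have ms := lf_mem (F := F) fun γ => (γ (.inl i)).val • (w (γ ∘ .inr)).val • u
  have d1 := dat_lf (F := F') fun γ => (w γ).val • u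
  have d2 := dat_lf (F := F) fun γ => (γ (.inl i)).val • (w (γ ∘ .inr)).val • u
  have hs : ∀ j, σ2 F (Pi.single (.inl j) 1) (V.lf F fun γ => (γ (.inl i)).val • (w (γ ∘ .inr)).val • u)
      = (V.lf F fun γ => (γ (.inl i)).val • (w (γ ∘ .inr)).val • u) +
        ((Pi.single (.inl j) 1 : ι₁ ⊕ ι' → ZMod 2) (.inl i)).val • V.lf F' fun γ => (w γ).val • u := by
    intro j
    rw [σ_lf, lf_res hθ, ← map_nsmul, ← map_add]
    congr 1
    ext1 γ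
    rw [show (γ + Pi.single (.inl j) 1) ∘ Sum.inr = γ ∘ .inr by ext; simp]
    refine Subtype.ext (Prod.ext ?_ ?_) <;>
      simp only [Pi.add_apply, Pi.smul_apply, AddSubmonoidClass.coe_nsmul, Prod.smul_fst,
        Prod.smul_snd, nsmul_c2, AddSubgroup.coe_add, Prod.fst_add, Prod.snd_add, map_add, add_mul]
  unfold ΦN
  generalize (V.exists_nat F' c).choose = v at *
  generalize (V.lf F' fun _ => c) = u' at *
  generalize (V.lf F' fun γ => (w γ).val • u) = û at *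
  generalize (V.lf F fun γ => (γ (.inl i)).val • (w (γ ∘ .inr)).val • u) = us at *
  have hΘ := F.θ_R (.inl i)
  have hX := F.x_mem (.inl i)
  have hco : ∀ γ {y}, y ∈ F'.Lh → F.co γ (F.θ (.inl i) * y) = c2 (γ (.inl i)) * F'.co (γ ∘ .inr) y :=
    fun γ y hy => by rw [F.co_θ γ _ (Fam.Lh_le hθ hy) (Fam.σ_inl hθ i hy), Fam.co_res hθ γ hy]
  have inv : ∀ {x y}, x ∈ F.Lh → y ∈ F'.Lh → (∀ j, F.σ (Pi.single (.inl j) 1) x = x +
      c2 ((Pi.single (.inl j) 1 : ι₁ ⊕ ι' → ZMod 2) (.inl i)) * y) → x + F.θ (.inl i) * y ∈ F'.Lh :=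
    fun hx hy h => Fam.mem_Lh' hθ (add_mem hx (mul_mem (F.θ_Lh _) (Fam.Lh_le hθ hy))) fun j => by
      rw [map_add, map_mul, h, F.σ_θ, Fam.σ_inl hθ j hy]; grind
  have sm : ∀ {x y}, x + F.θ (.inl i) * y ∈ F'.Lh → y ∈ F'.Lh → F.Sm x → F'.Sm y →
      F'.Sm (x + F.θ (.inl i) * y) := fun h hy h1 h2 γ => by
    rw [Fam.co_res' hθ γ h, map_add, hco _ hy]
    exact nadd_lt (h1 _) (norm_c2_mul _ (h2 _))
  have hs1 := fun j => congrArg Prod.fst (hs j)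
  have hs2 := fun j => congrArg Prod.snd (hs j)
  simp only [σ2, Prod.fst_add, Prod.snd_add, Prod.smul_fst, Prod.smul_snd, nsmul_c2] at hs1 hs2
  have l1 := inv ms.1 m.1 hs1
  have l2 := inv (F.L_Lh (Amb.aL ms)) (F'.L_Lh (Amb.aL m)) hs2
  have l3 := inv (F.L_Lh (Amb.hL ms)) (F'.L_Lh (Amb.hL m)) fun j => by
    rw [map_add, map_pow, hs1, CharTwo.add_sq, mul_pow, c2_sq]; ring
  have tβ := F'.L_Lh (β_L (V := V))
  have ldf := add_mem (Amb.ah_Lh m) (F'.O_Lh (Amb.ah_Lh m))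
  have r2 := Fam.mem_R' hθ (F.R_of_fr (F.L_Lh (Amb.aL ms)) (mul_mem (F.θ_Lh _) (Fam.Lh_le hθ
    (F'.L_Lh (Amb.aL m)))) fun γ => by
      rw [hco γ (F'.L_Lh (Amb.aL m)), p.fr_c2, ← nsmul_c2]
      exact (congrArg Prod.snd (d2 γ)).trans (congrArg _ (congrArg Prod.snd (d1 _)).symm)) l2
  have r3 := Fam.mem_R' hθ (F.R_of_fr (F.L_Lh (Amb.hL ms)) (mul_mem (F.θ_Lh _) (Fam.Lh_le hθ
    (F'.L_Lh (Amb.hL m)))) fun γ => by
      rw [hco γ (F'.L_Lh (Amb.hL m)), p.fr_c2, ← nsmul_c2]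
      exact (congrArg Prod.fst (d2 γ)).trans (congrArg _ (congrArg Prod.fst (d1 _)).symm)) l3
  have k1 := F'.Kh_le n6.1
  have k2 := F'.Kh_le n6.2
  have k3 := add_mem (pow_mem k1 2) k1
  set Θ := F.θ (.inl i)
  have edf : V.df (us.1 + Θ * û.1, us.2 + Θ * û.2) =
      V.df us + Θ * V.df û + p.O ((Θ ^ 2 + Θ) * V.ah û) := by
    have : V.ah (us.1 + Θ * û.1, us.2 + Θ * û.2) = V.ah us + Θ * V.ah û := by simp only [ah]; ring
    simp only [df, this, add_mul, p.O_add, p.O_sq_mul]; grind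
  have l4 : V.df us + Θ * V.df û ∈ F'.Lh := by
    have := add_mem l2 (mul_mem l1 tβ)
    convert add_mem (add_mem this (F'.O_Lh this)) (F'.O_Lh (mul_mem (F'.Kh_le (p.A_le_Kh hX))
      (Amb.ah_Lh m))) using 1
    have : V.df (us.1 + Θ * û.1, us.2 + Θ * û.2) = _ + p.O _ := rfl
    simp only [ah] at this edf ⊢
    grind
  have e1 : V.Ψ us u' = Θ * V.Ψ û u' + ((u'.1 ^ 2 + u'.1) * (us.2 + Θ * û.2) + (us.1 ^ 2 + us.1 +
      Θ * (û.1 ^ 2 + û.1)) * (u'.2 + (u'.1 ^ 2 + u'.1) * V.β)) := by simp only [Ψ_apply]; grind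
  rw [e1, map_add, Ψ_apply û, hco 0 (add_mem (add_mem (mul_mem k3 (F'.L_Lh (Amb.aL m))) (mul_mem (F'.L_Lh
    (Amb.hL m)) k2)) (mul_mem (F'.L_Lh (Amb.hL m)) (mul_mem k3 tβ))), Pi.zero_apply, map_zero,
    zero_mul, zero_add, Fam.co_res hθ 0 (add_mem (mul_mem k3 l2) (mul_mem l3 (add_mem k2
    (mul_mem k3 tβ)))), ← F'.Tr_mul (p.A_le_Kh hX), F'.co_apply, Pi.zero_comp]
  have e2 := Ψ_eq (V := V) (us.1 + Θ * û.1, us.2 + Θ * û.2) v
  rw [edf, Ψ_apply] at e2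
  have z1 := F'.res_Tr_O (Φ_Lh (V := V) (u := (us.1 + Θ * û.1, us.2 + Θ * û.2)) l1 l2 n1 (F'.L_Lh n7))
  have z2 := F'.res_Tr_sm n1 n2 (sm l4 ldf ms.2.2.2.2 m.2.2.2.2)
  have z3 := F'.res_Tr_sm l1 (sm l1 m.1 ms.2.1 m.2.1) n5
  have z4 := F'.res_Tr_O (mul_mem (pow_mem n1 2) (mul_mem (F'.Kh_le (p.A_le_Kh hX)) (Amb.ah_Lh m)))
  have z5 := F'.res_Tr_R (add_mem (mul_mem r2 n3) (mul_mem r3 n4))
  rw [p.O_sq_mul] at z4
  generalize V.Φ (us.1 + Θ * û.1, us.2 + Θ * û.2) v = Φ₁ at *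
  have e3 : ((u'.1 ^ 2 + u'.1) * (us.2 + Θ * û.2) + (us.1 ^ 2 + us.1 + Θ * (û.1 ^ 2 + û.1)) *
      (u'.2 + (u'.1 ^ 2 + u'.1) * V.β)) * F'.e 0 = (Θ ^ 2 + Θ) * V.Φ û v + ((Φ₁ + p.O Φ₁) +
      v.1 * (V.df us + Θ * V.df û) + (us.1 + Θ * û.1) * V.df v + (v.1 * p.O ((Θ ^ 2 + Θ) * V.ah û) +
      v.1 ^ 2 * ((Θ ^ 2 + Θ) * V.ah û)) + ((us.2 + Θ * û.2) * (v.1 ^ 2 + v.1 + F'.e 0 *
      (u'.1 ^ 2 + u'.1)) + (us.1 ^ 2 + us.1 + Θ * (û.1 ^ 2 + û.1)) * (v.2 + (F'.e 0 * u'.2 +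
      (v.1 ^ 2 + v.1 + F'.e 0 * (u'.1 ^ 2 + u'.1)) * V.β)))) := by
    generalize p.O ((Θ ^ 2 + Θ) * V.ah û) = o at *
    simp only [Φ, ah] at e2 ⊢
    linear_combination (norm := grind) e2
  rw [e3]
  simp only [map_add] at z5 ⊢
  rw [z1, z2, z3, z4, z5]
  simp [CharTwo.add_self_eq_zero]

end Lv

end Pool.Agent.Lib.MP_788af2_nt.G2
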