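import Pool.Agent.Lib.MP_788af2_nt.G2.Curve

/-!
Integrality: the ring `R` is integrally closed, patching, and normalisation of descent data.
-/

set_option linter.unusedSectionVars false

namespace Pool.Agent.Lib.MP_788af2_nt.G2

open Polynomial

lemma dedekind_patch {C : Type} [CommRing C] [IsDedekindDomain C] (n d : C) :
    ∃ j r c : C, d * j = n * r ∧ d * c = n * (1 - j) := by
  obtain ⟨J, hJ⟩ : Ideal.span {n, d} ∣ Ideal.span {n} :=
    Ideal.dvd_iff_le.2 (Ideal.span_mono (by simp))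
  have h1 : n ∈ Ideal.span {n, d} * J := hJ ▸ Ideal.mem_span_singleton_self n
  rw [Ideal.span_insert, Ideal.sup_mul, Submodule.mem_sup] at h1
  obtain ⟨_, h2, _, h3, h4⟩ := h1
  obtain ⟨j, hj, rfl⟩ := Ideal.mem_span_singleton_mul.1 h2
  obtain ⟨c, -, rfl⟩ := Ideal.mem_span_singleton_mul.1 h3
  have h5 : d * j ∈ Ideal.span {n} := hJ ▸ Ideal.mul_mem_mul (Ideal.subset_span (by simp)) hj
  obtain ⟨r, hr⟩ := Ideal.mem_span_singleton'.1 h5
  exact ⟨j, r, c, by rw [← hr, mul_comm], by linear_combination h4⟩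

variable {k : Type} [Field k] [Fintype k] [CharP k 2] {S : Type} [NormedField S]
  [IsUltrametricDist S] [Algebra (RatFunc k) S] [IsSepClosure (RatFunc k) S] [CharP S 2]
  [DecidableEq S]

namespace Fam

variable {p : Pl k S} {ι : Type} [Fintype ι] [DecidableEq ι] (F : Fam p ι)

lemma integral_aux : (∀ u ∈ F.L, ∀ b ∈ F.R, ∀ c ∈ F.R, u ^ 2 + b * u = c → u ∈ F.R) ∧
    ∀ x ∈ F.L, x ≠ 0 → ∃ j ∈ F.R, j / x ∈ F.R ∧ (1 + j) * x ∈ F.R := by
  let _ : Algebra k[X] S := p.φ.toAlgebra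
  have : IsScalarTower k[X] (RatFunc k) S := IsScalarTower.of_algebraMap_eq fun _ => rfl
  have hq : ∀ u b c : S, IsIntegral k[X] b → IsIntegral k[X] c → u ^ 2 + b * u = c →
      IsIntegral k[X] u := fun u b c hb hc h => by
    refine IsIntegral.of_aeval_monic_of_isIntegral_coeff (p := X ^ 2 + C b * X)
      (by monicity!) (by rw [show (X ^ 2 + C b * X : S[X]).natDegree = 2 by compute_degree!]; simp)
      (by simpa [h] using hc) fun i => ?_
    simp only [coeff_add, coeff_X_pow, coeff_C_mul, coeff_X]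
    refine IsIntegral.add ?_ (hb.mul ?_) <;> split_ifs
    exacts [isIntegral_one, isIntegral_zero, isIntegral_one, isIntegral_zero]
  have hA : ∀ u ∈ p.A, IsIntegral k[X] u := by rintro _ ⟨f, rfl⟩; exact isIntegral_algebraMap
  have hR : ∀ u ∈ F.R, IsIntegral k[X] u := fun u hu =>
    (Subring.closure_le (t := (integralClosure k[X] S).toSubring)).2 (by
      rintro x (hx | ⟨i, rfl⟩)
      · exact hA x hx
      · exact hq _ 1 _ isIntegral_one (hA _ (F.x_mem i)) (by rw [one_mul])) hu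
  have hI : ∀ u ∈ F.L, IsIntegral k[X] u → u ∈ F.R := fun u hu h => by
    refine F.mem_R.2 ⟨F.L_Lh hu, fun γ => ?_⟩
    obtain ⟨r, hr⟩ := (F.mem_L.1 hu).2 γ
    have h1 : IsIntegral k[X] (F.co γ u) :=
      IsIntegral.sum _ fun δ _ => (h.mul (hR _ (F.e_R γ))).map (F.σ δ)
    rw [← hr, isIntegral_algebraMap_iff (algebraMap (RatFunc k) S).injective,
      IsIntegrallyClosed.isIntegral_iff] at h1
    obtain ⟨f, rfl⟩ := h1
    exact ⟨f, hr⟩
  refine ⟨fun u hu b hb c hc h => hI u hu (hq u b c (hR b hb) (hR c hc) h), fun x hx h0 => ?_⟩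
  have : FiniteDimensional (RatFunc k) F.L :=
    IntermediateField.finiteDimensional_adjoin fun x _ => Algebra.IsIntegral.isIntegral x
  have := integralClosure.isDedekindDomain k[X] (RatFunc k) F.L
  have hC : ∀ c : integralClosure k[X] F.L, ((c : F.L) : S) ∈ F.R := fun c =>
    hI _ (c : F.L).2 (c.2.map F.L.val)
  have hC' : ∀ u ∈ F.R, ∃ c : integralClosure k[X] F.L, ((c : F.L) : S) = u := fun u hu =>
    ⟨⟨⟨u, F.R_L hu⟩, (isIntegral_algHom_iff (F.L.val.restrictScalars k[X]) Subtype.val_injective).1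
      (hR u hu)⟩, rfl⟩
  obtain ⟨d, hd, hdx⟩ := F.exists_den hx
  obtain ⟨n', hn⟩ := hC' _ hdx
  obtain ⟨d', hd'⟩ := hC' _ (F.φ_R d)
  have hd0 := p.φ_ne hd
  obtain ⟨j, r, c, h1, h2⟩ := dedekind_patch n' d'
  have h3 := congrArg (fun c : integralClosure k[X] F.L => ((c : F.L) : S)) h1
  have h4 := congrArg (fun c : integralClosure k[X] F.L => ((c : F.L) : S)) h2
  simp only [MulMemClass.coe_mul, hn, hd', AddSubgroupClass.coe_sub, OneMemClass.coe_one] at h3 h4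
  refine ⟨_, hC j, ?_, ?_⟩
  · convert hC r using 1
    rw [div_eq_iff h0]
    exact mul_left_cancel₀ hd0 (by grind)
  · convert hC c using 1
    exact mul_left_cancel₀ hd0 (by grind)

lemma R_of_quad {u b c : S} (hu : u ∈ F.L) (hb : b ∈ F.R) (hc : c ∈ F.R) (h : u ^ 2 + b * u = c) :
    u ∈ F.R := F.integral_aux.1 u hu b hb c hc h

/-- The ring `R[1/j]`. -/
def Loc (j : S) (hj : j ∈ F.R) : Subring S where
  carrier := {u | ∃ n : ℕ, j ^ n * u ∈ F.R}
  mul_mem' := by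
    rintro u v ⟨n, h⟩ ⟨m, h'⟩
    exact ⟨n + m, by rw [pow_add, mul_mul_mul_comm]; exact mul_mem h h'⟩
  one_mem' := ⟨0, by simp⟩
  add_mem' := by
    rintro u v ⟨n, h⟩ ⟨m, h'⟩
    exact ⟨n + m, by
      rw [show j ^ (n + m) * (u + v) = j ^ m * (j ^ n * u) + j ^ n * (j ^ m * v) by ring]
      exact add_mem (mul_mem (pow_mem hj m) h) (mul_mem (pow_mem hj n) h')⟩
  zero_mem' := ⟨0, by simp⟩
  neg_mem' := by rintro u ⟨n, h⟩; exact ⟨n, by simpa using h⟩

/-- Overrings of `R` that are stable under `D` and closed under quadratic equations. -/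
structure Gd (T : Subring S) : Prop where
  le : ∀ u ∈ F.R, u ∈ T
  der : ∀ u ∈ T, p.D u ∈ T
  quad : ∀ u ∈ F.L, ∀ b ∈ T, ∀ c ∈ T, u ^ 2 + b * u = c → u ∈ T

lemma gd_Loc {j : S} (hj : j ∈ F.R) : F.Gd (F.Loc j hj) where
  le u hu := ⟨0, by simpa using hu⟩
  der := by
    rintro u ⟨n, h⟩
    refine ⟨n * 2, ?_⟩
    rw [pow_mul, ← p.D_sq_mul, sq, mul_assoc]
    exact F.stab_R.D_mem (mul_mem (pow_mem hj n) h)
  quad := by
    rintro u hu b ⟨n, hb⟩ c ⟨m, hc⟩ h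
    refine ⟨n + m, F.R_of_quad (mul_mem (F.R_L (pow_mem hj _)) hu) (mul_mem (pow_mem hj m) hb)
      (mul_mem (pow_mem hj (n + n + m)) hc) ?_⟩
    rw [← h]; ring

lemma glue {j u : S} (hj : j ∈ F.R) (h : u ∈ F.Loc j hj)
    (h' : u ∈ F.Loc (1 + j) (add_mem (one_mem _) hj)) : u ∈ F.R := by
  obtain ⟨n, h⟩ := h
  obtain ⟨m, h'⟩ := h'
  have h1 : n ≤ 2 ^ (n + m) := (Nat.le_add_right n m).trans Nat.lt_two_pow_self.le
  have h2 : m ≤ 2 ^ (n + m) := (Nat.le_add_left m n).trans Nat.lt_two_pow_self.le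
  have h3 : (1 + j) ^ 2 ^ (n + m) = 1 + j ^ 2 ^ (n + m) := by rw [add_pow_char_pow, one_pow]
  have := add_mem (mul_mem (pow_mem hj (2 ^ (n + m) - n)) h)
    (mul_mem (pow_mem (add_mem (one_mem _) hj) (2 ^ (n + m) - m)) h')
  rw [← mul_assoc, ← mul_assoc, ← pow_add, ← pow_add, Nat.sub_add_cancel h1, Nat.sub_add_cancel h2,
    h3] at this
  convert this using 1
  grind

end Fam

/-- The data of a curve together with a common denominator. -/
structure Lv (p : Pl k S) where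
  ν : k[X]
  N : k[X]
  B : S
  ν_ne : ν ≠ 0
  sep : N.Separable
  N_dvd : N ∣ ν
  B_ne : B ≠ 0
  hβ : p.φ N * p.dl B ∈ p.A
  hB : p.φ ν * B ∈ p.A
  hB' : p.φ ν * B⁻¹ ∈ p.A

namespace Lv

variable {p : Pl k S} (V : Lv p)

/-- The logarithmic derivative of `B`. -/
noncomputable def β : S := p.dl V.B

lemma O_β : p.O V.β = V.β := p.O_dl _

lemma B_K : V.B ∈ p.K := p.mem_K_of_mul V.ν_ne V.hB

lemma νβ : p.φ V.ν * V.β ∈ p.A := by
  obtain ⟨c, hc⟩ := V.N_dvd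
  rw [hc, map_mul, mul_right_comm]
  exact mul_mem V.hβ (p.φ_mem c)

lemma β_K : V.β ∈ p.K := p.mem_K_of_mul V.ν_ne V.νβ

lemma n_ne : p.φ V.ν ≠ 0 := p.φ_ne V.ν_ne

lemma alpha0 {a x y z : S} (h : On a V.B x y) (hx : x ≠ 0) (hz : z ^ 2 + z = x + a) :
    p.dl (x * z + y) + z * V.β = p.D x / x + V.β + y / x * V.β := by
  have e := root_eq h hz
  have hB := V.B_ne
  have hX : x * z + y ≠ 0 := fun h0 => hB (by rw [← e, h0, zero_mul])
  have e2 := congrArg p.D e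
  rw [p.D_mul, p.D_add _ x] at e2
  simp only [β, Pl.dl]
  generalize p.D (x * z + y) = dX at *
  generalize p.D V.B = dB at *
  generalize V.B = B at *
  subst e e2
  have : x * z + y + x ≠ 0 := right_ne_zero_of_mul hB
  field_simp
  grind

variable {ι : Type} [Fintype ι] [DecidableEq ι] (F : Fam p ι)

lemma near_pole {T : Subring S} (hT : F.Gd T) {a x y j : S} (ha : p.φ V.ν * a ∈ p.A)
    (h : On a V.B x y) (hx : x ≠ 0) (hxL : x ∈ F.L) (hyL : y ∈ F.L) (hj : j ∈ F.R)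
    (h1 : (p.φ V.ν * x)⁻¹ ∈ T) (h2 : (1 + j) * (p.φ V.ν * x) ∈ F.R) :
    p.φ V.ν * (p.D x / x) ∈ T ∧ p.φ V.ν * ((1 + j) * (y / x)) ∈ T ∧ V.B / x ^ 2 ∈ T := by
  have hn := V.n_ne
  have tn := hT.le _ (F.φ_R V.ν)
  have ta := hT.le _ (F.A_le_R ha)
  have tB := hT.le _ (F.A_le_R V.hB)
  have tj := hT.le _ (add_mem (one_mem _) hj)
  have ta' := hT.der _ (mul_mem tn ta)
  have tB' := hT.der _ (mul_mem tn tB)
  rw [← mul_assoc, ← sq, p.D_sq_mul] at ta' tB'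
  set n := p.φ V.ν
  set r := (n * x)⁻¹ with hr
  have hx' : x⁻¹ = n * r := by rw [hr]; field_simp
  have tρ : x⁻¹ ∈ T := hx' ▸ mul_mem tn h1
  have tBx : V.B / x ^ 2 ∈ T := by
    convert mul_mem (mul_mem tB tρ) h1 using 1; rw [hr]; field_simp
  have tax : a * x⁻¹ ∈ T := by convert mul_mem ta h1 using 1; rw [hr]; field_simp
  unfold On at h
  have ev : (y / x ^ 2) ^ 2 + x⁻¹ * (y / x ^ 2) = x⁻¹ + x⁻¹ ^ 2 * a + (x⁻¹ ^ 2) ^ 2 * V.B := by
    field_simp; grind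
  have tv : y / x ^ 2 ∈ T := hT.quad _ (div_mem hyL (pow_mem hxL 2)) _ tρ _
    (add_mem (add_mem tρ (by convert mul_mem tax tρ using 1; ring))
      (by convert mul_mem tBx (pow_mem tρ 2) using 1; field_simp)) ev
  have ed := congrArg p.D ev
  simp only [p.D_add, p.D_sq, p.D_sq_mul, p.D_mul x⁻¹, p.D_inv] at ed
  refine ⟨?_, ?_, tBx⟩
  · have e : n * (p.D x / x) = (1 + y / x ^ 2) * (n * p.D (y / x ^ 2) + n ^ 2 * p.D a * r +
        n ^ 2 * p.D V.B * r * x⁻¹ ^ 2) + n * (p.D x / x ^ 2) *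
        (y / x ^ 2 + 1 + a * x⁻¹ + V.B / x ^ 2 * x⁻¹) := by
      have e1 : p.D (y / x ^ 2) + p.D a / x + p.D V.B / x ^ 3 = (1 + y / x ^ 2) * (p.D x / x) := by
        apply mul_left_cancel₀ (inv_ne_zero hx)
        linear_combination (norm := skip) ed
        field_simp
        grind
      have e2 : n * p.D (y / x ^ 2) + n ^ 2 * p.D a * r + n ^ 2 * p.D V.B * r * x⁻¹ ^ 2 =
          n * (p.D (y / x ^ 2) + p.D a / x + p.D V.B / x ^ 3) := by rw [hr]; field_simp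
      rw [e2, e1]
      field_simp
      grind
    rw [e]
    have := hT.der _ tρ
    rw [p.D_inv] at this
    exact add_mem (mul_mem (add_mem (one_mem _) tv) (add_mem (add_mem (mul_mem tn (hT.der _ tv))
      (mul_mem ta' h1)) (mul_mem (mul_mem tB' h1) (pow_mem tρ 2)))) (mul_mem (mul_mem tn this)
      (add_mem (add_mem (add_mem tv (one_mem _)) tax) (mul_mem tBx tρ)))
  · refine hT.quad _ (mul_mem (F.R_L (F.φ_R _)) (mul_mem (F.R_L (add_mem (one_mem _) hj))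
      (div_mem hyL hxL))) _ (mul_mem tn tj) _ (add_mem (mul_mem (mul_mem tn tj) (hT.le _ h2))
      (mul_mem (mul_mem (pow_mem tj 2) tn) (add_mem ta (mul_mem tn tBx)))) ?_
    field_simp
    grind

lemma near_zero {T : Subring S} (hT : F.Gd T) {a x y j : S} (ha : p.φ V.ν * a ∈ p.A)
    (h : On a V.B x y) (hx : x ≠ 0) (hxL : x ∈ F.L) (hyL : y ∈ F.L) (hj : j ∈ F.R)
    (h1 : p.φ V.ν * x ∈ T) (h2 : j / (p.φ V.ν * x) ∈ F.R) :
    p.φ V.ν ^ 6 * (p.D x / x + V.β + y / x * V.β) ∈ T ∧ p.φ V.ν * (j * (y / x)) ∈ T := by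
  have hn := V.n_ne
  have hB := V.B_ne
  have tn := hT.le _ (F.φ_R V.ν)
  have ta := hT.le _ (F.A_le_R ha)
  have tB := hT.le _ (F.A_le_R V.hB)
  have tB' := hT.le _ (F.A_le_R V.hB')
  have tj := hT.le _ hj
  have ta' := hT.der _ (mul_mem tn ta)
  have tx' := hT.der _ (mul_mem tn h1)
  rw [← mul_assoc, ← sq, p.D_sq_mul] at ta' tx'
  set n := p.φ V.ν
  have ed := congrArg p.D h
  rw [show x ^ 3 = x ^ 2 * x by ring, mul_comm a] at ed
  simp only [p.D_add, p.D_sq, p.D_sq_mul, p.D_mul x] at ed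
  unfold On at h
  have ty : n ^ 2 * y ∈ T := hT.quad _ (mul_mem (pow_mem (F.R_L (F.φ_R _)) 2) hyL) _
    (mul_mem tn h1) _ (mul_mem tn (add_mem (add_mem (pow_mem h1 3) (mul_mem ta (pow_mem h1 2)))
      (mul_mem (pow_mem tn 2) tB))) (by grind)
  have ty' := hT.der _ ty
  rw [p.D_sq_mul] at ty'
  constructor
  · have e : n ^ 6 * (p.D x / x + V.β + y / x * V.β) = n * V.B⁻¹ * (n * (n * a * (n * x) *
        (n ^ 2 * p.D x) + n * (n * x) * (n ^ 2 * p.D y) + n ^ 2 * p.D a * (n * x) ^ 2 +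
        n ^ 2 * y * (n ^ 2 * p.D y)) + n * x * (n ^ 2 * p.D x) * (n ^ 2 * y) +
        n ^ 2 * p.D a * (n * x) * (n ^ 2 * y)) := by
      simp only [β, Pl.dl]
      have e1 : p.D V.B = x * p.D y + y * p.D x + x ^ 2 * p.D x + x ^ 2 * p.D a := by grind
      have e2 : V.B = y ^ 2 + x * y + x ^ 3 + a * x ^ 2 := by grind
      rw [e1]
      field_simp
      linear_combination (norm := grind) p.D x * e2
    rw [e]
    exact mul_mem tB' (add_mem (add_mem (mul_mem tn (add_mem (add_mem (add_mem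
      (mul_mem (mul_mem ta h1) tx') (mul_mem (mul_mem tn h1) ty')) (mul_mem ta' (pow_mem h1 2)))
      (mul_mem ty ty'))) (mul_mem (mul_mem h1 tx') ty)) (mul_mem (mul_mem ta' h1) ty))
  · refine hT.quad _ (mul_mem (F.R_L (F.φ_R _)) (mul_mem (F.R_L hj) (div_mem hyL hxL))) _
      (mul_mem tn tj) _ (add_mem (mul_mem (mul_mem (pow_mem tj 2) tn) (add_mem h1 ta))
      (mul_mem (mul_mem (pow_mem tn 3) tB) (pow_mem (hT.le _ h2) 2))) ?_
    field_simp
    grind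

/-- Normalisation of the descent data of a point. -/
lemma normal {a x y z : S} (ha : p.φ V.ν * a ∈ p.A) (h : On a V.B x y) (hx : x ≠ 0)
    (hxL : x ∈ F.L) (hyL : y ∈ F.L) (hz : z ^ 2 + z = x + a) :
    ∃ ζ ∈ F.L, p.φ V.ν ^ 2 * ((z + ζ) ^ 2 + (z + ζ)) ∈ F.R ∧
      p.φ V.ν ^ 7 * (p.dl (x * z + y) + (z + ζ) * V.β) ∈ F.R := by
  have hn := V.n_ne
  obtain ⟨j, hj, h1, h2⟩ := F.integral_aux.2 _ (mul_mem (F.R_L (F.φ_R V.ν)) hxL) (mul_ne_zero hn hx)
  have g1 := F.gd_Loc hj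
  have g2 := F.gd_Loc (add_mem (one_mem _) hj)
  obtain ⟨p1, p2, p3⟩ := V.near_pole F g1 ha h hx hxL hyL hj ⟨1, by rwa [pow_one, ← div_eq_mul_inv]⟩ h2
  have q0 : p.φ V.ν * x ∈ F.Loc _ (add_mem (one_mem _) hj) := ⟨1, by simpa using h2⟩
  obtain ⟨q1, q2⟩ := V.near_zero F g2 ha h hx hxL hyL hj q0 h1
  have tn := F.φ_R V.ν
  have tβ := F.A_le_R V.νβ
  have e0 := V.alpha0 h hx hz
  unfold On at h
  refine ⟨j * (y / x), mul_mem (F.R_L hj) (div_mem hyL hxL), F.glue hj ?_ ?_, F.glue hj ?_ ?_⟩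
  · convert add_mem (add_mem (mul_mem (pow_mem (g1.le _ tn) 2) p3) (pow_mem p2 2))
      (mul_mem (g1.le _ tn) p2) using 1
    field_simp
    grind
  · convert add_mem (add_mem (mul_mem (g2.le _ tn) (add_mem q0 (g2.le _ (F.A_le_R ha))))
      (pow_mem q2 2)) (mul_mem (g2.le _ tn) q2) using 1
    grind
  · convert mul_mem (pow_mem (g1.le _ tn) 5) (add_mem (mul_mem (g1.le _ tn)
      (add_mem p1 (g1.le _ tβ))) (mul_mem p2 (g1.le _ tβ))) using 1
    grind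
  · convert add_mem (mul_mem (g2.le _ tn) q1) (mul_mem (pow_mem (g2.le _ tn) 5)
      (mul_mem q2 (g2.le _ tβ))) using 1
    grind

end Lv

end Pool.Agent.Lib.MP_788af2_nt.G2
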