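import Pool.Agent.Lib.MP_788af2_nt.G2.Amb

/-!
The descent map from big points to the ambient space, its kernel and its isotropy.
-/

set_option linter.unusedSectionVars false

namespace Pool.Agent.Lib.MP_788af2_nt.G2

open Polynomial

variable {k : Type} [Field k] [Fintype k] [CharP k 2] {S : Type} [NormedField S]
  [IsUltrametricDist S] [Algebra (RatFunc k) S] [IsSepClosure (RatFunc k) S] [CharP S 2]
  [DecidableEq S] {p : Pl k S}

namespace Lv

variable {V : Lv p} {ι : Type} [Fintype ι] [DecidableEq ι] {F : Fam p ι} {a : S}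

lemma a_K (ha : p.φ V.ν * a ∈ p.A) : a ∈ p.K := p.mem_K_of_mul V.ν_ne ha

variable (F) in
/-- The group of big points over `L`. -/
noncomputable def M (ha : p.φ V.ν * a ∈ p.A) : AddSubgroup (wc a V.B).Point :=
  MT V.B (T := F.L.toSubfield) (F.K_L (a_K ha))

variable (F) in
/-- `u` is the normalised descent datum of `P`. -/
def Om (P : (wc a V.B).Point) (u : S × S) : Prop :=
  u ∈ V.Amb F ∧ (∀ γ, dat F γ u ∈ V.Vs) ∧ ∃ X z, Bg P X z ∧ u.1 + z ∈ F.L ∧ V.ah u = p.dl X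

lemma bg_Lh {P : (wc a V.B).Point} {X z : S} (hP : Rat F.L.toSubfield P) (h : Bg P X z) :
    z ∈ F.Lh := by
  rcases h with ⟨-, -, rfl⟩ | ⟨x, y, h, rfl, hz, hX⟩
  · exact zero_mem _
  obtain ⟨h1, h2⟩ := big_of h.on hz hX
  obtain ⟨hx, hy⟩ := hP x y h
  have hx0 : x ≠ 0 := ne_of_th (h2 ▸ hX)
  have e := root_eq h.on hz
  have := F.small_Lh (z := (x * z + y + x) / x) (by
    rw [show ((x * z + y + x) / x) ^ 2 + (x * z + y + x) / x = V.B / x ^ 2 by field_simp; grind]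
    exact F.L_Lh (div_mem (F.K_L V.B_K) (pow_mem hx 2))) (by
      rw [norm_div, div_lt_one (norm_pos_iff.2 hx0)]; linarith)
  convert add_mem this (F.L_Lh (add_mem (div_mem hy hx) (one_mem _))) using 1
  field_simp
  grind

lemma exists_om (hD : F.Dv (V.ν ^ 9)) {ha : p.φ V.ν * a ∈ p.A} {P} (hP : P ∈ M F ha) :
    ∃ u, Om F P u := by
  obtain ⟨hR, X, z, h⟩ := hP
  have hz := bg_Lh hR h
  obtain ⟨ζ, h1, h2, h3⟩ : ∃ ζ ∈ F.L, p.φ V.ν ^ 2 * ((z + ζ) ^ 2 + (z + ζ)) ∈ F.R ∧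
      p.φ V.ν ^ 7 * (p.dl X + (z + ζ) * V.β) ∈ F.R := by
    rcases h with ⟨-, rfl, rfl⟩ | ⟨x, y, h, rfl, hz, hX⟩
    · exact ⟨0, zero_mem _, by simp, by simp [Pl.dl]⟩
    · exact V.normal F ha h.on (ne_of_th ((big_of h.on hz hX).2 ▸ hX))
        (hR x y h).1 (hR x y h).2 hz
  obtain ⟨r, hr, h4⟩ := F.exists_sm (add_mem hz (F.L_Lh h1))
  have tn := F.φ_R V.ν
  have e : V.ah (z + ζ + r, p.dl X + (z + ζ + r) * V.β) = p.dl X := by simp only [ah]; grind
  obtain ⟨v, hv, h5, h6, h7⟩ := normalise hD (u := (z + ζ + r, p.dl X + (z + ζ + r) * V.β))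
    ⟨add_mem (add_mem hz (F.L_Lh h1)) (F.R_Lh hr), h4, by
      convert add_mem h2 (mul_mem (pow_mem tn 2) (add_mem (pow_mem hr 2) hr)) using 1; grind, by
      convert add_mem h3 (mul_mem (pow_mem tn 6) (mul_mem hr (F.A_le_R V.νβ))) using 1; ring,
      fun γ => by simp [df, e, p.O_dl, CharTwo.add_self_eq_zero]⟩
  exact ⟨v, hv, h5, X, z, h, by convert add_mem h6 (add_mem h1 (F.R_L hr)) using 1; grind,
    h7.trans e⟩

lemma om_ext (hD : F.Dv (V.ν ^ 9)) {u v : S × S} (hu : u ∈ V.Amb F) (hv : v ∈ V.Amb F)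
    (h1 : ∀ γ, dat F γ u ∈ V.Vs) (h2 : ∀ γ, dat F γ v ∈ V.Vs) (h3 : u.1 + v.1 ∈ F.L)
    (h4 : V.ah u = V.ah v) : u = v := by
  have := fst_eq hD (add_mem hu hv) (fun γ => by rw [map_add]; exact add_mem (h1 γ) (h2 γ)) h3
  simp only [Prod.fst_add, ah] at this h4
  ext <;> grind

lemma Om.unique (hD : F.Dv (V.ν ^ 9)) {P : (wc a V.B).Point} {u v : S × S} (h : Om F P u)
    (h' : Om F P v) : u = v := by
  obtain ⟨h1, h2, X, z, h3, h4, h5⟩ := h
  obtain ⟨g1, g2, X', z', g3, g4, g5⟩ := h'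
  obtain ⟨rfl, rfl⟩ := h3.unique g3
  exact om_ext hD h1 g1 h2 g2 (by convert add_mem h4 g4 using 1; grind) (h5.trans g5.symm)

lemma bg_ne {P : (wc a V.B).Point} {X z : S} (h : Bg P X z) : X ≠ 0 := by
  rcases h with ⟨-, rfl, -⟩ | ⟨x, y, -, -, -, h⟩
  · simp
  · exact ne_of_th h

lemma Om.add {ha : p.φ V.ν * a ∈ p.A} {P Q} (hP : P ∈ M F ha) (hQ : Q ∈ M F ha) {u v : S × S}
    (h : Om F P u) (h' : Om F Q v) : Om F (P + Q) (u + v) := by
  obtain ⟨h1, h2, X, z, h3, h4, h5⟩ := h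
  obtain ⟨g1, g2, X', z', g3, g4, g5⟩ := h'
  obtain ⟨X'', z'', k1, -, k2, s, -, k3⟩ := h3.add (F.K_L (a_K ha)) g3 hP.1 hQ.1
  refine ⟨add_mem h1 g1, fun γ => by rw [map_add]; exact add_mem (h2 γ) (g2 γ), X'', z'', k1, ?_, ?_⟩
  · convert add_mem (add_mem h4 g4) k2 using 1; simp only [Prod.fst_add]; grind
  · have := congrArg p.dl k3
    rw [p.dl_mul (mul_ne_zero (bg_ne k1) (bg_ne h3)) (bg_ne g3), p.dl_mul (bg_ne k1) (bg_ne h3),
      p.dl_sq] at this
    rw [ah_add, h5, g5]; grind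

/-- The descent map. -/
noncomputable def ω (hD : F.Dv (V.ν ^ 9)) (ha : p.φ V.ν * a ∈ p.A) : M F ha →+ S × S :=
  AddMonoidHom.mk' (fun P => (exists_om hD P.2).choose) fun P Q =>
    (exists_om hD (P + Q).2).choose_spec.unique hD
      (Om.add P.2 Q.2 (exists_om hD P.2).choose_spec (exists_om hD Q.2).choose_spec)

variable (hD : F.Dv (V.ν ^ 9)) (ha : p.φ V.ν * a ∈ p.A)

lemma om_ω (P : M F ha) : Om F P.1 (ω hD ha P) := (exists_om hD P.2).choose_spec

variable (F) in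
/-- The Galois action on points. -/
noncomputable def σP (γ : ι → ZMod 2) : (wc a V.B).Point →+ (wc a V.B).Point :=
  hm (F.σ γ : S →+* S) 0 (by simpa using p.aut_K _ (a_K ha)) (p.aut_K _ V.B_K) V.B_ne

lemma _root_.Pool.Agent.Lib.MP_788af2_nt.G2.At.σP {P : (wc a V.B).Point} {x y : S} (h : At P x y)
    (γ) : At (σP F ha γ P) (F.σ γ x) (F.σ γ y) := by
  have := h.hm (F.σ γ : S →+* S) 0 (by simpa using p.aut_K _ (a_K ha)) (p.aut_K _ V.B_K) V.B_ne
  rw [show F.σ γ y = (F.σ γ : S →+* S) y + 0 * (F.σ γ : S →+* S) x by simp]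
  exact this

lemma bg_σ {P : (wc a V.B).Point} {X z : S} (h : Bg P X z) (γ) :
    Bg (σP F ha γ P) (F.σ γ X) (F.σ γ z) :=
  h.map (F.σ γ : S →+* S) (p.nm_G _ (F.σ_mem γ)) _ _ _

/-- The Galois action on big points. -/
noncomputable def σM (γ : ι → ZMod 2) : M F ha →+ M F ha :=
  ((σP F ha γ).comp (M F ha).subtype).codRestrict _ fun P => by
    obtain ⟨P, hR, X, z, h⟩ := P
    refine ⟨fun x y h1 => ?_, _, _, bg_σ ha h γ⟩
    rcases pt_cases P with rfl | ⟨x', y', h2⟩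
    · exact absurd (map_zero _) h1.ne
    · obtain ⟨rfl, rfl⟩ := h1.inj (h2.σP ha γ)
      exact ⟨F.σ_L γ (hR _ _ h2).1, F.σ_L γ (hR _ _ h2).2⟩

lemma ω_σ (γ) (P : M F ha) : ω hD ha (σM ha γ P) = σ2 F γ (ω hD ha P) := by
  obtain ⟨h1, h2, X, z, h3, h4, h5⟩ := om_ω hD ha P
  refine (om_ω hD ha _).unique hD ⟨Amb.σ h1 γ, fun δ => by rw [dat_σ h1]; exact h2 _, _, _,
    bg_σ ha h3 γ, ?_, by rw [ah_σ, h5, p.aut_dl]⟩
  simpa [σ2] using F.σ_L γ h4

/-- The data of a point at the base coordinate. -/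
noncomputable def cM : M F ha →+ V.Vs :=
  ((dat F 0).comp (ω hD ha)).codRestrict _ fun P => (om_ω hD ha P).2.1 0

lemma ω_eq (P : M F ha) : ω hD ha P = V.lf F fun γ => cM hD ha (σM ha γ P) :=
  eq_lf (om_ω hD ha P).1 fun γ => by
    change _ = dat F 0 (ω hD ha _)
    rw [ω_σ, dat_σ (om_ω hD ha P).1, zero_add]

lemma ker_cM (hd : F.Deep (th V.B) a) (P : M F ha) (h : ∀ γ, cM hD ha (σM ha γ P) = 0) : ∃ Q, P = Q + Q := by
  have := p.sepClosed
  have h0 : ω hD ha P = 0 := by rw [ω_eq]; simp only [h]; exact map_zero _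
  obtain ⟨-, -, X, z, h3, h4, h5⟩ := om_ω hD ha P
  rw [h0] at h4 h5
  have hz : z ∈ F.L := by simpa using h4
  have hX : X ∈ F.L := by
    rcases h3 with ⟨-, rfl, -⟩ | ⟨x, y, h, rfl, -⟩
    · exact one_mem _
    · exact add_mem (mul_mem (P.2.1 x y h).1 hz) (P.2.1 x y h).2
  have h6 : p.D X = 0 := by simpa [ah, Pl.dl, bg_ne h3] using h5.symm
  rw [← p.D_eq_zero h6] at h3
  obtain ⟨Q, hQ, e⟩ := h3.half V.B_ne (T := F.L.toSubfield) (F.K_L (a_K ha))
    (fun w hw => hd w (F.L_Lh hw)) (F.E_L hX) hz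
  exact ⟨⟨Q, hQ⟩, Subtype.ext e⟩

lemma M_two (P : M F ha) (h : P + P = 0) : P = 0 := by
  obtain ⟨X, z, h1⟩ := P.2.2
  exact Subtype.ext (h1.two_ne (congrArg Subtype.val h))

lemma conj_prod {F : Type} [Field F] [CharP F 2] {x x' X X' s B : F} (hs : s ^ 2 + s = x + x')
    (e : X * (X + x) = B) (e' : X' * (X' + x') = B) :
    (X + X') * s * ((X + x + X') * (s + 1)) = (x + x') ^ 2 * X' ∧
      (X + X') * s * ((X + x + (X' + x')) * s) * (X * X') = ((X + X') * s) ^ 2 * B := by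
  constructor <;> grind

omit ha in
lemma Φ_shift {u v : S × S} (hu : u ∈ V.Amb F) (hv : v ∈ V.Amb F) {g : S ≃ₐ[RatFunc k] S}
    (hg : g ∈ F.L.fixingSubgroup) {c d : ZMod 2} (h1 : g u.1 = u.1 + c2 c) (h2 : g v.1 = v.1 + c2 d) :
    g (V.Φ u v) = V.Φ u v + (c2 d * V.ah u + c2 c * V.ah v + c2 c * c2 d * V.β) := by
  have := c2_sq (S := S) c
  have := c2_sq (S := S) d
  simp only [Φ, ah, map_add, map_mul, map_pow, h1, h2, F.fix_L hg (Amb.aL hu),
    F.fix_L hg (Amb.aL hv), F.fix_L hg β_L]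
  grind

lemma exists_Φ0 (P Q : M F ha) : ∃ w, p.O w = w ∧ V.Φ (ω hD ha P) (ω hD ha Q) + w ∈ F.L := by
  obtain ⟨h1, -, X, z, h3, h4, h5⟩ := om_ω hD ha P
  obtain ⟨g1, -, X', z', g3, g4, g5⟩ := om_ω hD ha Q
  generalize ω hD ha P = u at *
  generalize ω hD ha Q = v at *
  have tu := Amb.hL h1
  have tv := Amb.hL g1
  have tβ : V.β ∈ F.L := β_L
  rcases h3 with ⟨-, rfl, rfl⟩ | ⟨x, y, h, rfl, hz, hX⟩
  · refine ⟨0, p.O_zero, ?_⟩
    rw [add_zero] at h4
    convert mul_mem (pow_mem h4 2) (add_mem (Amb.aL g1) (mul_mem tv tβ)) using 1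
    rw [Φ, h5]; simp only [Pl.dl, ah, p.D_one]; grind
  rcases g3 with ⟨-, rfl, rfl⟩ | ⟨x', y', h', rfl, hz', hX'⟩
  · refine ⟨0, p.O_zero, ?_⟩
    rw [add_zero] at g4
    convert mul_mem (pow_mem g4 2) (add_mem (Amb.aL h1) (mul_mem tu tβ)) using 1
    rw [Φ, g5]; simp only [Pl.dl, ah, p.D_one]; grind
  obtain ⟨p1, p2⟩ := P.2.1 x y h
  obtain ⟨p3, p4⟩ := Q.2.1 x' y' h'
  have e := root_eq h.on hz
  have e' := root_eq h'.on hz'
  have b := big_of h.on hz hX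
  by_cases hx : x = x'
  · subst hx
    have h6 : x * z + y = x * z' + y' := by
      have : (x * z + y + (x * z' + y')) * (x * z + y + x + (x * z' + y')) = 0 := by grind
      rcases mul_eq_zero.1 this with h7 | h7
      · grind
      · rw [show x * z' + y' = x * z + y + x by grind] at hX'
        exact absurd hX' b.1.not_gt
    have hx0 : x ≠ 0 := ne_of_th (b.2 ▸ hX)
    have h7 : u.1 + v.1 ∈ F.L := by
      convert add_mem (add_mem h4 g4) (div_mem (add_mem p2 p4) p1) using 1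
      field_simp; grind
    refine ⟨_, p.O_dl (x * z + y), ?_⟩
    convert add_mem (mul_mem (pow_mem h7 2) (add_mem (Amb.aL h1) (mul_mem tu tβ)))
      (add_mem (mul_mem (add_mem (pow_mem tu 2) tu) tβ) (Amb.aL h1)) using 1
    rw [Φ, g5, ← h6, ← h5]; simp only [ah]; grind
  have hX0 : x * z + y ≠ 0 := ne_of_th hX
  have hX0' : x' * z' + y' ≠ 0 := ne_of_th hX'
  have hxx : x + x' ≠ 0 := by grind
  refine ⟨_, p.O_dl ((x * z + y + (x' * z' + y')) * (z + z')), F.mem_L_of_fixed fun g hg => ?_⟩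
  obtain ⟨c, hc⟩ := exists_c2 (u := g z) (v := z) (by
    rw [← map_pow, ← map_add, hz, F.fix_L hg (add_mem p1 (F.K_L (a_K ha)))])
  obtain ⟨d, hd⟩ := exists_c2 (u := g z') (v := z') (by
    rw [← map_pow, ← map_add, hz', F.fix_L hg (add_mem p3 (F.K_L (a_K ha)))])
  have k1 := F.fix_L hg h4
  have k2 := F.fix_L hg g4
  rw [map_add] at k1 k2
  rw [map_add, Φ_shift h1 g1 hg (c := c) (d := d) (by grind) (by grind), p.aut_dl, h5, g5]
  simp only [map_add, map_mul, hc, hd, F.fix_L hg p1, F.fix_L hg p2, F.fix_L hg p3, F.fix_L hg p4]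
  have hs : (z + z') ^ 2 + (z + z') = x + x' := by linear_combination (norm := grind) hz + hz'
  have q1 : (x * z + y + (x' * z' + y')) * (z + z') * ((x * (z + 1) + y + (x' * z' + y')) *
      (z + 1 + z')) = (x + x') ^ 2 * (x' * z' + y') := by
    linear_combination (conj_prod hs e e').1
  have q2 : (x * z + y + (x' * z' + y')) * (z + z') * ((x * z + y + (x' * (z' + 1) + y')) *
      (z + (z' + 1))) = (x + x') ^ 2 * (x * z + y) := by
    linear_combination (conj_prod (hs.trans (add_comm _ _)) e' e).1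
  have n1 := left_ne_zero_of_mul (q1 ▸ mul_ne_zero (pow_ne_zero 2 hxx) hX0')
  have dd : ∀ {s t w : S}, s ≠ 0 → w ≠ 0 → (x * z + y + (x' * z' + y')) * (z + z') * t = s ^ 2 * w →
      p.dl t + p.dl ((x * z + y + (x' * z' + y')) * (z + z')) = p.dl w := fun hs hw e => by
    rw [add_comm, ← p.dl_mul n1 (right_ne_zero_of_mul (e ▸ mul_ne_zero (pow_ne_zero 2 hs) hw)), e,
      p.dl_sq_mul hs]
  rcases z2 c with rfl | rfl <;> rcases z2 d with rfl | rfl <;> simp only [map_zero, map_one]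
  · simp
  · have := dd hxx hX0 q2
    simp only [add_zero]; grind
  · have := dd hxx hX0' q1
    simp only [add_zero]; grind
  · have := dd (t := (x * (z + 1) + y + (x' * (z' + 1) + y')) * (z + 1 + (z' + 1)))
      (div_ne_zero n1 (mul_ne_zero hX0 hX0')) (mul_ne_zero (mul_ne_zero hX0 hX0') V.B_ne) (by
        have := (conj_prod hs e e').2
        rw [div_pow, div_mul_eq_mul_div, eq_div_iff (pow_ne_zero 2 (mul_ne_zero hX0 hX0')),
          show z + 1 + (z' + 1) = z + z' by linear_combination two0 S]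
        linear_combination (x * z + y) * (x' * z' + y') * this)
    rw [p.dl_mul (mul_ne_zero hX0 hX0') V.B_ne, p.dl_mul hX0 hX0'] at this
    simp only [β]; grind

lemma df_ω (P : M F ha) : V.df (ω hD ha P) = 0 := by
  obtain ⟨-, -, X, z, -, -, h⟩ := om_ω hD ha P
  rw [df, h, p.O_dl, CharTwo.add_self_eq_zero]

variable (V F) in
/-- The local pairing. -/
noncomputable def Gp (γ : ι → ZMod 2) : V.Vs →+ V.Vs →+ ZMod 2 :=
  AddMonoidHom.mk' (fun c => AddMonoidHom.mk' (fun c' =>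
    p.res (F.co 0 (V.Ψ (V.lf F (Pi.single γ c)) (V.lf F fun _ => c')))) fun c' d' => by
      rw [← map_add, ← map_add, ← map_add, ← map_add]; rfl) fun c d => by
    ext1 c'
    simp only [AddMonoidHom.mk'_apply, AddMonoidHom.add_apply, Pi.single_add, map_add]

omit ha in
lemma sum_Gp (c : (ι → ZMod 2) → V.Vs) (c' : V.Vs) :
    ∑ γ, V.Gp F γ (c γ) c' = p.res (F.co 0 (V.Ψ (V.lf F c) (V.lf F fun _ => c'))) := by
  conv_rhs => rw [← Finset.univ_sum_single c, map_sum, map_sum, AddMonoidHom.finsetSum_apply,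
    map_sum, map_sum]
  rfl

lemma isotropy (P Q : M F ha) (h : cM hD ha P = 0) :
    ∑ γ, V.Gp F γ (cM hD ha (σM ha γ P)) (cM hD ha Q) = 0 := by
  have h1 := (om_ω hD ha P).1
  have h2 := (om_ω hD ha Q).1
  rw [sum_Gp, ← ω_eq, Ψ_congr hD h1 (lf_mem _) h2 (congrArg Subtype.val h) (df_ω hD ha P)
    (dat_lf _ _)]
  obtain ⟨w, hw, hL⟩ := exists_Φ0 hD ha P Q
  have e : V.Ψ (ω hD ha P) (ω hD ha Q) = V.Φ (ω hD ha P) (ω hD ha Q) + w +
      p.O (V.Φ (ω hD ha P) (ω hD ha Q) + w) := by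
    rw [Ψ_eq, df_ω, df_ω, p.O_add, hw]; grind
  rw [e]
  exact res_oneO hD hL (e ▸ Ψ_den h1 h2) 0

end Lv

end Pool.Agent.Lib.MP_788af2_nt.G2
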