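import Mathlib

/-!
A separable closure of `k(t)` with a norm extending the place at infinity and its decomposition
group.
-/

namespace Pool.Agent.Lib.MP_788af2_nt.G2

open Polynomial LaurentSeries WithZero

/-- A norm preserving group of automorphisms whose fixed elements are approximated by monomials. -/
structure Pl (k S : Type) [Field k] [NormedField S] [Algebra (RatFunc k) S] where
  G : Subgroup (S ≃ₐ[RatFunc k] S)
  nm_G : ∀ g ∈ G, ∀ u, ‖g u‖ = ‖u‖
  one_lt : 1 < ‖algebraMap (RatFunc k) S RatFunc.X‖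
  approx : ∀ u, (∀ g ∈ G, g u = u) → u ≠ 0 → ∃ (c : k) (n : ℤ),
    ‖u - algebraMap (RatFunc k) S (RatFunc.C c * RatFunc.X ^ n)‖ < ‖u‖

theorem exists_pl_of_complete (k : Type) [Field k] (L : Type)
    [NontriviallyNormedField L] [IsUltrametricDist L] [CompleteSpace L] (ι : RatFunc k →+* L)
    (hτ : 1 < ‖ι RatFunc.X‖)
    (happ : ∀ x : L, x ≠ 0 → ∃ (c : k) (n : ℤ), ‖x - ι (RatFunc.C c * RatFunc.X ^ n)‖ < ‖x‖) :
    ∃ (S : Type) (_ : NormedField S) (_ : IsUltrametricDist S) (_ : Algebra (RatFunc k) S)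
      (_ : IsSepClosure (RatFunc k) S), Nonempty (Pl k S) := by
  let Ω := SeparableClosure L
  let _ : NormedField Ω := spectralNorm.normedField L Ω
  have hn : ∀ x : Ω, ‖x‖ = spectralNorm L Ω x := fun _ => rfl
  have hext : ∀ x : L, ‖algebraMap L Ω x‖ = ‖x‖ := fun x => spectralNorm_extends x
  have : IsUltrametricDist Ω :=
    IsUltrametricDist.isUltrametricDist_of_forall_norm_add_le_max_norm
      (isNonarchimedean_spectralNorm (K := L) (L := Ω))
  let _ : Algebra (RatFunc k) L := ι.toAlgebra
  let _ : Algebra (RatFunc k) Ω := ((algebraMap L Ω).comp ι).toAlgebra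
  have : IsScalarTower (RatFunc k) L Ω := IsScalarTower.of_algebraMap_eq fun _ => rfl
  let S := separableClosure (RatFunc k) Ω
  have hS : ∀ x : S, ‖x‖ = ‖(x : Ω)‖ := fun _ => rfl
  have : IsUltrametricDist S :=
    IsUltrametricDist.isUltrametricDist_of_forall_norm_add_le_max_norm fun x y => by
      rw [hS, hS, hS]; exact IsUltrametricDist.norm_add_le_max (x : Ω) y
  let ρ : (Ω ≃ₐ[L] Ω) →* (S ≃ₐ[RatFunc k] S) :=
    (AlgEquiv.restrictNormalHom S).comp (AlgEquiv.restrictScalarsHom (RatFunc k))
  have hρ : ∀ g (u : S), ((ρ g u : S) : Ω) = g u := fun g u =>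
    AlgEquiv.restrictNormal_commutes (g.restrictScalars (RatFunc k)) S u
  refine ⟨S, inferInstance, inferInstance, inferInstance, inferInstance,
    ⟨⟨ρ.range, ?_, ?_, ?_⟩⟩⟩
  · rintro _ ⟨g, rfl⟩ u
    rw [hS, hS, hρ, hn, hn]
    exact (spectralNorm_eq_of_equiv g _).symm
  · exact hτ.trans_eq (hext _).symm
  · intro u hu h0
    obtain ⟨x, hx⟩ := (InfiniteGalois.mem_range_algebraMap_iff_fixed (k := L) (u : Ω)).2
      fun g => by rw [← hρ, hu _ ⟨g, rfl⟩]
    obtain ⟨c, n, h⟩ := happ x (by rintro rfl; exact h0 (Subtype.ext (by simpa using hx.symm)))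
    refine ⟨c, n, ?_⟩
    rw [← hext, ← hext x, map_sub, hx] at h
    exact h

open scoped Valued in
theorem exists_pl (k : Type) [Field k] :
    ∃ (S : Type) (_ : NormedField S) (_ : IsUltrametricDist S) (_ : Algebra (RatFunc k) S)
      (_ : IsSepClosure (RatFunc k) S), Nonempty (Pl k S) := by
  have hX : ∀ n : ℤ, Valued.v (HahnSeries.single n (1 : k) : LaurentSeries k) = exp (-n) :=
    valuation_single_zpow k
  have : (Valued.v : Valuation (LaurentSeries k) (WithZero (Multiplicative ℤ))).IsNontrivial :=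
    ⟨⟨HahnSeries.single (1 : ℤ) (1 : k), by rw [hX]; simp, by rw [hX, ← exp_zero]; simp⟩⟩
  let _ : (Valued.v : Valuation (LaurentSeries k) (WithZero (Multiplicative ℤ))).RankOne :=
    Valuation.IsRankOneDiscrete.rankOne _ (e := 2) one_lt_two
  let τ : LaurentSeries k := HahnSeries.single (-1 : ℤ) (1 : k)
  let ev : k[X] →+* LaurentSeries k := eval₂RingHom HahnSeries.C τ
  have hpow : ∀ n : ℕ, τ ^ n = HahnSeries.single (-(n : ℤ)) 1 := fun n => by
    simp [τ, HahnSeries.single_pow]
  have hco : ∀ (p : k[X]) (n : ℕ), (ev p).coeff (-(n : ℤ)) = p.coeff n := by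
    intro p n
    induction p using Polynomial.induction_on' with
    | add p q hp hq => simp [hp, hq]
    | monomial m c =>
      simp only [ev, coe_eval₂RingHom, eval₂_monomial, hpow, HahnSeries.C_apply,
        HahnSeries.single_mul_single, zero_add, mul_one, HahnSeries.coeff_single, coeff_monomial,
        neg_inj, Nat.cast_inj, eq_comm]
  have hinj : Function.Injective ev := (injective_iff_map_eq_zero _).2 fun p hp => by
    ext n; rw [← hco, hp]; simp
  let ι : RatFunc k →+* LaurentSeries k := IsFractionRing.lift hinj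
  have hι : ∀ p, ι (algebraMap k[X] (RatFunc k) p) = ev p := fun p => IsFractionRing.lift_algebraMap hinj p
  have hιX : ι RatFunc.X = τ := by rw [← RatFunc.algebraMap_X, hι]; simp [ev]
  have hιC : ∀ c, ι (RatFunc.C c) = HahnSeries.C c := fun c => by
    rw [← RatFunc.algebraMap_C, hι]; simp [ev]
  refine exists_pl_of_complete k (LaurentSeries k) ι ?_ fun x hx => ?_
  · rw [hιX, Valued.toNormedField.one_lt_norm_iff, hX, ← exp_zero, exp_lt_exp]
    omega
  · refine ⟨x.leadingCoeff, -x.order, ?_⟩
    have hz : τ ^ (-x.order) = HahnSeries.single x.order 1 := by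
      have h1 : τ = (HahnSeries.single (1 : ℤ) (1 : k))⁻¹ := by
        rw [HahnSeries.inv_single]; simp [τ]
      rw [h1, inv_zpow', neg_neg, ← RatFunc.single_zpow]
    rw [map_mul, map_zpow₀, hιX, hιC, hz, HahnSeries.C_apply, HahnSeries.single_mul_single,
      zero_add, mul_one, Valued.toNormedField.norm_lt_iff]
    have h1 : Valued.v (x - HahnSeries.single x.order x.leadingCoeff) ≤ exp (-(x.order + 1)) := by
      rw [valuation_le_iff_coeff_lt_eq_zero]
      intro n hn
      rw [HahnSeries.coeff_sub, HahnSeries.coeff_single]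
      split_ifs with h
      · rw [h, HahnSeries.leadingCoeff_eq, sub_self]
      · rw [HahnSeries.coeff_eq_zero_of_lt_order (by omega), sub_zero]
    refine h1.trans_lt (lt_of_not_ge fun h2 => ?_)
    have h0 : Valued.v x ≠ 0 := by simpa using hx
    have h3 : Valued.v x ≤ exp (-(x.order + 1)) := h2
    rw [valuation_le_iff_coeff_lt_eq_zero] at h3
    exact HahnSeries.coeff_order_eq_zero.not.2 hx (h3 _ (by omega))

end Pool.Agent.Lib.MP_788af2_nt.G2
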