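import Pool.Agent.Lib.MP_788af2_nt.G2.Levels

/-!
Termination of the Frobenius levels for non-constant `b`.
-/

set_option linter.unusedSectionVars false

namespace Pool.Agent.Lib.MP_788af2_nt.G2

open Polynomial WithZero IsDedekindDomain UniqueFactorizationMonoid

variable {k : Type} [Field k] [Fintype k] [CharP k 2]

lemma exists_val {b : RatFunc k} (hb : b.denom.natDegree ≠ 0) :
    ∃ v : Valuation (RatFunc k) (WithZero (Multiplicative ℤ)),
      (∀ f : k[X], v (algebraMap _ _ f) ≤ 1) ∧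
      (∀ f : k[X], v (algebraMap _ _ (derivative f)) ≤ exp 1 * v (algebraMap _ _ f)) ∧
      (∀ (f : k[X]) (n : ℕ), f ≠ 0 → v (algebraMap _ _ f) ≤ exp (-(n : ℤ)) → n ≤ f.natDegree) ∧
      exp 1 ≤ v b := by
  obtain ⟨π, hπ, hd⟩ := exists_irreducible_of_natDegree_ne_zero hb
  let w : HeightOneSpectrum k[X] := .ofPrime (Ideal.prime_span_singleton_iff.2 hπ.prime)
  have key : ∀ (f : k[X]) (n : ℕ),
      w.valuation (RatFunc k) (algebraMap _ _ f) ≤ exp (-(n : ℤ)) ↔ π ^ n ∣ f := fun f n => by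
    have := w.valuation_of_algebraMap (K := RatFunc k) f
    rw [show w.valuation (RatFunc k) (algebraMap _ _ f) = _ from this,
      w.intValuation_le_pow_iff_mem]
    exact Ideal.span_singleton_pow π n ▸ Ideal.mem_span_singleton
  have h1 : ∀ f : k[X], w.valuation (RatFunc k) (algebraMap _ _ f) ≤ 1 := fun f => by
    simpa using (key f 0).2 (by simp)
  refine ⟨w.valuation _, h1, fun f => ?_, fun f n hf h => ?_, ?_⟩
  · by_cases hf : f = 0
    · simp [hf]
    have h0 : w.valuation (RatFunc k) (algebraMap _ _ f) ≠ 0 := by simpa using hf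
    obtain ⟨n, hn⟩ : ∃ n : ℕ, w.valuation (RatFunc k) (algebraMap _ _ f) = exp (-(n : ℤ)) := by
      have := h1 f
      rw [← exp_log h0, ← exp_zero, exp_le_exp] at this
      exact ⟨_, by rw [Int.toNat_of_nonneg (neg_nonneg.2 this), neg_neg, exp_log h0]⟩
    refine ((key _ _).2 (pow_sub_one_dvd_derivative_of_pow_dvd ((key f n).1 hn.le))).trans ?_
    rw [hn, ← exp_add, exp_le_exp]
    omega
  · have := natDegree_le_of_dvd ((key f n).1 h) hf
    rw [natDegree_pow] at this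
    exact (Nat.le_mul_of_pos_right n hπ.natDegree_pos).trans this
  · have h2 : w.valuation (RatFunc k) (algebraMap _ _ b.num) = 1 :=
      w.valuation_eq_one_iff_notMem.2 fun h => hπ.not_isUnit
        ((RatFunc.isCoprime_num_denom b).isUnit_of_dvd' (Ideal.mem_span_singleton.1 h) hd)
    rw [num_eq, map_mul] at h2
    have h3 := (key b.denom 1).2 (by simpa using hd)
    calc exp 1 = exp 1 * (w.valuation _ (algebraMap _ _ b.denom) * w.valuation _ b) := by
          rw [h2, mul_one]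
      _ ≤ exp 1 * (exp (-((1 : ℕ) : ℤ)) * w.valuation _ b) := by gcongr
      _ = _ := by rw [← mul_assoc, ← exp_add]; simp

lemma val_AS {K : Type} [Field K] (v : Valuation K (WithZero (Multiplicative ℤ))) {z Y a : K}
    {M : ℕ} (h : z ^ 2 + z = Y + a) (ha : v a ≤ exp (M : ℤ)) (hY : exp (2 * M : ℤ) ≤ v Y) :
    v z * exp (M : ℤ) ≤ v Y ∧ v a * exp (M : ℤ) ≤ v Y := by
  have e : exp (M : ℤ) * exp (M : ℤ) = exp (2 * M : ℤ) := by rw [← exp_add, two_mul]
  have h1 : (1 : WithZero (Multiplicative ℤ)) ≤ exp (M : ℤ) := by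
    rw [← exp_zero, exp_le_exp]; omega
  have h2 : v a * exp (M : ℤ) ≤ v Y := le_trans (by rw [← e]; gcongr) hY
  refine ⟨?_, h2⟩
  rcases le_or_gt (v z) 1 with hz | hz
  · exact le_trans (by rw [← e]; gcongr; exact hz.trans h1) hY
  have h3 : v z * v z ≤ v Y := by
    rw [← map_mul, ← v.map_add_eq_of_lt_left (y := z) (by
      rw [map_mul]; exact lt_mul_of_one_lt_left (zero_lt_one.trans hz) hz), ← sq, h]
    exact v.map_add_le le_rfl ((le_mul_of_one_le_right' h1).trans h2)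
  refine (pow_le_pow_iff_left₀ zero_le zero_le two_ne_zero).1 ?_
  calc (v z * exp (M : ℤ)) ^ 2 = v z * v z * (exp (M : ℤ) * exp (M : ℤ)) := by
        rw [sq, mul_mul_mul_comm]
    _ ≤ v Y * v Y := by rw [e]; gcongr
    _ = _ := (sq _).symm

variable {S : Type} [NormedField S]
  [IsUltrametricDist S] [Algebra (RatFunc k) S] [IsSepClosure (RatFunc k) S] [CharP S 2]
  [DecidableEq S] {p : Pl k S}

lemma Pl.Rt.dl_zero {a b : RatFunc k} {v : Valuation (RatFunc k) (WithZero (Multiplicative ℤ))}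
    (h1 : ∀ f : k[X], v (algebraMap _ _ f) ≤ 1)
    (h2 : ∀ f : k[X], v (algebraMap _ _ (derivative f)) ≤ exp 1 * v (algebraMap _ _ f))
    (h3 : ∀ (f : k[X]) (n : ℕ), f ≠ 0 → v (algebraMap _ _ f) ≤ exp (-(n : ℤ)) → n ≤ f.natDegree)
    {N : k[X]} (hN : N ≠ 0) {m : ℕ} (hm : N.natDegree ≤ m) (ha : v a ≤ exp ((m + 1 : ℕ) : ℤ))
    (hb : exp (4 * (m + 1 : ℕ) : ℤ) ≤ v b)
    (hB : ∀ z ∈ p.K, th (algebraMap _ S b ^ 2) < ‖algebraMap _ S a + (z ^ 2 + z)‖)
    (hD : p.D (algebraMap _ S b) = 0) (hQ : p.Qp (algebraMap _ S a) (algebraMap _ S b))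
    (hQ' : p.Qp (algebraMap _ S a) (algebraMap _ S b ^ 2)) {x y X : S}
    (h : p.Rt (algebraMap _ S a) (algebraMap _ S b) x y X) {c : ℕ}
    (hc : p.φ N ^ c * p.dl X ∈ p.A) : p.dl X = 0 := by
  have inj := (algebraMap (RatFunc k) S).injective
  choose d hd using fun r : RatFunc k => p.D_K ⟨r, rfl⟩
  have hv : ∀ r, v (d r) ≤ exp 1 * v r := fun r => by
    have h0 := RatFunc.algebraMap_ne_zero r.denom_ne_zero
    have e : algebraMap _ _ r.denom * d r = algebraMap _ _ (derivative r.num) +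
        r * algebraMap _ _ (derivative r.denom) := inj (by
      have := congrArg (fun r => p.D (algebraMap _ S r)) (num_eq r)
      simp only [map_mul, map_add, p.D_mul, ← hd] at this ⊢
      have e1 : _ = algebraMap (RatFunc k) S _ := (hd _).trans (p.D_φ r.num)
      have e2 : _ = algebraMap (RatFunc k) S _ := (hd _).trans (p.D_φ r.denom)
      grind)
    refine le_of_mul_le_mul_left (a := v (algebraMap _ _ r.denom)) ?_
      (zero_lt_iff.2 ((Valuation.ne_zero_iff v).2 h0))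
    rw [← map_mul, e, mul_left_comm, ← map_mul, ← num_eq]
    refine v.map_add_le (h2 _) ?_
    rw [num_eq, map_mul, map_mul, mul_comm, ← mul_assoc]
    gcongr
    exact h2 _
  have hX := hQ _ _ _ h
  obtain ⟨n, hn⟩ := Pl.half_poles (p.O_dl X) c hc
  by_contra h0
  have hn0 : n ≠ 0 := by rintro rfl; exact mul_ne_zero (p.φ_ne hN) h0 (by simpa using hn.symm)
  have h4 : n.natDegree < N.natDegree := by
    rw [← pow_lt_pow_iff_right₀ p.t_gt, ← p.norm_φ hn0, ← p.norm_φ hN, hn, norm_mul]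
    exact mul_lt_of_lt_one_right (norm_pos_iff.2 (p.φ_ne hN)) (Pl.dl_small (p.K_le_Kh hX))
  have key : ∀ Y : RatFunc k, p.dl (algebraMap _ S Y) = p.dl X →
      (∃ z ∈ p.K, z ^ 2 + z = algebraMap _ S Y + algebraMap _ S a) →
      v Y < exp (2 * (m + 1 : ℕ) : ℤ) := by
    rintro Y e ⟨_, ⟨z, rfl⟩, hz⟩
    by_contra! hY
    obtain ⟨g1, g2⟩ := val_AS v (z := z) (inj (by simpa using hz)) ha hY
    have hY0 : v Y ≠ 0 := (exp_pos.trans_le hY).ne'
    have e1 : algebraMap _ _ n * Y = algebraMap _ _ N * (d z + d a) := inj (by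
      have := congrArg p.D hz
      have h5 : algebraMap _ S Y ≠ 0 := by simpa using hY0
      simp only [p.D_add, p.D_sq] at this
      simp only [map_mul, map_add, hd]
      change p.φ n * _ = p.φ N * _
      rw [hn, ← e, Pl.dl]
      field_simp
      grind)
    have g3 : v (d z + d a) * exp ((m + 1 : ℕ) : ℤ) ≤ exp 1 * v Y := by
      rcases v.map_add' (d z) (d a) with g | g
      · exact (mul_le_mul_left (g.trans (hv z)) _).trans (by rw [mul_assoc]; gcongr)
      · exact (mul_le_mul_left (g.trans (hv a)) _).trans (by rw [mul_assoc]; gcongr)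
    refine (h3 n m hn0 (le_of_mul_le_mul_right (a := v Y * exp ((m + 1 : ℕ) : ℤ)) ?_
      (mul_pos (zero_lt_iff.2 hY0) exp_pos))).not_gt (h4.trans_le hm)
    rw [← mul_assoc, ← map_mul, e1, map_mul, mul_assoc, mul_left_comm (exp _), ← exp_add,
      mul_comm (v Y), show (-(m : ℤ) + (m + 1 : ℕ)) = 1 by omega]
    exact (mul_le_of_le_one_left' (h1 N)).trans g3
  obtain ⟨x', rfl⟩ := h.1
  obtain ⟨X', rfl⟩ := id hX
  have g1 := key X' rfl (h.exists_z' hB ⟨b, rfl⟩ hX hQ')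
  have g2 := key x' (by
    have := h.D_eq
    have := h.x_ne
    have := h.X_ne
    simp only [Pl.dl]; field_simp; grind) (h.exists_z hX)
  have e : X' * (X' + x') = b := inj (by simpa using h.2.2.2.1)
  refine hb.not_gt ?_
  rw [← e, map_mul, show (4 * (m + 1 : ℕ) : ℤ) = 2 * (m + 1 : ℕ) + 2 * (m + 1 : ℕ) by ring, exp_add]
  exact mul_lt_mul'' g1 (v.map_add_lt g1 g2) zero_le zero_le

lemma Pl.φ_num (p : Pl k S) (b : RatFunc k) : p.φ b.num = p.φ b.denom * algebraMap _ S b :=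
  (congrArg (algebraMap _ S) (num_eq b)).trans (map_mul _ _ _)

lemma Pl.exists_lv (p : Pl k S) {b : RatFunc k} (hb : b ≠ 0) {g : k[X]}
    (hg : g ≠ 0) {j J : ℕ} (hj : j ≤ J) : ∃ V : Lv p,
      V.ν = (b.num * b.denom * g) ^ 2 ^ J ∧ V.B = algebraMap _ S (b ^ 2 ^ j) := by
  classical
  have hn := RatFunc.num_ne_zero hb
  have hd := b.denom_ne_zero
  have e := p.φ_num b
  have h0 : algebraMap _ S b ≠ 0 := by simpa using hb
  have key : ∀ u : S, p.φ (b.num * b.denom * g) * u ∈ p.A →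
      p.φ ((b.num * b.denom * g) ^ 2 ^ J) * u ^ 2 ^ j ∈ p.A := fun u hu => by
    obtain ⟨m, hm⟩ := Nat.exists_eq_add_of_le (Nat.pow_le_pow_right two_pos hj)
    rw [hm, map_pow, pow_add, mul_right_comm, ← mul_pow]
    exact mul_mem (pow_mem hu _) (pow_mem (p.φ_mem _) _)
  refine ⟨⟨_, radical (b.num * b.denom), _, pow_ne_zero _ (mul_ne_zero (mul_ne_zero hn hd) hg),
    PerfectField.separable_iff_squarefree.2 squarefree_radical,
    (radical_dvd_self.mul_right g).trans (dvd_pow_self _ (by positivity)), by simpa using hb, ?_,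
    ?_, ?_⟩, rfl, rfl⟩
  · rcases j with _ | j
    · obtain ⟨c, hc⟩ := divRadical_dvd_derivative (b.num * b.denom)
      have e1 : p.φ (b.num * b.denom) = p.φ b.denom ^ 2 * algebraMap _ S b := by
        rw [map_mul, e]; ring
      have e2 := congrArg p.φ (EuclideanDomain.radical_mul_divRadical (a := b.num * b.denom))
      have h1 := p.φ_ne (mul_ne_zero hn hd)
      rw [pow_zero, pow_one, ← p.dl_sq_mul (p.φ_ne hd), ← e1, Pl.dl, p.D_φ, hc]
      convert p.φ_mem c using 1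
      rw [map_mul] at e2
      rw [mul_div_assoc', div_eq_iff h1, map_mul, ← mul_assoc, e2, mul_comm]
    · rw [pow_succ, pow_mul, map_pow, p.dl_sq, mul_zero]; exact zero_mem _
  · rw [map_pow (algebraMap _ S)]
    refine key _ ?_
    convert p.φ_mem (b.num * b.num * g) using 1
    simp only [map_mul, e]; ring
  · rw [map_pow (algebraMap _ S), ← inv_pow]
    refine key _ ?_
    convert p.φ_mem (b.denom * b.denom * g) using 1
    simp only [map_mul, e]; field_simp

lemma rank_pow [DecidableEq (RatFunc k)] (a : RatFunc k) {b : RatFunc k} (hb : b ≠ 0) (j : ℕ) :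
    Module.rank ℤ (wc a b).Point = Module.rank ℤ (wc a (b ^ 2 ^ j)).Point := by
  induction j with
  | zero => rw [pow_zero, pow_one]
  | succ j ih => exact ih.trans (rank_frob a (by rw [← pow_mul, ← pow_succ]) (by simpa using hb))

lemma denom_deg {b : RatFunc k} (hb : ∀ g : k[X], b ≠ algebraMap _ _ g) :
    b.denom.natDegree ≠ 0 := fun h => by
  have h1 : b.denom = 1 := (RatFunc.monic_denom b).natDegree_eq_zero.1 h
  have h2 := num_eq b
  rw [h1, map_one, one_mul] at h2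
  exact hb _ h2.symm

lemma Pl.exists_root (p : Pl k S) {b : RatFunc k} (hb : ∀ g : k[X], b ≠ algebraMap _ _ g) :
    ∃ (j : ℕ) (c : RatFunc k), b = c ^ 2 ^ j ∧ (∀ g : k[X], c ≠ algebraMap _ _ g) ∧
      p.D (algebraMap _ S c) ≠ 0 := by
  obtain ⟨v, -, -, -, h4⟩ := exists_val (denom_deg hb)
  induction hn : (log (v b)).toNat using Nat.strong_induction_on generalizing b with
  | _ n ih =>
    by_cases hD : p.D (algebraMap _ S b) = 0
    swap
    · exact ⟨0, b, by simp, hb, hD⟩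
    obtain ⟨c, hc⟩ := p.E_K ⟨b, rfl⟩
    obtain rfl : b = c ^ 2 := (algebraMap _ S).injective (by rw [map_pow, hc, p.D_eq_zero hD])
    have h0 : c ≠ 0 := by rintro rfl; exact hb 0 (by simp)
    have h1 : v c ≠ 0 := by simpa using h0
    rw [map_pow, ← exp_log h1, ← exp_nsmul] at h4 hn
    rw [exp_le_exp, two_nsmul] at h4
    rw [log_exp, two_nsmul] at hn
    obtain ⟨j, d, rfl, h⟩ := ih _ (by omega) (b := c) (by rintro d rfl; exact hb _ (map_pow _ _ _).symm)
      (by rw [← exp_log h1, exp_le_exp]; omega) rfl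
    exact ⟨j + 1, d, by rw [← pow_mul, ← pow_succ], h⟩

theorem levels [DecidableEq (RatFunc k)] (p : Pl k S) (a : RatFunc k) {b : RatFunc k}
    (hb : ∀ g : k[X], b ≠ algebraMap _ _ g) (hD : p.D (algebraMap _ S b) ≠ 0) :
    ∃ (J : ℕ) (V : Fin (J + 1) → Lv p) (ρ : ℝ), 1 ≤ ρ ∧ (∀ j, th (V j).B ≤ ρ) ∧
      (∀ j, (V j).ν = (V 0).ν) ∧
      (∀ j, p.φ (V j).ν * algebraMap _ S a ∈ p.A) ∧
      ∀ (ι : Type) [Fintype ι] [DecidableEq ι] (F : Fam p ι) (hD : ∀ j, F.Dv ((V j).ν ^ 9))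
        (f : k[X]) (a₀ : S) (ha : ∀ j, p.φ (V j).ν * a₀ ∈ p.A) (Θ : S)
        (e : (ι → ZMod 2) → ZMod 2), Θ ∈ F.L → (∀ γ, F.σ γ Θ = Θ + c2 (e γ)) →
        algebraMap _ S (a + algebraMap _ _ f) + (Θ ^ 2 + Θ) = a₀ →
        F.Deep ρ (algebraMap _ S (a + algebraMap _ _ f)) →
        2 ≤ Module.rank ℤ (wc (a + algebraMap _ _ f) b).Point →
        ∃ (j : Fin (J + 1)) (P P' : Lv.M F (ha j)), Lv.Eig (ha j) e P ∧ Lv.Eig (ha j) e P' ∧
          Lv.Mixed F (Lv.cM (hD j) (ha j) P) ∧ Lv.cM (hD j) (ha j) P' ≠ 0 ∧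
          Lv.cM (hD j) (ha j) P' ≠ Lv.cM (hD j) (ha j) P := by
  have hb0 : b ≠ 0 := by simpa using hb 0
  obtain ⟨v, h1, h2, h3, h4⟩ := exists_val (denom_deg hb)
  have hN : b.num * b.denom * a.denom ≠ 0 :=
    mul_ne_zero (mul_ne_zero (RatFunc.num_ne_zero hb0) b.denom_ne_zero) a.denom_ne_zero
  obtain ⟨m, hm, hm'⟩ : ∃ m : ℕ, (b.num * b.denom * a.denom).natDegree ≤ m ∧
      v a ≤ exp ((m + 1 : ℕ) : ℤ) :=
    ⟨max _ (log (v a)).toNat, le_max_left _ _, le_exp_log.trans (exp_le_exp.2 (by omega))⟩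
  choose V hV hV' using fun j : Fin (4 * (m + 1) + 2) =>
    p.exists_lv hb0 a.denom_ne_zero (Nat.le_of_lt_succ j.2)
  have hρ : ∀ j, th (V j).B ≤ th (algebraMap _ S b) ^ 2 ^ (4 * (m + 1) + 1) := fun j => by
    rw [hV', map_pow, th_pow]
    exact pow_le_pow_right₀ (one_le_th _) (Nat.pow_le_pow_right two_pos (Nat.le_of_lt_succ j.2))
  refine ⟨_, V, _, one_le_pow₀ (one_le_th _), hρ, fun j => by rw [hV, hV], fun j => ?_,
    fun ι _ _ F hF f a₀ ha Θ e hΘ he ha' hd hr => ?_⟩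
  · obtain ⟨n, hn⟩ := Nat.exists_eq_add_of_le (Nat.one_le_two_pow (n := 4 * (m + 1) + 1))
    convert p.φ_mem (b.num * b.denom * a.num * (b.num * b.denom * a.denom) ^ n) using 1
    simp only [hV, hn, pow_add, map_mul, p.φ_num a, pow_one]; ring
  have third := fun j u => Lv.exists_third (hF j) (ha j) hΘ he (hV' j).symm ha' (hd.mono (hρ j))
    (rank_pow _ hb0 j ▸ hr) u
  have hs : ∀ j, algebraMap _ S (b ^ 2 ^ (j + 1)) = algebraMap _ S (b ^ 2 ^ j) ^ 2 := fun j => by
    rw [pow_succ, pow_mul, map_pow]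
  by_cases hQ : ∃ j < 4 * (m + 1) + 2,
      ¬ p.Qp (algebraMap _ S (a + algebraMap _ _ f)) (algebraMap _ S (b ^ 2 ^ j))
  · classical
    obtain ⟨h5, h6⟩ := Nat.find_spec hQ
    have h7 := fun j => Nat.find_min hQ (m := j)
    generalize Nat.find hQ = j at *
    simp only [Pl.Qp, not_forall] at h6
    obtain ⟨x, y, X, h8, h9⟩ := h6
    obtain ⟨P, g1, g2⟩ := Lv.exists_mixed (hF ⟨j, h5⟩) (ha _) hΘ he ha' (by rw [hV']; exact h8) h9 (by
      rcases j with _ | j
      · exact h8.base ⟨_, rfl⟩ (by simpa using hD) h9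
      · rw [hs] at h8
        exact h8.step ⟨_, rfl⟩ (by simpa [show j < 4 * (m + 1) + 2 by omega] using h7 j) h9)
    obtain ⟨P', g3, g4, g5⟩ := third _ (Lv.cM (hF ⟨j, h5⟩) (ha _) P)
    exact ⟨_, P, P', g1, g3, g2, g4, g5⟩
  · push Not at hQ
    let j : Fin (4 * (m + 1) + 2) := ⟨4 * (m + 1), by omega⟩
    obtain ⟨P, g1, g2, -⟩ := third j 0
    refine absurd (g1.cM_zero (hF j) (ha j) hΘ he ha' (hV' j ▸ hQ j j.2) fun x y X h5 h6 => ?_) g2
    rw [hV, map_pow, ← pow_mul] at h6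
    rw [hV'] at h5
    refine h5.dl_zero h1 h2 h3 hN hm (v.map_add_le hm' ((h1 f).trans ?_)) ?_ (fun z hz => ?_) ?_
      (hQ j j.2) (hs j ▸ hQ _ (Nat.lt_succ_self _)) h6
    · rw [← exp_zero, exp_le_exp]; omega
    · rw [map_pow]
      refine le_trans ?_ (pow_le_pow_left₀ zero_le h4 _)
      rw [← exp_nsmul, exp_le_exp, nsmul_one]
      exact_mod_cast (Nat.lt_two_pow_self (n := 4 * (m + 1))).le
    · refine lt_of_eq_of_lt ?_ (hd z (F.L_Lh (F.K_L hz)))
      rw [← hs, map_pow, th_pow]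
    · exact (congrArg p.D (hs (4 * m + 3))).trans (p.D_sq _)

end Pool.Agent.Lib.MP_788af2_nt.G2
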